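import Pool.Agent.Helper87.NX2.LargeSieve
import Pool.Agent.Helper18.BV.Defs

/-!
# The multiplicative large sieve inequality
-/

set_option autoImplicit false

open Finset
open scoped ComplexConjugate

namespace Pool.Agent.Helper61.CA

open Pool.Agent.Helper57.NX Pool.Agent.Helper18.BV Pool.Agent.Helper67.NX2

/-- Parseval's identity for an orthogonal family. -/
theorem parseval_gen {ι α : Type*} [Fintype ι] [Fintype α] [DecidableEq α] (u : ι → α → ℂ)
    (K : α → ℝ) (h : ∀ a b, ∑ i, u i a * conj (u i b) = if a = b then (K a : ℂ) else 0)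
    (f : α → ℂ) : ∑ i, ‖∑ a, u i a * f a‖ ^ 2 = ∑ a, K a * ‖f a‖ ^ 2 := by
  have h1 : ((∑ i, ‖∑ a, u i a * f a‖ ^ 2 : ℝ) : ℂ) = ((∑ a, K a * ‖f a‖ ^ 2 : ℝ) : ℂ) := by
    push_cast
    have e1 : ∀ i, ((‖∑ a, u i a * f a‖ : ℂ)) ^ 2 =
        ∑ a, ∑ b, (u i a * conj (u i b)) * (f a * conj (f b)) := by
      intro i
      rw [← Complex.mul_conj', map_sum, Finset.sum_mul_sum]
      refine Finset.sum_congr rfl fun a _ => Finset.sum_congr rfl fun b _ => ?_
      rw [map_mul]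
      ring
    rw [Finset.sum_congr rfl fun i _ => e1 i, Finset.sum_comm]
    refine Finset.sum_congr rfl fun a _ => ?_
    rw [Finset.sum_comm]
    have e2 : ∀ b, ∑ i, (u i a * conj (u i b)) * (f a * conj (f b)) =
        if a = b then (K a : ℂ) * (f a * conj (f b)) else 0 := by
      intro b
      rw [← Finset.sum_mul, h a b]
      split_ifs <;> simp
    rw [Finset.sum_congr rfl fun b _ => e2 b, Finset.sum_ite_eq]
    simp only [Finset.mem_univ, if_true]
    rw [Complex.mul_conj']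
  exact_mod_cast h1

/-- The complex conjugate of a value of a Dirichlet character. -/
theorem conj_char {q : ℕ} [NeZero q] (χ : DirichletCharacter ℂ q) (b : ZMod q) :
    conj (χ b) = χ⁻¹ b := by
  have h := MulChar.star_apply' χ b
  simpa using h

theorem char_orth {q : ℕ} [NeZero q] (a b : ZMod q) :
    ∑ χ : DirichletCharacter ℂ q, χ a * conj (χ b) =
      if a = b then (((if IsUnit a then (q.totient : ℝ) else 0) : ℝ) : ℂ) else 0 := by
  by_cases hb : IsUnit b
  · have h1 : ∀ χ : DirichletCharacter ℂ q, χ a * conj (χ b) = χ b⁻¹ * χ a := by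
      intro χ
      rw [conj_char, mul_comm, MulChar.inv_apply]
      congr 2
      rw [← hb.unit_spec, Ring.inverse_unit, ZMod.inv_coe_unit]
    rw [Finset.sum_congr rfl fun χ _ => h1 χ, DirichletCharacter.sum_char_inv_mul_char_eq ℂ hb a]
    by_cases hab : a = b
    · subst hab
      simp [hb]
    · rw [if_neg (fun h => hab h.symm), if_neg hab]
  · have h1 : ∀ χ : DirichletCharacter ℂ q, χ a * conj (χ b) = 0 := by
      intro χ
      rw [MulChar.map_nonunit χ hb, map_zero, mul_zero]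
    rw [Finset.sum_congr rfl fun χ _ => h1 χ, Finset.sum_const_zero]
    by_cases hab : a = b
    · subst hab
      simp [hb]
    · rw [if_neg hab]

theorem char_parseval {q : ℕ} [NeZero q] (f : ZMod q → ℂ) :
    ∑ χ : DirichletCharacter ℂ q, ‖∑ a, χ a * f a‖ ^ 2 =
      ∑ a, (if IsUnit a then (q.totient : ℝ) else 0) * ‖f a‖ ^ 2 :=
  parseval_gen (fun (χ : DirichletCharacter ℂ q) a => χ a) _ (fun a b => char_orth a b) f

/-- The additive character `e(·/q)`. -/
noncomputable abbrev ps (q : ℕ) [NeZero q] : AddChar (ZMod q) ℂ := ZMod.stdAddChar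

theorem ps_orth {q : ℕ} [NeZero q] (b c : ZMod q) :
    ∑ a : ZMod q, ps q (a * b) * conj (ps q (a * c)) = if b = c then ((q : ℝ) : ℂ) else 0 := by
  have h1 : ∀ a : ZMod q, ps q (a * b) * conj (ps q (a * c)) = ps q (a * (b - c)) := by
    intro a
    rw [mul_sub, sub_eq_add_neg, AddChar.map_add_eq_mul]
    congr 1
    have h2 : ‖ps q (a * c)‖ = 1 := by
      rw [ps, ZMod.stdAddChar_apply]
      exact Circle.norm_coe _
    rw [AddChar.map_neg_eq_inv, Complex.inv_def, Complex.normSq_eq_norm_sq, h2]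
    simp
  rw [Finset.sum_congr rfl fun a _ => h1 a,
    AddChar.sum_mulShift (b - c) (ZMod.isPrimitive_stdAddChar q)]
  by_cases hbc : b = c
  · subst hbc
    simp [ZMod.card]
  · rw [if_neg (sub_ne_zero.2 hbc), if_neg hbc]
    simp

theorem gauss_norm {q : ℕ} [NeZero q] (χ : DirichletCharacter ℂ q) (hχ : χ.IsPrimitive) :
    ‖gaussSum χ (ps q)‖ ^ 2 = q := by
  have hq : (0 : ℝ) < q.totient := by
    exact_mod_cast Nat.totient_pos.2 (Nat.pos_of_ne_zero (NeZero.ne q))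
  have h1 := parseval_gen (fun a b : ZMod q => ps q (a * b)) (fun _ => (q : ℝ))
    (fun b c => ps_orth b c) (fun b => χ b)
  have hun : ∀ ξ : DirichletCharacter ℂ q, ∑ a : ZMod q, ‖ξ a‖ ^ 2 = q.totient := by
    intro ξ
    have e1 : ∀ a : ZMod q, ‖ξ a‖ ^ 2 = if IsUnit a then (1 : ℝ) else 0 := by
      intro a
      split_ifs with h
      · rw [← h.unit_spec, DirichletCharacter.unit_norm_eq_one, one_pow]
      · rw [MulChar.map_nonunit ξ h, norm_zero]; norm_num
    rw [Finset.sum_congr rfl fun a _ => e1 a, Finset.sum_ite, Finset.sum_const_zero, add_zero,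
      Finset.sum_const, nsmul_eq_mul, mul_one]
    norm_cast
    rw [← ZMod.card_units_eq_totient, ← Finset.card_univ]
    symm
    refine Finset.card_bij (fun u _ => (u : ZMod q)) ?_ ?_ ?_
    · intro u _
      simp
    · intro u _ v _ h
      exact Units.ext h
    · intro a ha
      have ha' : IsUnit a := by simpa using ha
      exact ⟨ha'.unit, Finset.mem_univ _, ha'.unit_spec⟩
  have h2 : ∀ a : ZMod q, ‖∑ b, ps q (a * b) * χ b‖ ^ 2 = ‖χ⁻¹ a‖ ^ 2 * ‖gaussSum χ (ps q)‖ ^ 2 := by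
    intro a
    rw [← mul_pow, ← norm_mul, ← gaussSum_mulShift_of_isPrimitive (ps q) hχ a]
    congr 2
    rw [gaussSum]
    refine Finset.sum_congr rfl fun b _ => ?_
    rw [AddChar.mulShift_apply, mul_comm]
  rw [Finset.sum_congr rfl fun a _ => h2 a, ← Finset.sum_mul, hun, ← Finset.mul_sum, hun] at h1
  have h3 : (q.totient : ℝ) * ‖gaussSum χ (ps q)‖ ^ 2 = q.totient * q := by linarith
  exact mul_left_cancel₀ hq.ne' h3

theorem ps_eq_e {q : ℕ} [NeZero q] (n k : ℕ) :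
    ps q ((n : ZMod q) * (k : ZMod q)) = e ((k : ℝ) / q * n) := by
  have h := ZMod.stdAddChar_coe (N := q) ((n : ℤ) * (k : ℤ))
  push_cast at h
  rw [ps, h, e]
  congr 1
  push_cast
  ring

/-- The sum over primitive characters of one modulus. -/
theorem prim_le {q : ℕ} (hq : 1 ≤ q) (I : Finset ℕ) (a : ℕ → ℂ) :
    ((q : ℝ) / q.totient) * ∑ χ ∈ prim q, ‖∑ n ∈ I, a n * χ (n : ZMod q)‖ ^ 2 ≤
      ∑ k ∈ (range q).filter (fun k => Nat.Coprime k q),
        ‖∑ n ∈ I, conj (a n) * e ((k : ℝ) / q * n)‖ ^ 2 := by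
  have : NeZero q := ⟨by omega⟩
  have hq0 : (0 : ℝ) < q := by exact_mod_cast hq
  have ht : (0 : ℝ) < q.totient := by exact_mod_cast Nat.totient_pos.2 hq
  set T : ZMod q → ℂ := fun b => ∑ n ∈ I, conj (a n) * ps q ((n : ZMod q) * b) with hT
  have h1 : ∀ χ ∈ prim q, (q : ℝ) * ‖∑ n ∈ I, a n * χ (n : ZMod q)‖ ^ 2 =
      ‖∑ b, χ b * T b‖ ^ 2 := by
    intro χ hχ
    have hp := mem_prim.1 hχ
    rw [← gauss_norm χ hp, ← mul_pow, ← norm_mul]
    congr 1
    have e1 : ‖gaussSum χ (ps q) * ∑ n ∈ I, a n * χ (n : ZMod q)‖ =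
        ‖gaussSum χ (ps q) * conj (∑ n ∈ I, a n * χ (n : ZMod q))‖ := by
      rw [norm_mul, norm_mul, RCLike.norm_conj]
    rw [e1]
    congr 1
    rw [map_sum, Finset.mul_sum]
    have e2 : ∀ n ∈ I, gaussSum χ (ps q) * conj (a n * χ (n : ZMod q)) =
        ∑ b, χ b * (conj (a n) * ps q ((n : ZMod q) * b)) := by
      intro n _
      rw [map_mul, conj_char]
      have e3 := gaussSum_mulShift_of_isPrimitive (ps q) hp (n : ZMod q)
      calc gaussSum χ (ps q) * (conj (a n) * χ⁻¹ (n : ZMod q))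
          = conj (a n) * (χ⁻¹ (n : ZMod q) * gaussSum χ (ps q)) := by ring
        _ = conj (a n) * gaussSum χ ((ps q).mulShift (n : ZMod q)) := by rw [e3]
        _ = _ := by
          rw [gaussSum, Finset.mul_sum]
          refine Finset.sum_congr rfl fun b _ => ?_
          rw [AddChar.mulShift_apply]
          ring
    rw [Finset.sum_congr rfl e2, Finset.sum_comm]
    refine Finset.sum_congr rfl fun b _ => ?_
    rw [hT, Finset.mul_sum]
  have h2 : ∑ χ ∈ prim q, (q : ℝ) * ‖∑ n ∈ I, a n * χ (n : ZMod q)‖ ^ 2 ≤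
      ∑ b, (if IsUnit b then (q.totient : ℝ) else 0) * ‖T b‖ ^ 2 := by
    rw [Finset.sum_congr rfl h1, ← char_parseval]
    exact Finset.sum_le_univ_sum_of_nonneg fun χ => sq_nonneg _
  have h3 : ∑ b, (if IsUnit b then (q.totient : ℝ) else 0) * ‖T b‖ ^ 2 =
      q.totient * ∑ k ∈ (range q).filter (fun k => Nat.Coprime k q),
        ‖∑ n ∈ I, conj (a n) * e ((k : ℝ) / q * n)‖ ^ 2 := by
    rw [Finset.mul_sum]
    have e0 : ∀ b : ZMod q, (if IsUnit b then (q.totient : ℝ) else 0) * ‖T b‖ ^ 2 =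
        if IsUnit b then (q.totient : ℝ) * ‖T b‖ ^ 2 else 0 := by
      intro b; split_ifs <;> simp
    rw [Finset.sum_congr rfl fun b _ => e0 b, ← Finset.sum_filter]
    refine Finset.sum_bij' (fun b _ => b.val) (fun k _ => (k : ZMod q)) ?_ ?_ ?_ ?_ ?_
    · intro b hb
      have hb' : IsUnit b := (Finset.mem_filter.1 hb).2
      refine Finset.mem_filter.2 ⟨Finset.mem_range.2 (ZMod.val_lt _), ?_⟩
      rw [← ZMod.isUnit_iff_coprime, ZMod.natCast_zmod_val]
      exact hb'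
    · intro k hk
      refine Finset.mem_filter.2 ⟨Finset.mem_univ _, ?_⟩
      rw [ZMod.isUnit_iff_coprime]
      exact (Finset.mem_filter.1 hk).2
    · intro b _; exact ZMod.natCast_zmod_val b
    · intro k hk; exact ZMod.val_cast_of_lt (Finset.mem_range.1 (Finset.mem_filter.1 hk).1)
    · intro b _
      congr 3
      rw [hT]
      refine Finset.sum_congr rfl fun n _ => ?_
      rw [← ps_eq_e, ZMod.natCast_zmod_val]
  rw [← Finset.mul_sum, h3] at h2
  rw [div_mul_eq_mul_div, div_le_iff₀ ht, mul_comm _ (q.totient : ℝ)]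
  exact h2

/-- lower bound for the distance to the integers of a fraction -/
theorem dint_frac {u : ℤ} {D : ℕ} (hD : 1 ≤ D) (h : ¬ (D : ℤ) ∣ u) :
    1 / (D : ℝ) ≤ dint ((u : ℝ) / D) := by
  have hD0 : (0 : ℝ) < D := by exact_mod_cast hD
  unfold dint
  set r := round ((u : ℝ) / D)
  have h1 : (u : ℝ) / D - r = ((u - D * r : ℤ) : ℝ) / D := by
    push_cast
    field_simp
  rw [h1, abs_div, abs_of_pos hD0]
  refine div_le_div_of_nonneg_right ?_ hD0.le
  have h2 : u - D * r ≠ 0 := by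
    intro h3
    exact h ⟨r, by linarith⟩
  have h3 := Int.one_le_abs h2
  rw [← Int.cast_abs]
  exact_mod_cast h3

/-- Two distinct reduced fractions of `[0,1)`. -/
theorem farey_sep {q q' k k' : ℕ} (hk : k < q) (hk' : k' < q') (hc : Nat.Coprime k q)
    (hc' : Nat.Coprime k' q') (hne : ¬ (q = q' ∧ k = k')) :
    1 / ((q : ℝ) * q') ≤ dint ((k : ℝ) / q - (k' : ℝ) / q') := by
  have hq : 0 < q := by omega
  have hq' : 0 < q' := by omega
  have hq0 : (q : ℝ) ≠ 0 := by exact_mod_cast hq.ne'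
  have hq0' : (q' : ℝ) ≠ 0 := by exact_mod_cast hq'.ne'
  have e1 : (k : ℝ) / q - (k' : ℝ) / q' =
      (((k : ℤ) * q' - (k' : ℤ) * q : ℤ) : ℝ) / ((q * q' : ℕ) : ℝ) := by
    push_cast
    field_simp
  rw [e1]
  have h := dint_frac (u := (k : ℤ) * q' - (k' : ℤ) * q) (D := q * q') (Nat.mul_pos hq hq') ?_
  · calc 1 / ((q : ℝ) * q') = 1 / ((q * q' : ℕ) : ℝ) := by push_cast; rfl
      _ ≤ _ := h
  · intro hd
    have hlt : |(k : ℤ) * q' - (k' : ℤ) * q| < ((q * q' : ℕ) : ℤ) := by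
      rw [abs_lt]
      push_cast
      have a1 : (0 : ℤ) ≤ (k : ℤ) * q' := by positivity
      have a2 : (0 : ℤ) ≤ (k' : ℤ) * q := by positivity
      have a3 : (k : ℤ) * q' < q * q' := by
        have : (k : ℤ) < q := by exact_mod_cast hk
        have h0 : (0 : ℤ) < q' := by exact_mod_cast hq'
        exact mul_lt_mul_of_pos_right this h0
      have a4 : (k' : ℤ) * q < q * q' := by
        have : (k' : ℤ) < q' := by exact_mod_cast hk'
        have h0 : (0 : ℤ) < q := by exact_mod_cast hq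
        nlinarith
      constructor <;> linarith
    have h0 := Int.eq_zero_of_abs_lt_dvd hd hlt
    have h1 : k * q' = k' * q := by
      have : (k : ℤ) * q' = k' * q := by linarith
      exact_mod_cast this
    have d1 : q ∣ q' := by
      have : q ∣ k * q' := ⟨k', by rw [h1]; ring⟩
      exact hc.symm.dvd_of_dvd_mul_left this
    have d2 : q' ∣ q := by
      have : q' ∣ k' * q := ⟨k, by rw [← h1]; ring⟩
      exact hc'.symm.dvd_of_dvd_mul_left this
    have hqq : q = q' := Nat.dvd_antisymm d1 d2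
    subst hqq
    exact hne ⟨rfl, Nat.eq_of_mul_eq_mul_right hq h1⟩

/-- **The multiplicative large sieve inequality.** -/
theorem mls : ∃ C : ℝ, 0 < C ∧ ∀ (Q N0 N : ℕ), 1 ≤ Q → 1 ≤ N → ∀ a : ℕ → ℂ,
    ∑ q ∈ Icc 1 Q, ((q : ℝ) / q.totient) * ∑ χ ∈ prim q,
      ‖∑ n ∈ Ico N0 (N0 + N), a n * χ (n : ZMod q)‖ ^ 2 ≤
      C * (N + (Q : ℝ) ^ 2) * ∑ n ∈ Ico N0 (N0 + N), ‖a n‖ ^ 2 := by
  classical
  obtain ⟨C, hC, hLS⟩ := Pool.Agent.Helper67.NX2.large_sieve
  refine ⟨C, hC, ?_⟩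
  intro Q N0 N hQ hN a
  have hQ0 : (1 : ℝ) ≤ Q := by exact_mod_cast hQ
  set F : Finset (Σ _ : ℕ, ℕ) :=
    (Icc 1 Q).sigma (fun q => (range q).filter (fun k => Nat.Coprime k q)) with hF
  set φ : (Σ _ : ℕ, ℕ) → ℝ := fun x => (x.2 : ℝ) / x.1 with hφ
  have hFm : ∀ x ∈ F, 1 ≤ x.1 ∧ x.1 ≤ Q ∧ x.2 < x.1 ∧ Nat.Coprime x.2 x.1 := by
    intro x hx
    rw [hF, Finset.mem_sigma, Finset.mem_Icc, Finset.mem_filter, Finset.mem_range] at hx
    exact ⟨hx.1.1, hx.1.2, hx.2.1, hx.2.2⟩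
  have hsep : ∀ x ∈ F, ∀ y ∈ F, x ≠ y → 1 / (Q : ℝ) ^ 2 ≤ dint (φ x - φ y) := by
    intro x hx y hy hxy
    obtain ⟨x1, x2, x3, x4⟩ := hFm x hx
    obtain ⟨y1, y2, y3, y4⟩ := hFm y hy
    have h := farey_sep x3 y3 x4 y4 (by
      rintro ⟨h1, h2⟩
      apply hxy
      obtain ⟨xa, xb⟩ := x
      obtain ⟨ya, yb⟩ := y
      dsimp only at h1 h2
      subst h1; subst h2; rfl)
    refine le_trans ?_ h
    have hx0 : (0 : ℝ) < x.1 := by exact_mod_cast x1
    have hy0 : (0 : ℝ) < y.1 := by exact_mod_cast y1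
    have hxQ : (x.1 : ℝ) ≤ Q := by exact_mod_cast x2
    have hyQ : (y.1 : ℝ) ≤ Q := by exact_mod_cast y2
    refine one_div_le_one_div_of_le (by positivity) ?_
    rw [sq]
    exact mul_le_mul hxQ hyQ hy0.le (by linarith)
  have hd0 : dint 0 = 0 := by unfold dint; simp
  have hinj : Set.InjOn φ F := by
    intro x hx y hy hxy
    by_contra hne
    have h := hsep x hx y hy hne
    rw [hxy, sub_self, hd0] at h
    have : 0 < 1 / (Q : ℝ) ^ 2 := by positivity
    linarith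
  have hmain := hLS N0 N (1 / (Q : ℝ) ^ 2) hN (by positivity)
    (by rw [div_le_one (by positivity)]; nlinarith) (F.image φ) (by
      intro α hα β hβ hne
      obtain ⟨x, hx, rfl⟩ := Finset.mem_image.1 hα
      obtain ⟨y, hy, rfl⟩ := Finset.mem_image.1 hβ
      exact hsep x hx y hy (fun h => hne (by rw [h]))) (fun n => conj (a n))
  rw [Finset.sum_image hinj, one_div_one_div] at hmain
  have e1 : ∀ n, ‖conj (a n)‖ ^ 2 = ‖a n‖ ^ 2 := fun n => by rw [RCLike.norm_conj]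
  rw [Finset.sum_congr rfl fun n _ => e1 n] at hmain
  refine le_trans ?_ hmain
  rw [hF, Finset.sum_sigma]
  refine Finset.sum_le_sum fun q hq => ?_
  exact prim_le (Finset.mem_Icc.1 hq).1 (Ico N0 (N0 + N)) a

/-- The large sieve for a finite set of natural numbers. -/
theorem mls_finset : ∃ C : ℝ, 0 < C ∧ ∀ (Q X : ℕ), 1 ≤ Q → 1 ≤ X → ∀ (S : Finset ℕ) (a : ℕ → ℂ),
    (∀ n ∈ S, 1 ≤ n ∧ n ≤ X) →
    ∑ q ∈ Icc 1 Q, ((q : ℝ) / q.totient) * ∑ χ ∈ prim q,
      ‖∑ n ∈ S, a n * χ (n : ZMod q)‖ ^ 2 ≤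
      C * (X + (Q : ℝ) ^ 2) * ∑ n ∈ S, ‖a n‖ ^ 2 := by
  classical
  obtain ⟨C, hC, h⟩ := mls
  refine ⟨C, hC, ?_⟩
  intro Q X hQ hX S a hS
  have hsub : S ⊆ Ico 1 (1 + X) := by
    intro n hn
    have := hS n hn
    rw [Finset.mem_Ico]
    omega
  have h1 := h Q 1 X hQ hX (fun n => if n ∈ S then a n else 0)
  have e1 : ∀ (q : ℕ) (χ : DirichletCharacter ℂ q),
      ∑ n ∈ Ico 1 (1 + X), (if n ∈ S then a n else 0) * χ (n : ZMod q) =
        ∑ n ∈ S, a n * χ (n : ZMod q) := by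
    intro q χ
    have e2 : ∀ n ∈ Ico 1 (1 + X), (if n ∈ S then a n else 0) * χ (n : ZMod q) =
        if n ∈ S then a n * χ (n : ZMod q) else 0 := by
      intro n _; split_ifs <;> simp
    rw [Finset.sum_congr rfl e2, ← Finset.sum_filter]
    congr 1
    ext n
    rw [Finset.mem_filter]
    exact ⟨fun h => h.2, fun h => ⟨hsub h, h⟩⟩
  have e3 : ∑ n ∈ Ico 1 (1 + X), ‖(if n ∈ S then a n else 0 : ℂ)‖ ^ 2 = ∑ n ∈ S, ‖a n‖ ^ 2 := by
    have e2 : ∀ n ∈ Ico 1 (1 + X), ‖(if n ∈ S then a n else 0 : ℂ)‖ ^ 2 =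
        if n ∈ S then ‖a n‖ ^ 2 else 0 := by
      intro n _; split_ifs <;> simp
    rw [Finset.sum_congr rfl e2, ← Finset.sum_filter]
    congr 1
    ext n
    rw [Finset.mem_filter]
    exact ⟨fun h => h.2, fun h => ⟨hsub h, h⟩⟩
  simp only [e1] at h1
  rw [e3] at h1
  exact h1

end Pool.Agent.Helper61.CA
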