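import Pool.Agent.Helper61.CA.St
import Pool.Agent.Helper58.CA.Cube

/-! # Project CA, step 2: the three-fold convolution -/

set_option autoImplicit false

open Finset

namespace Pool.Agent.Helper61.CA

theorem conv : Conv := by
  intro M hM S v K δ hco hv hδ hK hχ r hr
  have : NeZero M := ⟨hM.ne'⟩
  have hφ : (0 : ℝ) < M.totient := by exact_mod_cast Nat.totient_pos.mpr hM
  have hru : IsUnit (r : ZMod M) := (ZMod.isUnit_iff_coprime r M).mpr hr
  have hrinv : (r : ZMod M) * (r : ZMod M)⁻¹ = 1 := ZMod.mul_inv_of_unit _ hru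
  have hau : IsUnit ((r : ZMod M)⁻¹) := IsUnit.of_mul_eq_one _ (by rw [mul_comm]; exact hrinv)
  have hK' : ∀ a : ZMod M, IsUnit a →
      ∑ l ∈ S.filter (fun l : ℕ => (l : ZMod M) = a), v l ≤ K / M.totient := by
    intro a ha
    have h1 := hK a.val ((ZMod.isUnit_iff_coprime a.val M).mp (by rw [ZMod.natCast_zmod_val]; exact ha))
    refine le_of_eq_of_le ?_ h1
    refine Finset.sum_congr ?_ fun _ _ => rfl
    refine Finset.filter_congr fun l _ => ?_
    rw [← ZMod.natCast_eq_natCast_iff, ZMod.natCast_zmod_val]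
  have hmain := Pool.Agent.Helper58.CA.cube S v hv hco hδ hK' ∅
    (fun χ h1 _ => hχ χ h1) hau
  simp only [Finset.filter_empty, Finset.sum_empty, sub_zero] at hmain
  have h2 : ∑ t ∈ (S ×ˢ (S ×ˢ S)).filter (fun t => t.1 * t.2.1 * t.2.2 * r ≡ 1 [MOD M]),
          v t.1 * v t.2.1 * v t.2.2 =
      ∑ x ∈ (S ×ˢ S ×ˢ S) with ((x.1 * (x.2.1 * x.2.2) : ℕ) : ZMod M) = (r : ZMod M)⁻¹,
        v x.1 * (v x.2.1 * v x.2.2) := by
    refine Finset.sum_congr ?_ fun t _ => by ring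
    refine Finset.filter_congr fun t _ => ?_
    rw [← ZMod.natCast_eq_natCast_iff]
    constructor
    · intro h
      have h3 : ((t.1 * (t.2.1 * t.2.2) : ℕ) : ZMod M) * (r : ZMod M) = 1 := by
        have h6 : t.1 * (t.2.1 * t.2.2) * r = t.1 * t.2.1 * t.2.2 * r := by ring
        rw [← Nat.cast_mul, h6, h, Nat.cast_one]
      calc ((t.1 * (t.2.1 * t.2.2) : ℕ) : ZMod M)
          = ((t.1 * (t.2.1 * t.2.2) : ℕ) : ZMod M) * ((r : ZMod M) * (r : ZMod M)⁻¹) := by
            rw [hrinv, mul_one]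
        _ = (r : ZMod M)⁻¹ := by rw [← mul_assoc, h3, one_mul]
    · intro h
      have h4 : t.1 * t.2.1 * t.2.2 * r = t.1 * (t.2.1 * t.2.2) * r := by ring
      rw [h4, Nat.cast_mul, h, mul_comm, hrinv, Nat.cast_one]
  rw [h2, div_le_iff₀ hφ]
  have h5 : δ * (M.totient * (K / M.totient) * ∑ l ∈ S, v l) = δ * K * ∑ l ∈ S, v l := by
    field_simp
  rw [h5] at hmain
  linarith

end Pool.Agent.Helper61.CA
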