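import Pool.Agent.Helper61.CA.St
import Pool.Agent.Helper58.CA.Sums

/-! # CA-S2g: the degenerate triples (helper58)

`sw g Q l ≤ G u / l`, zero unless `√Q < l ≤ Q`. The third prime is always determined
modulo `M` by the other two.
-/

set_option autoImplicit false

open Finset

namespace Pool.Agent.Helper61.CA

open Pool.Agent.Helper18.BV
open Pool.Agent.Helper58.CA

/-- A bad pair. -/
def BadP (w : ℝ) (a b : ℕ) : Prop :=
  a = b ∨ a ∣ b - 1 ∨ b ∣ a - 1 ∨ ∃ q : ℕ, q.Prime ∧ w < (q : ℝ) ∧ q ∣ a - 1 ∧ q ∣ b - 1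

/-- The class condition. -/
def Rel (M r a b c : ℕ) : Prop := a * b * c * r ≡ 1 [MOD M]

theorem rel_swap23 {M r a b c : ℕ} : Rel M r a b c ↔ Rel M r a c b := by
  unfold Rel
  rw [show a * b * c * r = a * c * b * r by ring]

theorem rel_swap12 {M r a b c : ℕ} : Rel M r a b c ↔ Rel M r b a c := by
  unfold Rel
  rw [show a * b * c * r = b * a * c * r by ring]

/-- The sum over the third variable. -/
theorem third {Q : ℝ} (hQ : 1 ≤ Q) {M r a b : ℕ} (hM : 0 < M) (hMQ : (M : ℝ) ≤ Real.sqrt Q)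
    (hr : r.Coprime M) (ha : a.Coprime M) (hb : b.Coprime M) (S : Finset ℕ)
    (hS : ∀ l ∈ S, l ≤ ⌊Q⌋₊) :
    ∑ c ∈ (open Classical in S.filter (fun c => Rel M r a b c)), nu Q c ≤
      (1 + Real.log Q) / M := by
  classical
  set U := (S.filter (fun c => Rel M r a b c)).filter (fun c => nu Q c ≠ 0) with hU
  have h1 : ∑ c ∈ S.filter (fun c => Rel M r a b c), nu Q c = ∑ c ∈ U, nu Q c := by
    rw [hU, Finset.sum_filter_ne_zero]
  rw [h1]
  refine (Finset.sum_le_sum fun c _ => nu_le Q c).trans ?_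
  refine sum_class hQ hM U ?_ ?_
  · intro l hl
    rw [hU, Finset.mem_filter, Finset.mem_filter] at hl
    refine ⟨?_, hS l hl.1.1⟩
    have h2 := (nu_of_ne hl.2).1
    have h3 : (M : ℝ) ≤ l := by linarith
    exact_mod_cast h3
  · intro l hl l' hl'
    rw [hU, Finset.mem_filter, Finset.mem_filter] at hl hl'
    have h2 : a * b * l * r ≡ a * b * l' * r [MOD M] := hl.1.2.trans hl'.1.2.symm
    have h3 : (a * b * r) * l ≡ (a * b * r) * l' [MOD M] := by
      have e1 : (a * b * r) * l = a * b * l * r := by ring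
      have e2 : (a * b * r) * l' = a * b * l' * r := by ring
      rw [e1, e2]
      exact h2
    have h4 : Nat.gcd M (a * b * r) = 1 := by
      rw [Nat.gcd_comm]
      exact (Nat.Coprime.mul_left (Nat.Coprime.mul_left ha hb) hr)
    exact Nat.ModEq.cancel_left_of_coprime h4 h3

/-- The mass of the bad pairs. -/
theorem pairs {Q w : ℝ} (hQ : 4 ≤ Q) (hw : 2 ≤ w) (S : Finset ℕ) (hS : ∀ l ∈ S, 1 ≤ l ∧ l ≤ ⌊Q⌋₊) :
    ∑ a ∈ S, ∑ b ∈ S, (open Classical in if BadP w a b then nu Q a * nu Q b else 0) ≤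
      2 / Real.sqrt Q * (3 + 2 * Real.log Q) + 2 * (1 + Real.log Q) ^ 2 / w := by
  classical
  have hQ1 : 1 ≤ Q := by linarith
  have hu : 0 ≤ Real.log Q := Real.log_nonneg hQ1
  have hsq : 2 ≤ Real.sqrt Q := by
    rw [show (2 : ℝ) = Real.sqrt 4 by
      rw [show (4 : ℝ) = 2 ^ 2 by norm_num]; exact (Real.sqrt_sq (by norm_num)).symm]
    exact Real.sqrt_le_sqrt hQ
  -- sum of squares
  have hsqs : ∑ a ∈ S, nu Q a ^ 2 ≤ 2 / Real.sqrt Q := by
    have h1 : ∑ a ∈ S, nu Q a ^ 2 ≤ ∑ q ∈ Ioc ⌊Real.sqrt Q⌋₊ ⌊Q⌋₊, (1 / (q : ℝ)) ^ 2 := by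
      have h2 : ∑ a ∈ S, nu Q a ^ 2 = ∑ a ∈ S.filter (fun a => nu Q a ^ 2 ≠ 0), nu Q a ^ 2 := by
        rw [Finset.sum_filter_ne_zero]
      rw [h2]
      refine (Finset.sum_le_sum fun a _ => pow_le_pow_left₀ (nu_nonneg Q a) (nu_le Q a) 2).trans ?_
      refine Finset.sum_le_sum_of_subset_of_nonneg ?_ fun k _ _ => by positivity
      intro a ha
      rw [Finset.mem_filter] at ha
      have h3 : nu Q a ≠ 0 := fun h => ha.2 (by rw [h]; ring)
      rw [Finset.mem_Ioc]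
      refine ⟨?_, (hS a ha.1).2⟩
      exact (Nat.floor_lt (Real.sqrt_nonneg Q)).mpr (nu_of_ne h3).1
    have hf1 : 1 ≤ ⌊Real.sqrt Q⌋₊ := Nat.le_floor (by push_cast; linarith)
    refine h1.trans ((tail_sq hf1).trans ?_)
    have h4 : Real.sqrt Q / 2 ≤ (⌊Real.sqrt Q⌋₊ : ℝ) := by
      have := Nat.lt_floor_add_one (Real.sqrt Q)
      linarith
    calc 1 / (⌊Real.sqrt Q⌋₊ : ℝ) ≤ 1 / (Real.sqrt Q / 2) :=
          one_div_le_one_div_of_le (by linarith) h4
      _ = 2 / Real.sqrt Q := by rw [one_div_div]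
  -- inner sums
  have hmod : ∀ m : ℕ, 1 ≤ m → ∑ b ∈ S, (if m ∣ b - 1 then nu Q b else 0) ≤
      (1 + Real.log Q) / m := by
    intro m hm
    rw [← Finset.sum_filter]
    have h2 : ∑ b ∈ S.filter (fun b => m ∣ b - 1), nu Q b =
        ∑ b ∈ (S.filter (fun b => m ∣ b - 1)).filter (fun b => nu Q b ≠ 0), nu Q b := by
      rw [Finset.sum_filter_ne_zero]
    rw [h2]
    refine (Finset.sum_le_sum fun a _ => nu_le Q a).trans (sum_mod_one hQ1 hm _ ?_)
    intro b hb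
    rw [Finset.mem_filter, Finset.mem_filter] at hb
    refine ⟨?_, (hS b hb.1.1).2, hb.1.2⟩
    have h3 := (nu_of_ne hb.2).1
    have h4 : (2 : ℝ) ≤ b := by linarith
    exact_mod_cast h4
  -- the pointwise bound
  have hpt : ∀ a ∈ S, ∀ b ∈ S, (if BadP w a b then nu Q a * nu Q b else 0) ≤
      (if a = b then nu Q a * nu Q b else 0) + (if a ∣ b - 1 then nu Q a * nu Q b else 0) +
      (if b ∣ a - 1 then nu Q a * nu Q b else 0) +
      ∑ q ∈ Ioc ⌊w⌋₊ ⌊Q⌋₊, (if q ∣ a - 1 then nu Q a else 0) * (if q ∣ b - 1 then nu Q b else 0) := by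
    intro a ha b hb
    have hna := nu_nonneg Q a
    have hnb := nu_nonneg Q b
    have hab : 0 ≤ nu Q a * nu Q b := mul_nonneg hna hnb
    have t1 : 0 ≤ (if a = b then nu Q a * nu Q b else 0) := by split_ifs <;> simp [hab]
    have t2 : 0 ≤ (if a ∣ b - 1 then nu Q a * nu Q b else 0) := by split_ifs <;> simp [hab]
    have t3 : 0 ≤ (if b ∣ a - 1 then nu Q a * nu Q b else 0) := by split_ifs <;> simp [hab]
    have t4' : ∀ q ∈ Ioc ⌊w⌋₊ ⌊Q⌋₊, 0 ≤ (if q ∣ a - 1 then nu Q a else 0) *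
        (if q ∣ b - 1 then nu Q b else 0) := by
      intro q _
      refine mul_nonneg ?_ ?_ <;> split_ifs <;> simp [hna, hnb]
    have t4 := Finset.sum_nonneg t4'
    by_cases hbad : BadP w a b
    · rw [if_pos hbad]
      rcases hbad with h | h | h | ⟨q, hq, hwq, hqa, hqb⟩
      · rw [if_pos h] at t1 ⊢
        linarith
      · rw [if_pos h] at t2 ⊢
        linarith
      · rw [if_pos h] at t3 ⊢
        linarith
      · by_cases hz : nu Q a = 0
        · have hz2 : nu Q a * nu Q b = 0 := by rw [hz, zero_mul]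
          linarith
        · have h3 := (nu_of_ne hz).1
          have ha2 : (2 : ℝ) < a := by linarith
          have ha2' : 2 < a := by exact_mod_cast ha2
          have hqle : q ≤ a - 1 := Nat.le_of_dvd (by omega) hqa
          have hqQ : q ≤ ⌊Q⌋₊ := by
            have := (hS a ha).2
            omega
          have hmem : q ∈ Ioc ⌊w⌋₊ ⌊Q⌋₊ := by
            rw [Finset.mem_Ioc]
            exact ⟨(Nat.floor_lt (by linarith)).mpr hwq, hqQ⟩
          have h5 := Finset.single_le_sum t4' hmem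
          rw [if_pos hqa, if_pos hqb] at h5
          linarith
    · rw [if_neg hbad]
      linarith
  refine (Finset.sum_le_sum fun a ha => Finset.sum_le_sum fun b hb => hpt a ha b hb).trans ?_
  simp only [Finset.sum_add_distrib]
  -- first sum
  have s1 : ∑ a ∈ S, ∑ b ∈ S, (if a = b then nu Q a * nu Q b else 0) ≤ 2 / Real.sqrt Q := by
    refine le_trans (le_of_eq ?_) hsqs
    refine Finset.sum_congr rfl fun a ha => ?_
    rw [Finset.sum_ite_eq, if_pos ha]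
    ring
  -- second sum
  have s2 : ∑ a ∈ S, ∑ b ∈ S, (if a ∣ b - 1 then nu Q a * nu Q b else 0) ≤
      (1 + Real.log Q) * (2 / Real.sqrt Q) := by
    have h1 : ∀ a ∈ S, ∑ b ∈ S, (if a ∣ b - 1 then nu Q a * nu Q b else 0) ≤
        (1 + Real.log Q) * nu Q a ^ 2 := by
      intro a ha
      have h2 : ∑ b ∈ S, (if a ∣ b - 1 then nu Q a * nu Q b else 0) =
          nu Q a * ∑ b ∈ S, (if a ∣ b - 1 then nu Q b else 0) := by
        rw [Finset.mul_sum]
        refine Finset.sum_congr rfl fun b _ => ?_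
        split_ifs <;> simp
      rw [h2]
      by_cases hz : nu Q a = 0
      · rw [hz]
        simp
      · have h3 : nu Q a = 1 / (a : ℝ) := by
          have := nu_of_ne hz
          unfold nu
          exact if_pos this
        calc nu Q a * ∑ b ∈ S, (if a ∣ b - 1 then nu Q b else 0)
            ≤ nu Q a * ((1 + Real.log Q) / a) :=
              mul_le_mul_of_nonneg_left (hmod a (hS a ha).1) (nu_nonneg Q a)
          _ = (1 + Real.log Q) * nu Q a ^ 2 := by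
              rw [h3]
              ring
    calc ∑ a ∈ S, ∑ b ∈ S, (if a ∣ b - 1 then nu Q a * nu Q b else 0)
        ≤ ∑ a ∈ S, (1 + Real.log Q) * nu Q a ^ 2 := Finset.sum_le_sum h1
      _ = (1 + Real.log Q) * ∑ a ∈ S, nu Q a ^ 2 := by rw [Finset.mul_sum]
      _ ≤ (1 + Real.log Q) * (2 / Real.sqrt Q) :=
          mul_le_mul_of_nonneg_left hsqs (by linarith)
  have s3 : ∑ a ∈ S, ∑ b ∈ S, (if b ∣ a - 1 then nu Q a * nu Q b else 0) ≤
      (1 + Real.log Q) * (2 / Real.sqrt Q) := by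
    rw [Finset.sum_comm]
    refine le_trans (le_of_eq ?_) s2
    refine Finset.sum_congr rfl fun a _ => Finset.sum_congr rfl fun b _ => ?_
    rw [mul_comm]
  have s4 : ∑ a ∈ S, ∑ b ∈ S, ∑ q ∈ Ioc ⌊w⌋₊ ⌊Q⌋₊, (if q ∣ a - 1 then nu Q a else 0) *
      (if q ∣ b - 1 then nu Q b else 0) ≤ 2 * (1 + Real.log Q) ^ 2 / w := by
    have h1 : ∑ a ∈ S, ∑ b ∈ S, ∑ q ∈ Ioc ⌊w⌋₊ ⌊Q⌋₊, (if q ∣ a - 1 then nu Q a else 0) *
      (if q ∣ b - 1 then nu Q b else 0) =
        ∑ q ∈ Ioc ⌊w⌋₊ ⌊Q⌋₊, (∑ a ∈ S, (if q ∣ a - 1 then nu Q a else 0)) *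
          (∑ b ∈ S, (if q ∣ b - 1 then nu Q b else 0)) := by
      have h2 : ∀ a ∈ S, ∑ b ∈ S, ∑ q ∈ Ioc ⌊w⌋₊ ⌊Q⌋₊, (if q ∣ a - 1 then nu Q a else 0) *
          (if q ∣ b - 1 then nu Q b else 0) = ∑ q ∈ Ioc ⌊w⌋₊ ⌊Q⌋₊, ∑ b ∈ S,
          (if q ∣ a - 1 then nu Q a else 0) * (if q ∣ b - 1 then nu Q b else 0) :=
        fun a _ => Finset.sum_comm
      rw [Finset.sum_congr rfl h2, Finset.sum_comm]
      refine Finset.sum_congr rfl fun q _ => ?_
      rw [Finset.sum_mul_sum]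
    rw [h1]
    have h3 : ∀ q ∈ Ioc ⌊w⌋₊ ⌊Q⌋₊, (∑ a ∈ S, (if q ∣ a - 1 then nu Q a else 0)) *
          (∑ b ∈ S, (if q ∣ b - 1 then nu Q b else 0)) ≤
        (1 + Real.log Q) ^ 2 * (1 / (q : ℝ)) ^ 2 := by
      intro q hq
      rw [Finset.mem_Ioc] at hq
      have hq1 : 1 ≤ q := by omega
      have h4 := hmod q hq1
      have h5 : 0 ≤ ∑ a ∈ S, (if q ∣ a - 1 then nu Q a else 0) :=
        Finset.sum_nonneg fun a _ => by split_ifs <;> simp [nu_nonneg]
      calc (∑ a ∈ S, (if q ∣ a - 1 then nu Q a else 0)) *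
          (∑ b ∈ S, (if q ∣ b - 1 then nu Q b else 0))
          ≤ ((1 + Real.log Q) / q) * ((1 + Real.log Q) / q) :=
            mul_le_mul h4 h4 h5 (by positivity)
        _ = (1 + Real.log Q) ^ 2 * (1 / (q : ℝ)) ^ 2 := by ring
    refine (Finset.sum_le_sum h3).trans ?_
    rw [← Finset.mul_sum]
    have hf1 : 1 ≤ ⌊w⌋₊ := Nat.le_floor (by push_cast; linarith)
    have h6 : ∑ q ∈ Ioc ⌊w⌋₊ ⌊Q⌋₊, (1 / (q : ℝ)) ^ 2 ≤ 2 / w := by
      refine (tail_sq hf1).trans ?_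
      have h4 : w / 2 ≤ (⌊w⌋₊ : ℝ) := by
        have := Nat.lt_floor_add_one w
        linarith
      calc 1 / (⌊w⌋₊ : ℝ) ≤ 1 / (w / 2) :=
            one_div_le_one_div_of_le (by linarith) h4
        _ = 2 / w := by rw [one_div_div]
    calc (1 + Real.log Q) ^ 2 * ∑ q ∈ Ioc ⌊w⌋₊ ⌊Q⌋₊, (1 / (q : ℝ)) ^ 2
        ≤ (1 + Real.log Q) ^ 2 * (2 / w) := mul_le_mul_of_nonneg_left h6 (by positivity)
      _ = 2 * (1 + Real.log Q) ^ 2 / w := by ring
  have e1 : 2 / Real.sqrt Q * (3 + 2 * Real.log Q) = 2 / Real.sqrt Q +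
      (1 + Real.log Q) * (2 / Real.sqrt Q) + (1 + Real.log Q) * (2 / Real.sqrt Q) := by ring
  rw [e1]
  linarith

/-- The mass of the related triples whose first two members form a bad pair. -/
noncomputable def ZI (g : ℝ → ℝ) (Q w : ℝ) (M r a b c : ℕ) : ℝ := by
  classical
  exact if Rel M r a b c ∧ BadP w a b then sw g Q a * sw g Q b * sw g Q c else 0

theorem ZI_nonneg {g : ℝ → ℝ} (hg : IsWt g) (Q w : ℝ) (M r a b c : ℕ) :
    0 ≤ ZI g Q w M r a b c := by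
  unfold ZI
  split_ifs
  · exact mul_nonneg (mul_nonneg (sw_nonneg hg Q a) (sw_nonneg hg Q b)) (sw_nonneg hg Q c)
  · exact le_rfl

theorem ZI_sum {g : ℝ → ℝ} (hg : IsWt g) {G Q w : ℝ} (hG : 0 < G)
    (hsw : ∀ l : ℕ, sw g Q l ≤ G * Real.log Q * nu Q l) (hQ : 4 ≤ Q) (hw : 2 ≤ w) {M r : ℕ}
    (hM : 0 < M) (hMQ : (M : ℝ) ≤ Real.sqrt Q) (hr : r.Coprime M) (S : Finset ℕ)
    (hS : ∀ l ∈ S, 1 ≤ l ∧ l ≤ ⌊Q⌋₊ ∧ l.Coprime M) :
    ∑ a ∈ S, ∑ b ∈ S, ∑ c ∈ S, ZI g Q w M r a b c ≤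
      (G * Real.log Q) ^ 3 * ((1 + Real.log Q) / M) *
        (2 / Real.sqrt Q * (3 + 2 * Real.log Q) + 2 * (1 + Real.log Q) ^ 2 / w) := by
  classical
  have hQ1 : 1 ≤ Q := by linarith
  have hu : 0 ≤ Real.log Q := Real.log_nonneg hQ1
  have hGu : 0 ≤ G * Real.log Q := mul_nonneg hG.le hu
  have hM' : (0 : ℝ) < M := by exact_mod_cast hM
  have h1 : ∀ a ∈ S, ∀ b ∈ S, ∑ c ∈ S, ZI g Q w M r a b c ≤
      (G * Real.log Q) ^ 3 * ((1 + Real.log Q) / M) *
        (if BadP w a b then nu Q a * nu Q b else 0) := by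
    intro a ha b hb
    by_cases hbad : BadP w a b
    · rw [if_pos hbad]
      have h2 : ∑ c ∈ S, ZI g Q w M r a b c =
          sw g Q a * sw g Q b * ∑ c ∈ S.filter (fun c => Rel M r a b c), sw g Q c := by
        rw [Finset.sum_filter, Finset.mul_sum]
        refine Finset.sum_congr rfl fun c _ => ?_
        unfold ZI
        by_cases hR : Rel M r a b c
        · rw [if_pos ⟨hR, hbad⟩, if_pos hR]
        · rw [if_neg (fun h => hR h.1), if_neg hR, mul_zero]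
      rw [h2]
      have h3 : ∑ c ∈ S.filter (fun c => Rel M r a b c), sw g Q c ≤
          (G * Real.log Q) * ((1 + Real.log Q) / M) := by
        calc ∑ c ∈ S.filter (fun c => Rel M r a b c), sw g Q c
            ≤ ∑ c ∈ S.filter (fun c => Rel M r a b c), G * Real.log Q * nu Q c :=
              Finset.sum_le_sum fun c _ => hsw c
          _ = (G * Real.log Q) * ∑ c ∈ S.filter (fun c => Rel M r a b c), nu Q c := by
              rw [Finset.mul_sum]
          _ ≤ (G * Real.log Q) * ((1 + Real.log Q) / M) := by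
              refine mul_le_mul_of_nonneg_left ?_ hGu
              exact third hQ1 hM hMQ hr (hS a ha).2.2 (hS b hb).2.2 S fun l hl => (hS l hl).2.1
      have h4 : 0 ≤ ∑ c ∈ S.filter (fun c => Rel M r a b c), sw g Q c :=
        Finset.sum_nonneg fun c _ => sw_nonneg hg Q c
      have h5 : sw g Q a * sw g Q b ≤ (G * Real.log Q * nu Q a) * (G * Real.log Q * nu Q b) :=
        mul_le_mul (hsw a) (hsw b) (sw_nonneg hg Q b) (mul_nonneg hGu (nu_nonneg Q a))
      calc sw g Q a * sw g Q b * ∑ c ∈ S.filter (fun c => Rel M r a b c), sw g Q c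
          ≤ ((G * Real.log Q * nu Q a) * (G * Real.log Q * nu Q b)) *
              ((G * Real.log Q) * ((1 + Real.log Q) / M)) := by
            refine mul_le_mul h5 h3 h4 ?_
            exact mul_nonneg (mul_nonneg hGu (nu_nonneg Q a)) (mul_nonneg hGu (nu_nonneg Q b))
        _ = (G * Real.log Q) ^ 3 * ((1 + Real.log Q) / M) * (nu Q a * nu Q b) := by ring
    · rw [if_neg hbad, mul_zero]
      refine le_of_eq (Finset.sum_eq_zero fun c _ => ?_)
      unfold ZI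
      exact if_neg fun h => hbad h.2
  have h2 := pairs hQ hw S fun l hl => ⟨(hS l hl).1, (hS l hl).2.1⟩
  calc ∑ a ∈ S, ∑ b ∈ S, ∑ c ∈ S, ZI g Q w M r a b c
      ≤ ∑ a ∈ S, ∑ b ∈ S, (G * Real.log Q) ^ 3 * ((1 + Real.log Q) / M) *
        (if BadP w a b then nu Q a * nu Q b else 0) :=
        Finset.sum_le_sum fun a ha => Finset.sum_le_sum fun b hb => h1 a ha b hb
    _ = (G * Real.log Q) ^ 3 * ((1 + Real.log Q) / M) *
        ∑ a ∈ S, ∑ b ∈ S, (if BadP w a b then nu Q a * nu Q b else 0) := by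
        rw [Finset.mul_sum]
        refine Finset.sum_congr rfl fun a _ => ?_
        rw [Finset.mul_sum]
    _ ≤ _ := mul_le_mul_of_nonneg_left h2
        (mul_nonneg (pow_nonneg hGu 3) (div_nonneg (by linarith) hM'.le))

theorem degen : Degen := by
  classical
  intro g hg κ₂ hκ₂ hκ₂1
  obtain ⟨G, hG, hsw⟩ := sw_le hg
  obtain ⟨X1, hX13, hX1⟩ := beats hκ₂ (324 * G ^ 3) 7
  have h2 : Filter.Tendsto (fun Q : ℝ => Real.log Q ^ (1 - κ₂)) Filter.atTop Filter.atTop :=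
    (tendsto_rpow_atTop (by linarith)).comp Real.tendsto_log_atTop
  obtain ⟨X2, hX2⟩ := Filter.eventually_atTop.mp (h2.eventually_ge_atTop 2)
  refine ⟨max (max X1 X2) 4, le_trans (by norm_num) (le_max_right _ _), ?_⟩
  intro Q hQ M r hM hMQ hr S hS T hT
  have hQ4 : 4 ≤ Q := le_trans (le_max_right _ _) hQ
  have hQ1 : 1 ≤ Q := by linarith
  have hb := hX1 Q (le_trans (le_trans (le_max_left _ _) (le_max_left _ _)) hQ)
  have hp := hX2 Q (le_trans (le_trans (le_max_right _ _) (le_max_left _ _)) hQ)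
  set u := Real.log Q with hu
  have hu1 : 1 ≤ u := by
    rw [hu, Real.le_log_iff_exp_le (by linarith)]
    have := Real.exp_one_lt_d9
    linarith
  have hu0 : 0 < u := by linarith
  set w := ww κ₂ Q with hw
  have hwe : w = Real.exp (u ^ κ₂) := rfl
  have hw2 : 2 ≤ w := by
    have h3 : (1 : ℝ) ≤ u ^ κ₂ := Real.one_le_rpow hu1 hκ₂.le
    have h4 := Real.add_one_le_exp (u ^ κ₂)
    rw [hwe]
    linarith
  have hw0 : 0 < w := by linarith
  -- w ≤ √Q
  have hwQ : w ≤ Real.sqrt Q := by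
    have h3 : u ^ κ₂ ≤ u / 2 := by
      have h4 : u ^ κ₂ * u ^ (1 - κ₂) = u := by
        rw [← Real.rpow_add hu0]
        have : κ₂ + (1 - κ₂) = 1 := by ring
        rw [this, Real.rpow_one]
      have h5 : 0 < u ^ κ₂ := Real.rpow_pos_of_pos hu0 _
      nlinarith
    have h4 : Real.sqrt Q = Real.exp (u / 2) := by
      have h5 : Real.exp (u / 2) ^ 2 = Q := by
        rw [← Real.exp_nat_mul]
        have : ((2 : ℕ) : ℝ) * (u / 2) = u := by push_cast; ring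
        rw [this, hu, Real.exp_log (by linarith)]
      rw [← h5, Real.sqrt_sq (Real.exp_pos _).le]
    rw [hwe, h4]
    exact Real.exp_le_exp.mpr h3
  have hMs : (M : ℝ) ≤ Real.sqrt Q := by
    rw [Real.sqrt_eq_rpow]
    exact hMQ.trans (Real.rpow_le_rpow_of_exponent_le hQ1 (by norm_num))
  have hM' : (0 : ℝ) < M := by exact_mod_cast hM
  have hS' : ∀ l ∈ S, 1 ≤ l ∧ l ≤ ⌊Q⌋₊ ∧ l.Coprime M := fun l hl =>
    ⟨(hS l hl).1.one_lt.le, (hS l hl).2.1, (hS l hl).2.2⟩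
  have hZ := ZI_sum hg hG (fun l => hsw Q (by linarith) l) hQ4 hw2 hM hMs hr S hS'
  -- reduce to Z
  have hW : ∀ a b c : ℕ, 0 ≤ sw g Q a * sw g Q b * sw g Q c := fun a b c =>
    mul_nonneg (mul_nonneg (sw_nonneg hg Q a) (sw_nonneg hg Q b)) (sw_nonneg hg Q c)
  have hTS : T ⊆ S ×ˢ (S ×ˢ S) := by
    intro t ht
    obtain ⟨h3, h4, h5, _⟩ := hT t ht
    rw [Finset.mem_product, Finset.mem_product]
    exact ⟨h3, h4, h5⟩
  have hpt : ∀ t ∈ T, sw g Q t.1 * sw g Q t.2.1 * sw g Q t.2.2 ≤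
      ZI g Q w M r t.1 t.2.1 t.2.2 + ZI g Q w M r t.1 t.2.2 t.2.1 +
        ZI g Q w M r t.2.1 t.2.2 t.1 := by
    intro t ht
    obtain ⟨_, _, _, hcl, hbad⟩ := hT t ht
    have n1 := ZI_nonneg hg Q w M r t.1 t.2.1 t.2.2
    have n2 := ZI_nonneg hg Q w M r t.1 t.2.2 t.2.1
    have n3 := ZI_nonneg hg Q w M r t.2.1 t.2.2 t.1
    have r1 : Rel M r t.1 t.2.1 t.2.2 := hcl
    have r2 : Rel M r t.1 t.2.2 t.2.1 := rel_swap23.mp r1
    have r3 : Rel M r t.2.1 t.2.2 t.1 := rel_swap23.mp (rel_swap12.mp r1)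
    have key : BadP w t.1 t.2.1 ∨ BadP w t.1 t.2.2 ∨ BadP w t.2.1 t.2.2 := by
      unfold BadP
      rcases hbad with h | h | h | h | h | h | h | h | h | ⟨q, hq, hwq, h | h | h⟩
      · exact Or.inl (Or.inl h)
      · exact Or.inr (Or.inl (Or.inl h))
      · exact Or.inr (Or.inr (Or.inl h))
      · exact Or.inl (Or.inr (Or.inl h))
      · exact Or.inr (Or.inl (Or.inr (Or.inl h)))
      · exact Or.inl (Or.inr (Or.inr (Or.inl h)))
      · exact Or.inr (Or.inr (Or.inr (Or.inl h)))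
      · exact Or.inr (Or.inl (Or.inr (Or.inr (Or.inl h))))
      · exact Or.inr (Or.inr (Or.inr (Or.inr (Or.inl h))))
      · exact Or.inl (Or.inr (Or.inr (Or.inr ⟨q, hq, hwq, h.1, h.2⟩)))
      · exact Or.inr (Or.inl (Or.inr (Or.inr (Or.inr ⟨q, hq, hwq, h.1, h.2⟩))))
      · exact Or.inr (Or.inr (Or.inr (Or.inr (Or.inr ⟨q, hq, hwq, h.1, h.2⟩))))
    rcases key with h | h | h
    · have e1 : ZI g Q w M r t.1 t.2.1 t.2.2 = sw g Q t.1 * sw g Q t.2.1 * sw g Q t.2.2 := by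
        unfold ZI
        exact if_pos ⟨r1, h⟩
      linarith
    · have e1 : ZI g Q w M r t.1 t.2.2 t.2.1 = sw g Q t.1 * sw g Q t.2.2 * sw g Q t.2.1 := by
        unfold ZI
        exact if_pos ⟨r2, h⟩
      have e2 : sw g Q t.1 * sw g Q t.2.2 * sw g Q t.2.1 =
          sw g Q t.1 * sw g Q t.2.1 * sw g Q t.2.2 := by ring
      linarith
    · have e1 : ZI g Q w M r t.2.1 t.2.2 t.1 = sw g Q t.2.1 * sw g Q t.2.2 * sw g Q t.1 := by
        unfold ZI
        exact if_pos ⟨r3, h⟩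
      have e2 : sw g Q t.2.1 * sw g Q t.2.2 * sw g Q t.1 =
          sw g Q t.1 * sw g Q t.2.1 * sw g Q t.2.2 := by ring
      linarith
  have hsum : ∑ t ∈ T, sw g Q t.1 * sw g Q t.2.1 * sw g Q t.2.2 ≤
      3 * ∑ a ∈ S, ∑ b ∈ S, ∑ c ∈ S, ZI g Q w M r a b c := by
    refine (Finset.sum_le_sum hpt).trans ?_
    have hnn : ∀ t ∈ S ×ˢ (S ×ˢ S), t ∉ T → 0 ≤ ZI g Q w M r t.1 t.2.1 t.2.2 +
        ZI g Q w M r t.1 t.2.2 t.2.1 + ZI g Q w M r t.2.1 t.2.2 t.1 := fun t _ _ =>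
      add_nonneg (add_nonneg (ZI_nonneg hg Q w M r _ _ _) (ZI_nonneg hg Q w M r _ _ _))
        (ZI_nonneg hg Q w M r _ _ _)
    refine (Finset.sum_le_sum_of_subset_of_nonneg hTS hnn).trans ?_
    rw [Finset.sum_product]
    have e1 : ∀ a ∈ S, ∑ p ∈ S ×ˢ S, (ZI g Q w M r (a, p).1 (a, p).2.1 (a, p).2.2 +
        ZI g Q w M r (a, p).1 (a, p).2.2 (a, p).2.1 +
        ZI g Q w M r (a, p).2.1 (a, p).2.2 (a, p).1) =
        ∑ b ∈ S, ∑ c ∈ S, ZI g Q w M r a b c + ∑ b ∈ S, ∑ c ∈ S, ZI g Q w M r a c b +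
          ∑ b ∈ S, ∑ c ∈ S, ZI g Q w M r b c a := by
      intro a _
      rw [Finset.sum_product]
      simp only [Finset.sum_add_distrib]
    rw [Finset.sum_congr rfl e1, Finset.sum_add_distrib, Finset.sum_add_distrib]
    have e2 : ∑ a ∈ S, ∑ b ∈ S, ∑ c ∈ S, ZI g Q w M r a c b =
        ∑ a ∈ S, ∑ b ∈ S, ∑ c ∈ S, ZI g Q w M r a b c := by
      refine Finset.sum_congr rfl fun a _ => ?_
      rw [Finset.sum_comm]
    have e3 : ∑ a ∈ S, ∑ b ∈ S, ∑ c ∈ S, ZI g Q w M r b c a =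
        ∑ a ∈ S, ∑ b ∈ S, ∑ c ∈ S, ZI g Q w M r a b c := by
      rw [Finset.sum_comm]
      refine Finset.sum_congr rfl fun b _ => ?_
      rw [Finset.sum_comm]
    rw [e2, e3]
    exact le_of_eq (by ring)
  refine hsum.trans ?_
  -- numerical part
  have hsqrt : 0 < Real.sqrt Q := by linarith
  have b1 : 2 / Real.sqrt Q * (3 + 2 * u) + 2 * (1 + u) ^ 2 / w ≤ 18 * u ^ 2 / w := by
    have c1 : 2 / Real.sqrt Q * (3 + 2 * u) ≤ 2 / w * (5 * u ^ 2) := by
      refine mul_le_mul (div_le_div_of_nonneg_left (by norm_num) hw0 hwQ) ?_ (by linarith)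
        (by positivity)
      nlinarith
    have c2 : 2 * (1 + u) ^ 2 / w ≤ 8 * u ^ 2 / w := by
      refine div_le_div_of_nonneg_right ?_ hw0.le
      nlinarith
    calc 2 / Real.sqrt Q * (3 + 2 * u) + 2 * (1 + u) ^ 2 / w
        ≤ 2 / w * (5 * u ^ 2) + 8 * u ^ 2 / w := add_le_add c1 c2
      _ = 18 * u ^ 2 / w := by ring
  have b2 : (1 + u) / M ≤ 2 * u / M := div_le_div_of_nonneg_right (by linarith) hM'.le
  have b3 : 3 * ∑ a ∈ S, ∑ b ∈ S, ∑ c ∈ S, ZI g Q w M r a b c ≤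
      3 * ((G * u) ^ 3 * (2 * u / M) * (18 * u ^ 2 / w)) := by
    refine mul_le_mul_of_nonneg_left (hZ.trans ?_) (by norm_num)
    have hGu : 0 ≤ (G * u) ^ 3 := by positivity
    refine mul_le_mul (mul_le_mul_of_nonneg_left b2 hGu) b1 ?_ (by positivity)
    positivity
  refine b3.trans ?_
  have b4 : 3 * ((G * u) ^ 3 * (2 * u / M) * (18 * u ^ 2 / w)) =
      1 / M * ((324 * G ^ 3 * u ^ 7 / w) / (3 * u)) := by
    field_simp
    ring
  rw [b4]
  refine mul_le_mul_of_nonneg_left ?_ (by positivity)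
  have b5 : 324 * G ^ 3 * u ^ 7 / w ≤ 1 := by
    have b6 : u ^ (7 : ℝ) = u ^ 7 := by
      rw [← Real.rpow_natCast]
      norm_num
    rw [b6, Real.exp_neg, ← hwe] at hb
    rw [div_eq_mul_inv]
    exact hb
  calc (324 * G ^ 3 * u ^ 7 / w) / (3 * u) ≤ 1 / (3 * u) :=
        div_le_div_of_nonneg_right b5 (by linarith)
    _ ≤ 1 / u := one_div_le_one_div_of_le hu0 (by linarith)

end Pool.Agent.Helper61.CA
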