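import Pool.Agent.Helper61.CA.UBd
import Pool.Agent.Helper61.CA.MLS
import Pool.Agent.Helper18.BV.WtLemmas

/-!
# CA-S2d: removal of the bad characters

`u = log Q`, `y = u^κ`, `w = exp (u^κ₂)`, `Z = ⌊u^E⌋`, `M₀ = modl y Z ∅`, `L = u^(1-κ₂) log u`,
`F = F0 ≥ c L` (`LB`), `f(a) = fa M₀ a ≤ C L / M₀.totient` (`UB` or `ubd` with `D = M₀`).
1. Parseval (`char_parseval` in `MLS.lean`): for the primes `l` with `sw g Q l ≠ 0` (`l > √Q > y`,
coprime to `M₀`), `∑_{χ mod M₀} ‖fh χ‖² = M₀.totient ∑_a f(a)² ≤ C L * ∑_a f(a) ≤ C L F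
≤ (C/c) F²`. So at most `B := ⌈C / (c c₀²)⌉` characters `χ` mod `M₀` have `‖fh χ‖ > c₀ F`.
2. Let `χ ≠ 1` mod `M₀` be one of them, `f` its conductor. If all primes of `f` are `< q₀`, then
`f ≤ ∏_{q<q₀} q^(log_q Z) ≤ Z^q₀ ≤ u^(E q₀) =: u^C₁`, and with the character `χ'` mod `f` inducing
`χ` (`DirichletCharacter` API: `conductor`, `FactorsThrough`, `changeLevel`; `χ' ≠ 1`),
`fh χ = ∑_{l} sw l χ'(l) = ∑_{a mod f} χ'(a) (fa f a - F / f.totient)`, so
`‖fh χ‖ ≤ f * C' / u^A ≤ C'/u` for `A = C₁ + 1` by `PS`, which is `≤ c₀ F` for large `Q`. So `f` has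
a prime factor `q_χ ≥ q₀`; `f ∣ M₀`, so `q_χ ≤ y`. Choose one for each of the `≤ B` bad `χ ≠ 1`, and
let `R` be the set of the `q_χ`.
3. Let `χ ≠ 1` mod `M := modl y Z R`, `M ∣ M₀`. The character `χ₀ := changeLevel χ` mod `M₀` is
`≠ 1`, its conductor divides `M`, which is prime to all elements of `R`; so `χ₀` is not bad, and
`fh χ₀ = fh χ` because the `l` with `sw g Q l ≠ 0` are coprime to `M₀`.
-/

set_option autoImplicit false

open Finset

namespace Pool.Agent.Helper61.CA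

open Pool.Agent.Helper18.BV

theorem drop_log_le {u : ℝ} (hu : 0 < u) : Real.log u ≤ u / 2 := by
  rw [← Real.log_exp (u / 2)]
  refine Real.log_le_log hu ?_
  have h := Real.quadratic_le_exp_of_nonneg (x := u / 2) (by linarith)
  nlinarith [sq_nonneg (u - 2)]

theorem drop_sw_ne {g : ℝ → ℝ} (hg : IsWt g) {κ Q : ℝ} (hκ : κ < 1) (hQ : 3 ≤ Q) {l : ℕ}
    (hl : sw g Q l ≠ 0) : yy κ Q < (l : ℝ) := by
  by_contra hle
  rw [not_lt] at hle
  apply hl
  have hu : 1 ≤ Real.log Q := by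
    rw [← Real.log_exp 1]
    refine Real.log_le_log (Real.exp_pos 1) ?_
    have := Real.exp_one_lt_d9
    linarith
  have hu0 : 0 < Real.log Q := by linarith
  unfold sw wt
  rcases Nat.eq_zero_or_pos l with rfl | hl0
  · simp
  have hl' : (0 : ℝ) < l := by exact_mod_cast hl0
  have h1 : yy κ Q ≤ Real.log Q := by
    unfold yy
    calc Real.log Q ^ κ ≤ Real.log Q ^ (1 : ℝ) := Real.rpow_le_rpow_of_exponent_le hu hκ.le
      _ = Real.log Q := Real.rpow_one _
  have h2 : Real.log l ≤ Real.log Q / 2 :=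
    (Real.log_le_log hl' (hle.trans h1)).trans (drop_log_le hu0)
  have h3 : g (Real.log l / Real.log Q) = 0 := by
    apply hg.zero_of_le
    rw [div_le_iff₀ hu0]
    linarith
  rw [h3]
  simp

theorem drop_fact (y : ℝ) (Z : ℕ) (R : Finset ℕ) (q : ℕ) :
    (modl y Z R).factorization q ≤ Nat.log q Z := by
  classical
  unfold modl
  rw [Nat.factorization_prod]
  · rw [Finset.sum_apply']
    have h : ∀ x ∈ (Icc 1 ⌊y⌋₊).filter (fun q => q.Prime ∧ q ∉ R),
        (x ^ Nat.log x Z).factorization q = if x = q then Nat.log q Z else 0 := by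
      intro x hx
      have hx' : x.Prime := (Finset.mem_filter.1 hx).2.1
      rw [hx'.factorization_pow, Finsupp.single_apply]
      split_ifs with h
      · rw [h]
      · rfl
    rw [Finset.sum_congr rfl h, Finset.sum_ite_eq']
    split_ifs
    · exact le_rfl
    · exact Nat.zero_le _
  · intro x hx
    have hx' : x.Prime := (Finset.mem_filter.1 hx).2.1
    exact pow_ne_zero _ hx'.ne_zero

theorem drop_bd {y : ℝ} {Z : ℕ} (hZ : Z ≠ 0) {f q₀ : ℕ} (hM : modl y Z ∅ ≠ 0)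
    (hf : f ∣ modl y Z ∅) (hq : ∀ q : ℕ, q.Prime → q ∣ f → q < q₀) : f ≤ Z ^ q₀ := by
  have hf0 : f ≠ 0 := fun h => hM (Nat.eq_zero_of_zero_dvd (h ▸ hf))
  have h1 : ∀ q ∈ f.primeFactors, q ^ f.factorization q ≤ Z := by
    intro q hqf
    have hqp : q.Prime := Nat.prime_of_mem_primeFactors hqf
    have h2 : f.factorization q ≤ Nat.log q Z :=
      ((Nat.factorization_le_iff_dvd hf0 hM).2 hf q).trans (drop_fact y Z ∅ q)
    exact (Nat.pow_le_pow_right hqp.pos h2).trans (Nat.pow_log_le_self q hZ)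
  calc f = ∏ q ∈ f.primeFactors, q ^ f.factorization q :=
        (Nat.factorization_prod_pow_eq_self hf0).symm
    _ ≤ ∏ q ∈ f.primeFactors, Z := Finset.prod_le_prod' h1
    _ = Z ^ f.primeFactors.card := by rw [Finset.prod_const]
    _ ≤ Z ^ q₀ := by
        refine Nat.pow_le_pow_right (Nat.pos_of_ne_zero hZ) ?_
        have h3 : f.primeFactors ⊆ range q₀ := fun q hqf =>
          Finset.mem_range.2 (hq q (Nat.prime_of_mem_primeFactors hqf)
            (Nat.dvd_of_mem_primeFactors hqf))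
        calc f.primeFactors.card ≤ (range q₀).card := Finset.card_le_card h3
          _ = q₀ := Finset.card_range q₀

theorem drop_filter (S : Finset ℕ) {D : ℕ} [NeZero D] (a : ZMod D) :
    S.filter (fun l => l ≡ a.val [MOD D]) = S.filter (fun l : ℕ => (l : ZMod D) = a) := by
  refine Finset.filter_congr fun l _ => ?_
  rw [← ZMod.natCast_eq_natCast_iff, ZMod.natCast_zmod_val]

theorem drop_fiber (g : ℝ → ℝ) (Q y w : ℝ) {D : ℕ} [NeZero D] (ψ : DirichletCharacter ℂ D) :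
    fh g Q y w ψ = ∑ a : ZMod D, ψ a * ((fa g Q y w D a.val : ℝ) : ℂ) := by
  unfold fh fa
  rw [← Finset.sum_fiberwise (semi Q y w) (fun l : ℕ => (l : ZMod D))]
  refine Finset.sum_congr rfl fun a _ => ?_
  rw [drop_filter]
  push_cast
  rw [Finset.mul_sum]
  refine Finset.sum_congr rfl fun l hl => ?_
  rw [(Finset.mem_filter.1 hl).2]
  ring

theorem drop_sum (g : ℝ → ℝ) (Q y w : ℝ) {D : ℕ} [NeZero D] :
    ∑ a : ZMod D, fa g Q y w D a.val = F0 g Q y w := by
  unfold F0 fa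
  rw [← Finset.sum_fiberwise (semi Q y w) (fun l : ℕ => (l : ZMod D))]
  refine Finset.sum_congr rfl fun a _ => ?_
  rw [drop_filter]

theorem drop_sw_nonneg {g : ℝ → ℝ} (hg : IsWt g) (Q : ℝ) (l : ℕ) : 0 ≤ sw g Q l :=
  mul_nonneg (Real.log_natCast_nonneg l) (wt_nonneg hg Q l)

theorem drop_fa_nonneg {g : ℝ → ℝ} (hg : IsWt g) (Q y w : ℝ) (D a : ℕ) :
    0 ≤ fa g Q y w D a :=
  Finset.sum_nonneg fun l _ => drop_sw_nonneg hg Q l

theorem drop_parseval {g : ℝ → ℝ} (hg : IsWt g) {Q y w K : ℝ} {M : ℕ} [NeZero M]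
    (hK : ∀ a : ℕ, a.Coprime M → fa g Q y w M a ≤ K / M.totient) (hK0 : 0 ≤ K) :
    ∑ χ : DirichletCharacter ℂ M, ‖fh g Q y w χ‖ ^ 2 ≤ K * F0 g Q y w := by
  have hφ : (0 : ℝ) < M.totient := by
    exact_mod_cast Nat.totient_pos.2 (Nat.pos_of_ne_zero (NeZero.ne M))
  have h1 := char_parseval (q := M) (fun a => ((fa g Q y w M a.val : ℝ) : ℂ))
  have h2 : ∑ χ : DirichletCharacter ℂ M, ‖fh g Q y w χ‖ ^ 2 =
      ∑ χ : DirichletCharacter ℂ M, ‖∑ a, χ a * ((fa g Q y w M a.val : ℝ) : ℂ)‖ ^ 2 :=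
    Finset.sum_congr rfl fun χ _ => by rw [drop_fiber]
  rw [h2, h1, ← drop_sum g Q y w (D := M), Finset.mul_sum]
  refine Finset.sum_le_sum fun a _ => ?_
  have h0 := drop_fa_nonneg hg Q y w M a.val
  rw [Complex.norm_real, Real.norm_of_nonneg h0]
  split_ifs with ha
  · have h3 := hK a.val ((ZMod.isUnit_iff_coprime a.val M).mp (by
      rw [ZMod.natCast_zmod_val]; exact ha))
    rw [le_div_iff₀ hφ] at h3
    nlinarith
  · rw [zero_mul]
    exact mul_nonneg hK0 h0

/-- The twisted mass for a nontrivial character of small modulus. -/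
theorem drop_small {g : ℝ → ℝ} {Q y w δ : ℝ} {f : ℕ} [NeZero f]
    (ψ : DirichletCharacter ℂ f) (hψ : ψ ≠ 1) (hδ : 0 ≤ δ)
    (h : ∀ a : ℕ, a.Coprime f → |fa g Q y w f a - F0 g Q y w / f.totient| ≤ δ) :
    ‖fh g Q y w ψ‖ ≤ f * δ := by
  have h1 : fh g Q y w ψ = ∑ a : ZMod f, ψ a *
      ((fa g Q y w f a.val - F0 g Q y w / f.totient : ℝ) : ℂ) := by
    rw [drop_fiber]
    have h2 : ∑ a : ZMod f, ψ a * ((F0 g Q y w / f.totient : ℝ) : ℂ) = 0 := by
      rw [← Finset.sum_mul, MulChar.sum_eq_zero_of_ne_one hψ, zero_mul]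
    rw [← sub_zero (∑ a : ZMod f, ψ a * ((fa g Q y w f a.val : ℝ) : ℂ)), ← h2,
      ← Finset.sum_sub_distrib]
    refine Finset.sum_congr rfl fun a _ => ?_
    push_cast
    ring
  rw [h1]
  refine (norm_sum_le _ _).trans ?_
  calc ∑ a : ZMod f, ‖ψ a * ((fa g Q y w f a.val - F0 g Q y w / f.totient : ℝ) : ℂ)‖
      ≤ ∑ _a : ZMod f, δ := by
        refine Finset.sum_le_sum fun a _ => ?_
        rw [norm_mul, Complex.norm_real, Real.norm_eq_abs]
        by_cases ha : IsUnit a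
        · have h3 := h a.val ((ZMod.isUnit_iff_coprime a.val f).mp (by
            rw [ZMod.natCast_zmod_val]; exact ha))
          calc ‖ψ a‖ * |fa g Q y w f a.val - F0 g Q y w / f.totient|
              ≤ 1 * δ := mul_le_mul (DirichletCharacter.norm_le_one ψ a) h3 (abs_nonneg _)
                zero_le_one
            _ = δ := one_mul δ
        · rw [MulChar.map_nonunit ψ ha, norm_zero, zero_mul]
          exact hδ
    _ = f * δ := by
        rw [Finset.sum_const, Finset.card_univ, ZMod.card, nsmul_eq_mul]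

/-- Passing to a character that agrees on the support. -/
theorem drop_congr {g : ℝ → ℝ} {Q y w : ℝ} {M D : ℕ} (χ : DirichletCharacter ℂ M)
    (ψ : DirichletCharacter ℂ D)
    (h : ∀ l ∈ semi Q y w, sw g Q l ≠ 0 → χ (l : ZMod M) = ψ (l : ZMod D)) :
    fh g Q y w χ = fh g Q y w ψ := by
  unfold fh
  refine Finset.sum_congr rfl fun l hl => ?_
  by_cases h0 : sw g Q l = 0
  · rw [h0]
    simp
  · rw [h l hl h0]

theorem drop (hPS : PS) (hLB : LB) (hUB : UB) : Drop := by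
  classical
  intro g hg hne κ κ₂ E hκ0 hκ hκ₂ hE c₀ hc₀
  obtain ⟨c, X1, hc, hX1, hlb⟩ := hLB g hg hne κ κ₂ hκ0 hκ hκ₂
  obtain ⟨C, X2, hC, hX2, hub⟩ := ubd hUB g hg κ κ₂ E hκ0 hκ hκ₂ hE
  obtain ⟨X4, hX4, hmod⟩ := modl_le κ E hκ0 (hκ.trans hκ₂) hE
  refine ⟨⌈C / (c * c₀ ^ 2)⌉₊, fun q₀ => ?_⟩
  have hC₁ : 0 < E * q₀ + 1 := by positivity
  obtain ⟨C', X3, hC', hX3, hps⟩ := hPS g hg κ κ₂ (E * q₀ + 1 + 1) (E * q₀ + 1) hκ0 hκ hκ₂
    (by linarith) hC₁
  refine ⟨max (max (max X1 X2) (max X3 X4)) (Real.exp (max (Real.exp 1) (C' / (c₀ * c)))),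
    ?_, ?_⟩
  · exact (hX1.trans (le_max_left _ _)).trans ((le_max_left _ _).trans (le_max_left _ _))
  intro Q hQ
  have hQ1 : X1 ≤ Q := ((le_max_left _ _).trans ((le_max_left _ _).trans (le_max_left _ _))).trans hQ
  have hQ2 : X2 ≤ Q := ((le_max_right _ _).trans ((le_max_left _ _).trans (le_max_left _ _))).trans hQ
  have hQ3 : X3 ≤ Q := ((le_max_left _ _).trans ((le_max_right _ _).trans (le_max_left _ _))).trans hQ
  have hQ4 : X4 ≤ Q := ((le_max_right _ _).trans ((le_max_right _ _).trans (le_max_left _ _))).trans hQ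
  have hQ5 : Real.exp (max (Real.exp 1) (C' / (c₀ * c))) ≤ Q := (le_max_right _ _).trans hQ
  have hQ3' : (3 : ℝ) ≤ Q := hX1.trans hQ1
  have hu5 : max (Real.exp 1) (C' / (c₀ * c)) ≤ Real.log Q := by
    rw [← Real.log_exp (max (Real.exp 1) (C' / (c₀ * c)))]
    exact Real.log_le_log (Real.exp_pos _) hQ5
  have hue : Real.exp 1 ≤ Real.log Q := (le_max_left _ _).trans hu5
  have huC : C' / (c₀ * c) ≤ Real.log Q := (le_max_right _ _).trans hu5
  have hu1 : 1 ≤ Real.log Q := by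
    have := Real.add_one_le_exp (1 : ℝ)
    linarith
  have hu0 : 0 < Real.log Q := by linarith
  have hlu : 1 ≤ Real.log (Real.log Q) := by
    rw [← Real.log_exp 1]
    exact Real.log_le_log (Real.exp_pos 1) hue
  set y := yy κ Q with hy
  set w := ww κ₂ Q with hw
  set Z := ZZ E Q with hZ
  set L : ℝ := Real.log Q ^ (1 - κ₂) * Real.log (Real.log Q) with hL
  have hL1 : 1 ≤ L := by
    have h1 : 1 ≤ Real.log Q ^ (1 - κ₂) := Real.one_le_rpow hu1 (by linarith)
    nlinarith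
  have hF : c * L ≤ F0 g Q y w := hlb Q hQ1
  have hF0 : 0 < F0 g Q y w := by nlinarith
  obtain ⟨hM0, _, _, hMq⟩ := hmod Q hQ4 ∅
  set M₀ := modl y Z ∅ with hM₀
  have hne0 : NeZero M₀ := ⟨hM0.ne'⟩
  have hcop : ∀ l ∈ semi Q y w, sw g Q l ≠ 0 → l.Coprime M₀ := by
    intro l hl h0
    have hlp : l.Prime := (mem_semi.1 hl).2.1
    rw [hlp.coprime_iff_not_dvd]
    intro hd
    have h1 := ((hMq l hlp).1 hd).1
    have h2 := drop_sw_ne hg (hκ.trans hκ₂) hQ3' h0
    exact absurd h1 (not_le.2 h2)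
  -- the bad characters
  set bad : Finset (DirichletCharacter ℂ M₀) :=
    Finset.univ.filter (fun χ => c₀ * F0 g Q y w < ‖fh g Q y w χ‖) with hbad
  have hcard : (bad.card : ℝ) ≤ C / (c * c₀ ^ 2) := by
    have h1 := drop_parseval (g := g) hg (Q := Q) (y := y) (w := w) (K := C * L) (M := M₀)
      (fun a ha => hub Q hQ2 M₀ dvd_rfl a ha) (by positivity)
    have h2 : (bad.card : ℝ) * (c₀ * F0 g Q y w) ^ 2 ≤ C * L * F0 g Q y w := by
      refine le_trans ?_ h1
      calc (bad.card : ℝ) * (c₀ * F0 g Q y w) ^ 2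
          = ∑ _χ ∈ bad, (c₀ * F0 g Q y w) ^ 2 := by rw [Finset.sum_const, nsmul_eq_mul]
        _ ≤ ∑ χ ∈ bad, ‖fh g Q y w χ‖ ^ 2 := by
            refine Finset.sum_le_sum fun χ hχ => ?_
            have h3 := (Finset.mem_filter.1 hχ).2
            exact pow_le_pow_left₀ (by positivity) h3.le 2
        _ ≤ _ := Finset.sum_le_sum_of_subset_of_nonneg (Finset.subset_univ _)
            fun χ _ _ => by positivity
    have h4 : (bad.card : ℝ) * (c₀ ^ 2 * F0 g Q y w) ≤ C * L := by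
      have h5 : (bad.card : ℝ) * (c₀ ^ 2 * F0 g Q y w) * F0 g Q y w ≤ C * L * F0 g Q y w := by
        nlinarith
      exact le_of_mul_le_mul_right h5 hF0
    rw [le_div_iff₀ (by positivity)]
    have h6 : (bad.card : ℝ) * (c₀ ^ 2 * (c * L)) ≤ C * L := by
      refine le_trans ?_ h4
      have h7 : (0 : ℝ) ≤ bad.card := Nat.cast_nonneg _
      have h8 : c₀ ^ 2 * (c * L) ≤ c₀ ^ 2 * F0 g Q y w :=
        mul_le_mul_of_nonneg_left hF (by positivity)
      exact mul_le_mul_of_nonneg_left h8 h7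
    have h9 : (bad.card : ℝ) * (c * c₀ ^ 2) * L ≤ C * L := by linarith
    exact le_of_mul_le_mul_right h9 (by linarith)
  -- every nontrivial bad character has a large prime in its conductor
  have hlarge : ∀ χ ∈ bad, χ ≠ 1 → ∃ q : ℕ, q.Prime ∧ q ∣ χ.conductor ∧ q₀ ≤ q := by
    intro χ hχ hχ1
    by_contra hno
    push Not at hno
    have hfd : χ.conductor ∣ M₀ := χ.conductor_dvd_level
    have hf0 : χ.conductor ≠ 0 := χ.conductor_ne_zero
    have hnf : NeZero χ.conductor := ⟨hf0⟩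
    have hZ0 : Z ≠ 0 := by
      have h1 : 1 ≤ Z := by
        rw [hZ]
        unfold ZZ
        exact Nat.le_floor (by
          rw [Nat.cast_one]
          exact Real.one_le_rpow hu1 (by linarith))
      omega
    have hle := drop_bd hZ0 hM0.ne' hfd hno
    have hle' : (χ.conductor : ℝ) ≤ Real.log Q ^ (E * q₀ + 1) := by
      have h1 : (χ.conductor : ℝ) ≤ (Z : ℝ) ^ q₀ := by exact_mod_cast hle
      have h2 : (Z : ℝ) ≤ Real.log Q ^ E := by
        rw [hZ]
        unfold ZZ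
        exact Nat.floor_le (by positivity)
      calc (χ.conductor : ℝ) ≤ (Z : ℝ) ^ q₀ := h1
        _ ≤ (Real.log Q ^ E) ^ q₀ := pow_le_pow_left₀ (Nat.cast_nonneg _) h2 q₀
        _ = Real.log Q ^ (E * q₀) := by rw [Real.rpow_mul hu0.le, Real.rpow_natCast]
        _ ≤ Real.log Q ^ (E * q₀ + 1) :=
            Real.rpow_le_rpow_of_exponent_le hu1 (by linarith)
    have hpsf := hps Q hQ3 χ.conductor (Nat.one_le_iff_ne_zero.2 hf0) hle'
      (fun q hq hqf => ((hMq q hq).1 (hqf.trans hfd)).1)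
    have hψ1 : χ.primitiveCharacter ≠ 1 := by
      intro h
      apply hχ1
      rw [← χ.changeLevel_primitiveCharacter, h, map_one]
    have h3 := drop_small χ.primitiveCharacter hψ1 (by positivity) hpsf
    have h4 : fh g Q y w χ = fh g Q y w χ.primitiveCharacter := by
      refine drop_congr _ _ fun l hl h0 => ?_
      have h5 := χ.primitiveCharacter_apply_of_isCoprime (a := (l : ℤ))
        (by exact_mod_cast Nat.isCoprime_iff_coprime.2 (hcop l hl h0))
      rw [Int.cast_natCast, Int.cast_natCast] at h5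
      exact h5.symm
    have h6 : (χ.conductor : ℝ) * (C' / Real.log Q ^ (E * q₀ + 1 + 1)) ≤ C' / Real.log Q := by
      have h7 : Real.log Q ^ (E * q₀ + 1 + 1) = Real.log Q ^ (E * q₀ + 1) * Real.log Q := by
        rw [Real.rpow_add_one hu0.ne']
      rw [h7]
      have h8 : 0 < Real.log Q ^ (E * q₀ + 1) := by positivity
      calc (χ.conductor : ℝ) * (C' / (Real.log Q ^ (E * q₀ + 1) * Real.log Q))
          ≤ Real.log Q ^ (E * q₀ + 1) * (C' / (Real.log Q ^ (E * q₀ + 1) * Real.log Q)) :=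
            mul_le_mul_of_nonneg_right hle' (by positivity)
        _ = C' / Real.log Q := by field_simp
    have h9 : C' / Real.log Q ≤ c₀ * F0 g Q y w := by
      have h10 : C' / Real.log Q ≤ c₀ * c := by
        rw [div_le_iff₀ hu0]
        rw [div_le_iff₀ (by positivity)] at huC
        linarith
      have h11 : c ≤ F0 g Q y w := by nlinarith
      nlinarith
    have h12 := (Finset.mem_filter.1 hχ).2
    rw [h4] at h12
    exact absurd ((h3.trans h6).trans h9) (not_le.2 h12)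
  choose! qc hqc using hlarge
  obtain ⟨R, hR⟩ : ∃ R : Finset ℕ, R = (bad.filter (fun χ => χ ≠ 1)).image qc := ⟨_, rfl⟩
  refine ⟨R, ?_, ?_, ?_⟩
  · rw [hR]
    refine Finset.card_image_le.trans ((Finset.card_filter_le _ _).trans ?_)
    have h1 : (bad.card : ℝ) ≤ (⌈C / (c * c₀ ^ 2)⌉₊ : ℝ) := hcard.trans (Nat.le_ceil _)
    exact_mod_cast h1
  · intro q hq
    rw [hR] at hq
    obtain ⟨χ, hχ, rfl⟩ := Finset.mem_image.1 hq
    obtain ⟨hχb, hχ1⟩ := Finset.mem_filter.1 hχ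
    obtain ⟨h1, h2, h3⟩ := hqc χ hχb hχ1
    exact ⟨h1, h3, ((hMq _ h1).1 (h2.trans χ.conductor_dvd_level)).1⟩
  · intro χ hχ1
    obtain ⟨hMR0, hMRd, _, hMRq⟩ := hmod Q hQ4 R
    by_contra hno
    rw [not_le] at hno
    have hneR : NeZero (modl y Z R) := ⟨hMR0.ne'⟩
    have h1 : fh g Q y w (DirichletCharacter.changeLevel hMRd χ) = fh g Q y w χ := by
      refine drop_congr _ _ fun l hl h0 => ?_
      have h5 := DirichletCharacter.changeLevel_eq_cast_of_dvd' χ hMRd (a := (l : ℤ))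
        (by exact_mod_cast Nat.isCoprime_iff_coprime.2 (hcop l hl h0))
      rw [Int.cast_natCast, Int.cast_natCast] at h5
      exact h5
    have h2 : DirichletCharacter.changeLevel hMRd χ ∈ bad := by
      rw [hbad, Finset.mem_filter]
      refine ⟨Finset.mem_univ _, ?_⟩
      rw [h1]
      exact hno
    have h3 : DirichletCharacter.changeLevel hMRd χ ≠ 1 := by
      intro h
      exact hχ1 ((DirichletCharacter.changeLevel_eq_one_iff hMRd).1 h)
    obtain ⟨h4, h5, _⟩ := hqc _ h2 h3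
    have h6 : qc (DirichletCharacter.changeLevel hMRd χ) ∈ R := by
      have h9 : DirichletCharacter.changeLevel hMRd χ ∈ bad.filter (fun χ => χ ≠ 1) :=
        Finset.mem_filter.2 ⟨h2, h3⟩
      have h8 := Finset.mem_image_of_mem qc h9
      rw [← hR] at h8
      exact h8
    have h7 : qc (DirichletCharacter.changeLevel hMRd χ) ∣ modl y Z R := by
      refine h5.trans ?_
      rw [DirichletCharacter.conductor_changeLevel]
      exact χ.conductor_dvd_level
    exact ((hMRq _ h4).1 h7).2 h6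

end Pool.Agent.Helper61.CA
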