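import Pool.Agent.Helper18.BV.WtLemmas

/-!
# The prime powers have small mass
-/

set_option autoImplicit false

open Finset Filter Topology
open scoped ArithmeticFunction.vonMangoldt

namespace Pool.Agent.Helper61.CA

open Pool.Agent.Helper18.BV

noncomputable def npF (n : ℕ) : ℝ := (if n.Prime then 0 else Λ n) * (n : ℝ) ^ (-(3 / 4) : ℝ)

theorem npF_nonneg (n : ℕ) : 0 ≤ npF n := by
  unfold npF
  refine mul_nonneg ?_ (Real.rpow_nonneg (Nat.cast_nonneg _) _)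
  split_ifs
  · exact le_rfl
  · exact ArithmeticFunction.vonMangoldt_nonneg

theorem npF_pow_le (p : Nat.Primes) (k : ℕ) :
    npF ((p : ℕ) ^ (k + 2)) ≤ 8 * ((p : ℝ) ^ (-(11 / 8) : ℝ) * ((2 : ℝ) ^ (-(3 / 4) : ℝ)) ^ k) := by
  have hp := p.prop
  have hp0 : (0 : ℝ) < (p : ℕ) := by exact_mod_cast hp.pos
  have hp2 : (2 : ℝ) ≤ (p : ℕ) := by exact_mod_cast hp.two_le
  have h1 : npF ((p : ℕ) ^ (k + 2)) = Real.log (p : ℕ) * (((p : ℕ) : ℝ) ^ (-(3 / 4) : ℝ)) ^ (k + 2) := by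
    unfold npF
    rw [if_neg (Nat.Prime.not_prime_pow (by omega)),
      ArithmeticFunction.vonMangoldt_apply_pow (by omega),
      ArithmeticFunction.vonMangoldt_apply_prime hp]
    congr 1
    push_cast
    rw [← Real.rpow_natCast, ← Real.rpow_natCast, ← Real.rpow_mul hp0.le, ← Real.rpow_mul hp0.le,
      mul_comm]
  rw [h1]
  have h2 : Real.log (p : ℕ) ≤ 8 * ((p : ℕ) : ℝ) ^ (1 / 8 : ℝ) := by
    have := Real.log_le_rpow_div hp0.le (show (0 : ℝ) < 1 / 8 by norm_num)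
    calc Real.log (p : ℕ) ≤ ((p : ℕ) : ℝ) ^ (1 / 8 : ℝ) / (1 / 8) := this
      _ = _ := by ring
  have h3 : (((p : ℕ) : ℝ) ^ (-(3 / 4) : ℝ)) ^ k ≤ ((2 : ℝ) ^ (-(3 / 4) : ℝ)) ^ k := by
    refine pow_le_pow_left₀ (Real.rpow_nonneg hp0.le _) ?_ k
    exact Real.rpow_le_rpow_of_nonpos (by norm_num) hp2 (by norm_num)
  have h4 : (((p : ℕ) : ℝ) ^ (-(3 / 4) : ℝ)) ^ 2 * ((p : ℕ) : ℝ) ^ (1 / 8 : ℝ) =
      ((p : ℕ) : ℝ) ^ (-(11 / 8) : ℝ) := by
    rw [← Real.rpow_natCast, ← Real.rpow_mul hp0.le, ← Real.rpow_add hp0]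
    norm_num
  calc Real.log (p : ℕ) * (((p : ℕ) : ℝ) ^ (-(3 / 4) : ℝ)) ^ (k + 2)
      ≤ (8 * ((p : ℕ) : ℝ) ^ (1 / 8 : ℝ)) * (((p : ℕ) : ℝ) ^ (-(3 / 4) : ℝ)) ^ (k + 2) :=
        mul_le_mul_of_nonneg_right h2 (by positivity)
    _ = 8 * (((((p : ℕ) : ℝ) ^ (-(3 / 4) : ℝ)) ^ 2 * ((p : ℕ) : ℝ) ^ (1 / 8 : ℝ)) *
        (((p : ℕ) : ℝ) ^ (-(3 / 4) : ℝ)) ^ k) := by ring
    _ = 8 * (((p : ℕ) : ℝ) ^ (-(11 / 8) : ℝ) * (((p : ℕ) : ℝ) ^ (-(3 / 4) : ℝ)) ^ k) := by rw [h4]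
    _ ≤ _ := by
      refine mul_le_mul_of_nonneg_left ?_ (by norm_num)
      exact mul_le_mul_of_nonneg_left h3 (by positivity)

theorem summable_npF : Summable npF := by
  have hr : (2 : ℝ) ^ (-(3 / 4) : ℝ) < 1 :=
    Real.rpow_lt_one_of_one_lt_of_neg (by norm_num) (by norm_num)
  have hr0 : (0 : ℝ) ≤ (2 : ℝ) ^ (-(3 / 4) : ℝ) := by positivity
  have hgeo := summable_geometric_of_lt_one hr0 hr
  have hpr : Summable (fun p : Nat.Primes => ((p : ℕ) : ℝ) ^ (-(11 / 8) : ℝ)) :=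
    Nat.Primes.summable_rpow.mpr (by norm_num)
  have hprod : Summable (fun x : Nat.Primes × ℕ =>
      8 * (((x.1 : ℕ) : ℝ) ^ (-(11 / 8) : ℝ) * ((2 : ℝ) ^ (-(3 / 4) : ℝ)) ^ x.2)) :=
    (hpr.mul_of_nonneg hgeo (fun _ => by positivity) (fun _ => by positivity)).mul_left 8
  have h2 : Summable (fun x : Nat.Primes × ℕ => npF ((x.1 : ℕ) ^ (x.2 + 2))) :=
    hprod.of_nonneg_of_le (fun x => npF_nonneg _) (fun x => npF_pow_le x.1 x.2)
  -- all the terms of exponent `k + 1`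
  have h3 : Summable (fun x : Nat.Primes × ℕ => npF ((x.1 : ℕ) ^ (x.2 + 1))) := by
    have hinj : Function.Injective (Prod.map (id : Nat.Primes → Nat.Primes) (fun k : ℕ => k + 1)) :=
      Function.Injective.prodMap (fun _ _ h => h) (fun a b h => by simpa using h)
    refine (Function.Injective.summable_iff hinj (fun u hu => ?_)).mp h2
    obtain ⟨p, k⟩ := u
    rcases Nat.eq_zero_or_pos k with rfl | hk
    · simp [npF, p.prop]
    · exact absurd ⟨(p, k - 1), by simp [Prod.map]; omega⟩ hu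
  have h4 : Summable (npF ∘ Subtype.val : {n : ℕ // IsPrimePow n} → ℝ) := by
    have h5 := (Nat.Primes.prodNatEquiv.symm.summable_iff
      (f := fun x : Nat.Primes × ℕ => npF ((x.1 : ℕ) ^ (x.2 + 1)))).mpr h3
    refine h5.congr (fun n => ?_)
    simp only [Function.comp_apply]
    have h6 := Nat.Primes.prodNatEquiv.apply_symm_apply n
    have h7 := congrArg Subtype.val h6
    rw [← h7]
    obtain ⟨p, k⟩ := Nat.Primes.prodNatEquiv.symm n
    rfl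
  have h5 : Summable (Set.indicator {n : ℕ | IsPrimePow n} npF) := by
    rw [← summable_subtype_iff_indicator]
    exact h4
  refine h5.congr (fun n => ?_)
  by_cases hn : IsPrimePow n
  · rw [Set.indicator_of_mem (show n ∈ {n : ℕ | IsPrimePow n} from hn)]
  · rw [Set.indicator_of_notMem (show n ∉ {n : ℕ | IsPrimePow n} from hn)]
    unfold npF
    rw [ArithmeticFunction.vonMangoldt_eq_zero_iff.2 hn]
    simp

/-- The prime powers have mass at most `C x^(-1/8)`. -/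
theorem nonprime_power {g : ℝ → ℝ} (hg : IsWt g) :
    ∃ C : ℝ, 0 < C ∧ ∀ x : ℝ, 3 ≤ x → ∀ T : Finset ℕ, (∀ n ∈ T, ¬ n.Prime) →
      ∑ n ∈ T, Λ n * wt g x n ≤ C * x ^ (-(1 / 8) : ℝ) := by
  obtain ⟨M, hM, hgM⟩ := hg.exists_bound
  have hS0 : 0 ≤ ∑' n, npF n := tsum_nonneg npF_nonneg
  refine ⟨M * (∑' n, npF n + 1), by positivity, ?_⟩
  intro x hx T hT
  have hx0 : 0 < x := by linarith
  have hx1 : 1 < x := by linarith
  have h1 : ∀ n ∈ T, Λ n * wt g x n ≤ M * x ^ (-(1 / 8) : ℝ) * npF n := by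
    intro n hn
    by_cases hs : (n : ℝ) ≤ x ^ (1 / 2 : ℝ)
    · rw [wt_zero hg hx1 hs, mul_zero]
      have := npF_nonneg n
      positivity
    · push Not at hs
      have hn0 : (0 : ℝ) < n := lt_trans (by positivity) hs
      have h2 : (n : ℝ) ^ (-(1 / 4) : ℝ) ≤ x ^ (-(1 / 8) : ℝ) := by
        calc (n : ℝ) ^ (-(1 / 4) : ℝ) ≤ (x ^ (1 / 2 : ℝ)) ^ (-(1 / 4) : ℝ) :=
              Real.rpow_le_rpow_of_nonpos (by positivity) hs.le (by norm_num)
          _ = x ^ (-(1 / 8) : ℝ) := by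
            rw [← Real.rpow_mul hx0.le]; norm_num
      have h3 : (n : ℝ)⁻¹ = (n : ℝ) ^ (-(3 / 4) : ℝ) * (n : ℝ) ^ (-(1 / 4) : ℝ) := by
        rw [← Real.rpow_add hn0, ← Real.rpow_neg_one]
        norm_num
      unfold npF wt
      rw [if_neg (hT n hn), div_eq_mul_inv, h3]
      calc Λ n * (g (Real.log n / Real.log x) * ((n : ℝ) ^ (-(3 / 4) : ℝ) * (n : ℝ) ^ (-(1 / 4) : ℝ)))
          = g (Real.log n / Real.log x) * (n : ℝ) ^ (-(1 / 4) : ℝ) *
            (Λ n * (n : ℝ) ^ (-(3 / 4) : ℝ)) := by ring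
        _ ≤ (M * x ^ (-(1 / 8) : ℝ)) * (Λ n * (n : ℝ) ^ (-(3 / 4) : ℝ)) := by
          refine mul_le_mul_of_nonneg_right ?_
            (mul_nonneg ArithmeticFunction.vonMangoldt_nonneg (by positivity))
          exact mul_le_mul (hgM _) h2 (by positivity) hM.le
  calc ∑ n ∈ T, Λ n * wt g x n ≤ ∑ n ∈ T, M * x ^ (-(1 / 8) : ℝ) * npF n := Finset.sum_le_sum h1
    _ = M * x ^ (-(1 / 8) : ℝ) * ∑ n ∈ T, npF n := by rw [Finset.mul_sum]
    _ ≤ M * x ^ (-(1 / 8) : ℝ) * (∑' n, npF n + 1) := by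
      refine mul_le_mul_of_nonneg_left ?_ (by positivity)
      have := summable_npF.sum_le_tsum T (fun n _ => npF_nonneg n)
      linarith
    _ = _ := by ring

end Pool.Agent.Helper61.CA
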