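import Pool.Agent.Helper61.CA.UBd
import Pool.Agent.Helper58.CA.Sums

/-!
# CA-S2f: the semi-nice primes which are not nice have small mass

`u = log Q`, `L := u^(1-κ₂) log u`, `F := F0 ≥ c L` (`LB`). Let `l` be semi-nice,
`√Q < l ≤ Q` (otherwise `sw g Q l = 0`). Write `l - 1 = G * D` with `G` the part of the primes `≤ y`
and `D` the part of the primes `> y`; all primes of `D` are `> w` since `l` is semi-nice. If `l` is
not nice, then `G` does not divide `modl y Z R`, so either (i) some `q ∈ R` divides `l - 1`, or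
(ii) some prime `q ≤ y` has `q ^ (Nat.log q Z + 1) ∣ l - 1`.
(i) `q ∣ modl y Z ∅` (`modl_le`), so by `ubd` with `D := q`, `a := 1` the mass is
`≤ C L / (q-1) ≤ 2 C L / q₀`, in total `≤ 2 B C L / q₀ ≤ (2 C / c) (B / q₀) F`.
(ii) `Z < m := q ^ (Nat.log q Z + 1)`; `sw g Q l ≤ G₀ u / l` (`G₀` a bound of `g`), and
`∑_{n ≤ Q, n ≡ 1 mod m, n > 1} 1/n ≤ ∑_{k ≤ Q} 1/(k m) ≤ (1 + u) / Z`, so the mass is
`≤ 2 G₀ u^2 / Z` for each of the at most `y ≤ u` primes `q`: total `≤ 2 G₀ u^3 / u^E ≤ 2 G₀ / u`,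
`E ≥ 8`, and this is `≤ c₁ F` for large `Q`, because `F ≥ c L`.
-/

set_option autoImplicit false

open Finset

namespace Pool.Agent.Helper61.CA

open Pool.Agent.Helper18.BV
open Pool.Agent.Helper58.CA

/-- A semi-nice number `l` whose `l - 1` has no prime factor in `R` and no high prime power is
nice. -/
theorem nn_nice {Q y w : ℝ} {Z : ℕ} {R : Finset ℕ} {l : ℕ} (hl : l ∈ semi Q y w)
    (h1 : ∀ q ∈ R, ¬ q ∣ l - 1)
    (h2 : ∀ q : ℕ, q.Prime → (q : ℝ) ≤ y → ¬ q ^ (Nat.log q Z + 1) ∣ l - 1) :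
    Nice (modl y Z R) w l := by
  classical
  obtain ⟨_, hlp, hsemi⟩ := mem_semi.mp hl
  have hn : l - 1 ≠ 0 := by
    have := hlp.one_lt
    omega
  set n := l - 1 with hndef
  refine ⟨∏ p ∈ n.primeFactors.filter (fun p : ℕ => (p : ℝ) ≤ y), p ^ n.factorization p,
    ∏ p ∈ n.primeFactors.filter (fun p : ℕ => ¬ (p : ℝ) ≤ y), p ^ n.factorization p, ?_, ?_, ?_⟩
  · rw [Finset.prod_filter_mul_prod_filter_not]
    have h3 := Nat.prod_factorization_pow_eq_self hn
    rw [Finsupp.prod, Nat.support_factorization] at h3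
    exact h3.symm
  · unfold modl
    refine dvd_trans (Finset.prod_dvd_prod_of_dvd _ (fun p => p ^ Nat.log p Z) ?_) ?_
    · intro p hp
      rw [Finset.mem_filter, Nat.mem_primeFactors] at hp
      obtain ⟨⟨hpp, hpn, _⟩, hpy⟩ := hp
      refine pow_dvd_pow p ?_
      by_contra hc
      refine h2 p hpp hpy ?_
      rw [hpp.pow_dvd_iff_le_factorization hn]
      omega
    · refine Finset.prod_dvd_prod_of_subset _ _ _ ?_
      intro p hp
      rw [Finset.mem_filter, Nat.mem_primeFactors] at hp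
      obtain ⟨⟨hpp, hpn, _⟩, hpy⟩ := hp
      rw [Finset.mem_filter, Finset.mem_Icc]
      exact ⟨⟨hpp.one_lt.le, Nat.le_floor hpy⟩, hpp, fun hR => h1 p hR hpn⟩
  · intro q hq hqd
    rw [Prime.dvd_finsetProd_iff hq.prime] at hqd
    obtain ⟨p, hp, hqp⟩ := hqd
    rw [Finset.mem_filter, Nat.mem_primeFactors] at hp
    obtain ⟨⟨hpp, hpn, _⟩, hpy⟩ := hp
    have h3 : q ∣ p := hq.dvd_of_dvd_pow hqp
    have h4 : q = p := (Nat.prime_dvd_prime_iff_eq hq hpp).mp h3
    subst h4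
    by_contra hc
    exact hsemi q hq (not_le.mp hpy) (not_lt.mp hc) hpn

/-- The mass of the integers `l` with `m ∣ l - 1`. -/
theorem nn_pow {g : ℝ → ℝ} {G Q : ℝ} (hG : 0 < G) (hQ : 4 ≤ Q)
    (hsw : ∀ l : ℕ, sw g Q l ≤ G * Real.log Q * nu Q l) {m : ℕ} (hm : 1 ≤ m) (S : Finset ℕ)
    (hS : ∀ l ∈ S, l ≤ ⌊Q⌋₊) :
    ∑ l ∈ S.filter (fun l => m ∣ l - 1), sw g Q l ≤
      G * Real.log Q * ((1 + Real.log Q) / m) := by
  classical
  have hQ1 : 1 ≤ Q := by linarith
  have hu : 0 ≤ Real.log Q := Real.log_nonneg hQ1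
  have hsq : 2 ≤ Real.sqrt Q := by
    rw [show (2 : ℝ) = Real.sqrt 4 by
      rw [show (4 : ℝ) = 2 ^ 2 by norm_num]; exact (Real.sqrt_sq (by norm_num)).symm]
    exact Real.sqrt_le_sqrt hQ
  calc ∑ l ∈ S.filter (fun l => m ∣ l - 1), sw g Q l
      ≤ ∑ l ∈ S.filter (fun l => m ∣ l - 1), G * Real.log Q * nu Q l :=
        Finset.sum_le_sum fun l _ => hsw l
    _ = G * Real.log Q * ∑ l ∈ S.filter (fun l => m ∣ l - 1), nu Q l := by
        rw [Finset.mul_sum]
    _ ≤ G * Real.log Q * ((1 + Real.log Q) / m) := by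
        refine mul_le_mul_of_nonneg_left ?_ (mul_nonneg hG.le hu)
        have h2 : ∑ b ∈ S.filter (fun b => m ∣ b - 1), nu Q b =
            ∑ b ∈ (S.filter (fun b => m ∣ b - 1)).filter (fun b => nu Q b ≠ 0), nu Q b := by
          rw [Finset.sum_filter_ne_zero]
        rw [h2]
        refine (Finset.sum_le_sum fun a _ => nu_le Q a).trans (sum_mod_one hQ1 hm _ ?_)
        intro b hb
        rw [Finset.mem_filter, Finset.mem_filter] at hb
        refine ⟨?_, hS b hb.1.1, hb.1.2⟩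
        have h3 := (nu_of_ne hb.2).1
        have h4 : (2 : ℝ) ≤ b := by linarith
        exact_mod_cast h4

theorem notNice (hUB : UB) (hLB : LB) : NotNice := by
  classical
  intro g hg hgv κ κ₂ E hκ hκκ₂ hκ₂ hE
  have hκ0 : 0 < κ := by linarith
  obtain ⟨C, X1, hC, _, hX1⟩ := ubd hUB g hg κ κ₂ E hκ0 hκκ₂ hκ₂ (by linarith)
  obtain ⟨c, X2, hc, _, hX2⟩ := hLB g hg hgv κ κ₂ hκ0 hκκ₂ hκ₂
  obtain ⟨X3, _, hX3⟩ := modl_le κ E hκ0 (by linarith) (by linarith)
  obtain ⟨G, hG, hsw⟩ := sw_le hg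
  refine ⟨2 * C / c, by positivity, ?_⟩
  intro B c₁ hc₁
  refine ⟨max (max (max X1 X2) X3) (max (max 4 (Real.exp 3)) (Real.exp (2 * G / (c₁ * c)))), ?_, ?_⟩
  · exact le_trans (by norm_num : (3 : ℝ) ≤ 4) (le_trans (le_max_left _ _)
      (le_trans (le_max_left _ _) (le_max_right _ _)))
  intro Q hQ R q₀ hq₀ hRB hR S hS
  have hQX1 : X1 ≤ Q := le_trans (le_trans (le_max_left _ _) (le_trans (le_max_left _ _)
    (le_max_left _ _))) hQ
  have hQX2 : X2 ≤ Q := le_trans (le_trans (le_max_right _ _) (le_trans (le_max_left _ _)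
    (le_max_left _ _))) hQ
  have hQX3 : X3 ≤ Q := le_trans (le_trans (le_max_right _ _) (le_max_left _ _)) hQ
  have hQ4 : 4 ≤ Q := le_trans (le_trans (le_max_left _ _) (le_trans (le_max_left _ _)
    (le_max_right _ _))) hQ
  have hQe : Real.exp 3 ≤ Q := le_trans (le_trans (le_max_right _ _) (le_trans (le_max_left _ _)
    (le_max_right _ _))) hQ
  have hQG : Real.exp (2 * G / (c₁ * c)) ≤ Q := le_trans (le_trans (le_max_right _ _)
    (le_max_right _ _)) hQ
  have hQ0 : 0 < Q := by linarith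
  have hU := hX1 Q hQX1
  have hF := hX2 Q hQX2
  have hMd := hX3 Q hQX3 ∅
  set u := Real.log Q with hu
  have hu3 : 3 ≤ u := (Real.le_log_iff_exp_le hQ0).mpr hQe
  have hu0 : 0 < u := by linarith
  have huG : 2 * G / (c₁ * c) ≤ u := (Real.le_log_iff_exp_le hQ0).mpr hQG
  set y := yy κ Q with hy
  set w := ww κ₂ Q with hw
  set Z := ZZ E Q with hZ
  set F := F0 g Q y w with hFdef
  set L := u ^ (1 - κ₂) * Real.log u with hL
  have hL1 : 1 ≤ L := by
    have h1 : 1 ≤ u ^ (1 - κ₂) := Real.one_le_rpow (by linarith) (by linarith)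
    have h2 : 1 ≤ Real.log u := by
      rw [Real.le_log_iff_exp_le hu0]
      have := Real.exp_one_lt_d9
      linarith
    nlinarith
  have hyu : y ≤ u := by
    have h1 : u ^ κ ≤ u ^ (1 : ℝ) := Real.rpow_le_rpow_of_exponent_le (by linarith) (by linarith)
    rw [Real.rpow_one] at h1
    exact h1
  have hy0 : 0 < y := Real.rpow_pos_of_pos hu0 κ
  -- splitting
  set P := (Icc 1 ⌊y⌋₊).filter (fun q => q.Prime) with hP
  have hsplit : ∀ l ∈ S, sw g Q l ≤ ∑ q ∈ R, (if q ∣ l - 1 then sw g Q l else 0) +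
      ∑ q ∈ P, (if q ^ (Nat.log q Z + 1) ∣ l - 1 then sw g Q l else 0) := by
    intro l hl
    have hnn := sw_nonneg hg Q l
    have k1 : ∀ q ∈ R, 0 ≤ (if q ∣ l - 1 then sw g Q l else 0) := by
      intro q _
      split_ifs <;> simp [hnn]
    have k2 : ∀ q ∈ P, 0 ≤ (if q ^ (Nat.log q Z + 1) ∣ l - 1 then sw g Q l else 0) := by
      intro q _
      split_ifs <;> simp [hnn]
    have n1 := Finset.sum_nonneg k1
    have n2 := Finset.sum_nonneg k2
    by_cases hc1 : ∀ q ∈ R, ¬ q ∣ l - 1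
    · by_cases hc2 : ∀ q : ℕ, q.Prime → (q : ℝ) ≤ y → ¬ q ^ (Nat.log q Z + 1) ∣ l - 1
      · exact absurd (nn_nice (hS l hl).1 hc1 hc2) (hS l hl).2
      · push Not at hc2
        obtain ⟨q, hq, hqy, hqd⟩ := hc2
        have hqP : q ∈ P := by
          rw [hP, Finset.mem_filter, Finset.mem_Icc]
          exact ⟨⟨hq.one_lt.le, Nat.le_floor hqy⟩, hq⟩
        have h5 := Finset.single_le_sum k2 hqP
        rw [if_pos hqd] at h5
        linarith
    · push Not at hc1
      obtain ⟨q, hq, hqd⟩ := hc1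
      have h5 := Finset.single_le_sum k1 hq
      rw [if_pos hqd] at h5
      linarith
  -- part (i)
  have hpart1 : ∀ q ∈ R, ∑ l ∈ S, (if q ∣ l - 1 then sw g Q l else 0) ≤ 2 * C * L / q₀ := by
    intro q hq
    obtain ⟨hqp, hq₀q, hqy⟩ := hR q hq
    have hdvd : q ∣ modl y Z ∅ := (hMd.2.2.2 q hqp).mpr ⟨hqy, Finset.notMem_empty q⟩
    have h1 := hU q hdvd 1 (Nat.coprime_one_left q)
    have h2 : ∑ l ∈ S, (if q ∣ l - 1 then sw g Q l else 0) ≤ fa g Q y w q 1 := by
      unfold fa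
      rw [← Finset.sum_filter]
      refine Finset.sum_le_sum_of_subset_of_nonneg ?_ fun l _ _ => sw_nonneg hg Q l
      intro l hl
      rw [Finset.mem_filter] at hl ⊢
      refine ⟨(hS l hl.1).1, ?_⟩
      have h3 : 1 ≤ l := (mem_semi.mp (hS l hl.1).1).1.1
      exact ((Nat.modEq_iff_dvd' h3).mpr hl.2).symm
    refine h2.trans (h1.trans ?_)
    have h3 : (q.totient : ℝ) = (q : ℝ) - 1 := by
      rw [Nat.totient_prime hqp, Nat.cast_sub hqp.one_lt.le]
      simp
    have hq2 : (2 : ℝ) ≤ q := by exact_mod_cast hqp.two_le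
    have hq₀' : (q₀ : ℝ) ≤ q := by exact_mod_cast hq₀q
    have hq₀2 : (2 : ℝ) ≤ q₀ := by exact_mod_cast hq₀
    have h4 : (q₀ : ℝ) / 2 ≤ q.totient := by
      rw [h3]
      linarith
    calc C * L / q.totient ≤ C * L / ((q₀ : ℝ) / 2) :=
          div_le_div_of_nonneg_left (by positivity) (by linarith) h4
      _ = 2 * C * L / q₀ := by
          field_simp
  -- part (ii)
  have hpart2 : ∀ q ∈ P, ∑ l ∈ S, (if q ^ (Nat.log q Z + 1) ∣ l - 1 then sw g Q l else 0) ≤
      2 * G / u ^ 2 := by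
    intro q hq
    rw [hP, Finset.mem_filter] at hq
    have hqp := hq.2
    have hm1 : 1 ≤ q ^ (Nat.log q Z + 1) := Nat.one_le_pow _ _ hqp.pos
    have h1 := nn_pow hG hQ4 (fun l => hsw Q (by linarith) l) hm1 S
      fun l hl => (mem_semi.mp (hS l hl).1).1.2
    rw [Finset.sum_filter] at h1
    refine h1.trans ?_
    have h2 : Z < q ^ (Nat.log q Z + 1) := Nat.lt_pow_succ_log_self hqp.one_lt Z
    have h3 : u ^ (8 : ℝ) ≤ ((q ^ (Nat.log q Z + 1) : ℕ) : ℝ) := by
      have h4 : u ^ E < (Z : ℝ) + 1 := by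
        rw [hZ]
        exact Nat.lt_floor_add_one _
      have h5 : (Z : ℝ) + 1 ≤ ((q ^ (Nat.log q Z + 1) : ℕ) : ℝ) := by exact_mod_cast h2
      have h6 : u ^ (8 : ℝ) ≤ u ^ E := Real.rpow_le_rpow_of_exponent_le (by linarith) hE
      linarith
    have h8 : u ^ (8 : ℝ) = u ^ 8 := by
      rw [← Real.rpow_natCast]
      norm_num
    rw [h8] at h3
    have h4 : (1 + u) / ((q ^ (Nat.log q Z + 1) : ℕ) : ℝ) ≤ 2 * u / u ^ 8 :=
      div_le_div₀ (by positivity) (by linarith) (by positivity) h3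
    calc G * u * ((1 + u) / ((q ^ (Nat.log q Z + 1) : ℕ) : ℝ))
        ≤ G * u * (2 * u / u ^ 8) := mul_le_mul_of_nonneg_left h4 (by positivity)
      _ = 2 * G / u ^ 6 := by
          field_simp
      _ ≤ 2 * G / u ^ 2 := by
          refine div_le_div_of_nonneg_left (by positivity) (by positivity) ?_
          exact pow_le_pow_right₀ (by linarith) (by norm_num)
  -- totals
  have ht1 : ∑ q ∈ R, ∑ l ∈ S, (if q ∣ l - 1 then sw g Q l else 0) ≤ B * (2 * C * L / q₀) := by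
    refine (Finset.sum_le_sum hpart1).trans ?_
    rw [Finset.sum_const, nsmul_eq_mul]
    refine mul_le_mul_of_nonneg_right (by exact_mod_cast hRB) (by positivity)
  have ht2 : ∑ q ∈ P, ∑ l ∈ S, (if q ^ (Nat.log q Z + 1) ∣ l - 1 then sw g Q l else 0) ≤
      2 * G / u := by
    refine (Finset.sum_le_sum hpart2).trans ?_
    rw [Finset.sum_const, nsmul_eq_mul]
    have h1 : (P.card : ℝ) ≤ u := by
      have h2 : P.card ≤ ⌊y⌋₊ := by
        refine (Finset.card_filter_le _ _).trans ?_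
        rw [Nat.card_Icc]
        omega
      have h3 : ((⌊y⌋₊ : ℕ) : ℝ) ≤ y := Nat.floor_le hy0.le
      have h4 : (P.card : ℝ) ≤ (⌊y⌋₊ : ℝ) := by exact_mod_cast h2
      linarith
    calc (P.card : ℝ) * (2 * G / u ^ 2) ≤ u * (2 * G / u ^ 2) :=
          mul_le_mul_of_nonneg_right h1 (by positivity)
      _ = 2 * G / u := by
          field_simp
  have htot : ∑ l ∈ S, sw g Q l ≤ B * (2 * C * L / q₀) + 2 * G / u := by
    refine (Finset.sum_le_sum hsplit).trans ?_
    rw [Finset.sum_add_distrib]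
    rw [Finset.sum_comm (s := S) (t := R), Finset.sum_comm (s := S) (t := P)]
    exact add_le_add ht1 ht2
  refine htot.trans ?_
  have hq₀2 : (2 : ℝ) ≤ q₀ := by exact_mod_cast hq₀
  have hLF : L ≤ F / c := by
    rw [le_div_iff₀ hc]
    linarith
  have hc1F : c ≤ F := by nlinarith
  have e1 : B * (2 * C * L / q₀) ≤ 2 * C / c * B / q₀ * F := by
    calc B * (2 * C * L / q₀) ≤ B * (2 * C * (F / c) / q₀) := by
          refine mul_le_mul_of_nonneg_left ?_ (Nat.cast_nonneg B)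
          refine div_le_div_of_nonneg_right ?_ (by linarith)
          exact mul_le_mul_of_nonneg_left hLF (by positivity)
      _ = 2 * C / c * B / q₀ * F := by
          ring
  have e2 : 2 * G / u ≤ c₁ * F := by
    have h1 : 2 * G / u ≤ c₁ * c := by
      rw [div_le_iff₀ hu0]
      rw [div_le_iff₀ (by positivity)] at huG
      linarith
    exact h1.trans (mul_le_mul_of_nonneg_left hc1F hc₁.le)
  calc B * (2 * C * L / q₀) + 2 * G / u ≤ 2 * C / c * B / q₀ * F + c₁ * F := add_le_add e1 e2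
    _ = (2 * C / c * B / q₀ + c₁) * F := by ring

end Pool.Agent.Helper61.CA
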