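import Pool.Agent.Helper61.CA.PSb
import Pool.Agent.Helper18.BV.Final

/-!
# CA-S2a, S2b: the mass of the semi-nice primes
-/

set_option autoImplicit false

open Finset Filter Topology
open scoped ArithmeticFunction.vonMangoldt

namespace Pool.Agent.Helper61.CA

open Pool.Agent.Helper18.BV Pool.Agent.Helper44

theorem power_ps (A : ℝ) : ∃ X0 : ℝ, 3 ≤ X0 ∧ ∀ Q : ℝ, X0 ≤ Q →
    Q ^ (-(1 / 8) : ℝ) ≤ 1 / Real.log Q ^ A := by
  have h := (isLittleO_log_rpow_rpow_atTop A (show (0 : ℝ) < 1 / 8 by norm_num)).bound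
    (show (0 : ℝ) < 1 by norm_num)
  obtain ⟨X, hX⟩ := h.exists_forall_of_atTop
  refine ⟨max X 3, le_max_right _ _, fun Q hQ => ?_⟩
  have h1 := hX Q ((le_max_left _ _).trans hQ)
  have hQ3 : (3 : ℝ) ≤ Q := (le_max_right _ _).trans hQ
  have hlog : 0 < Real.log Q := Real.log_pos (by linarith)
  have hQ0 : 0 < Q := by linarith
  rw [Real.norm_of_nonneg (by positivity), Real.norm_of_nonneg (by positivity), one_mul] at h1
  rw [Real.rpow_neg hQ0.le, ← one_div]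
  exact one_div_le_one_div_of_le (by positivity) h1

/-- The mass of a class, as a sum over all integers. -/
theorem fa_eq (g : ℝ → ℝ) (Q y w : ℝ) (hy : 0 ≤ y) (hw : 0 ≤ w) (f a : ℕ) :
    fa g Q y w f a = ∑ n ∈ (Icc 1 ⌊Q⌋₊).filter (fun n => n ≡ a [MOD f]),
      if n.Prime then (Λ n * wt g Q n) *
        ∏ q ∈ sp y w, (1 - ind (fun q n => n ≡ 1 [MOD q]) n q) else 0 := by
  classical
  unfold fa
  have e1 : ∀ n ∈ (Icc 1 ⌊Q⌋₊).filter (fun n => n ≡ a [MOD f]),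
      (if n.Prime then (Λ n * wt g Q n) *
        ∏ q ∈ sp y w, (1 - ind (fun q n => n ≡ 1 [MOD q]) n q) else 0) =
      if n ∈ semi Q y w then sw g Q n else 0 := by
    intro n hn
    have hn1 := Finset.mem_Icc.1 (Finset.mem_filter.1 hn).1
    by_cases hp : n.Prime
    · rw [if_pos hp, prod_one_sub_ind]
      have h2 : (∀ q ∈ sp y w, ¬ n ≡ 1 [MOD q]) ↔ n ∈ semi Q y w := by
        rw [mem_semi]
        have h3 : ∀ q : ℕ, n ≡ 1 [MOD q] ↔ q ∣ n - 1 := by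
          intro q
          rw [Nat.ModEq.comm, Nat.modEq_iff_dvd' hn1.1]
        constructor
        · intro h
          refine ⟨hn1, hp, fun q hq hyq hqw hd => ?_⟩
          exact h q ((mem_sp hy hw).2 ⟨hq, hyq, hqw⟩) ((h3 q).2 hd)
        · intro h q hq hc
          obtain ⟨hq1, hq2, hq3⟩ := (mem_sp hy hw).1 hq
          exact h.2.2 q hq1 hq2 hq3 ((h3 q).1 hc)
      by_cases h : n ∈ semi Q y w
      · rw [if_pos h, if_pos (h2.2 h), mul_one, ArithmeticFunction.vonMangoldt_apply_prime hp]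
        rfl
      · rw [if_neg h, if_neg (fun h' => h (h2.1 h')), mul_zero]
    · rw [if_neg hp, if_neg (fun h => hp (mem_semi.1 h).2.1)]
  rw [Finset.sum_congr rfl e1, ← Finset.sum_filter]
  refine Finset.sum_congr ?_ fun _ _ => rfl
  ext n
  simp only [Finset.mem_filter]
  constructor
  · rintro ⟨h1, h2⟩
    exact ⟨⟨Finset.mem_Icc.2 (mem_semi.1 h1).1, h2⟩, h1⟩
  · rintro ⟨⟨_, h2⟩, h3⟩
    exact ⟨h3, h2⟩

/-- The pure sieve for the semi-nice primes. -/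
theorem core2 (hBV : BVav) (hMass : Mass) (g : ℝ → ℝ) (hg : IsWt g) (hgn : ∃ v, g v ≠ 0)
    (κ κ₂ A C₁ : ℝ) (hκ : 0 < κ) (hκ₂ : κ < κ₂) (h2 : κ₂ < 1) (hA : 0 < A) (hC₁ : 0 < C₁) :
    ∃ C X0 : ℝ, 0 < C ∧ 3 ≤ X0 ∧ ∀ Q : ℝ, X0 ≤ Q → ∀ f : ℕ, 1 ≤ f →
      (f : ℝ) ≤ Real.log Q ^ C₁ → (∀ q : ℕ, q.Prime → q ∣ f → (q : ℝ) ≤ yy κ Q) →
      ∀ a : ℕ, a.Coprime f →
      |fa g Q (yy κ Q) (ww κ₂ Q) f a - (SL g Q / f.totient) *
          ∏ q ∈ sp (yy κ Q) (ww κ₂ Q), (1 - (1 : ℝ) / ((q : ℝ) - 1))| ≤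
        C / Real.log Q ^ A := by
  classical
  obtain ⟨C, X1, hC, hX1, hcore⟩ := core hBV hMass g hg hgn κ κ₂ A C₁ hκ hκ₂ h2 hA hC₁
  obtain ⟨Cn, hCn, hnp⟩ := nonprime_power hg
  obtain ⟨X2, hX2, hpw⟩ := power_ps A
  obtain ⟨X3, hX3, hll⟩ := loglog_large 1
  refine ⟨C + Cn, max X1 (max X2 X3), by positivity, hX1.trans (le_max_left _ _), ?_⟩
  intro Q hQ f hf hfle hfp a haf
  have hQ1 : X1 ≤ Q := (le_max_left _ _).trans hQ
  have hQ2 : X2 ≤ Q := (le_max_left _ _).trans ((le_max_right _ _).trans hQ)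
  have hQ3 : X3 ≤ Q := (le_max_right _ _).trans ((le_max_right _ _).trans hQ)
  obtain ⟨hll1, hl1⟩ := hll Q hQ3
  have hlog0 : 0 < Real.log Q := by linarith
  have hy0 : 0 ≤ yy κ Q := by unfold yy; positivity
  have hw0 : 0 ≤ ww κ₂ Q := (Real.exp_pos _).le
  have h1 := hcore Q hQ1 f hf hfle hfp a haf
  rw [fa_eq g Q _ _ hy0 hw0 f a]
  set P := sp (yy κ Q) (ww κ₂ Q) with hP
  set Ω := (Icc 1 ⌊Q⌋₊).filter (fun n => n ≡ a [MOD f]) with hΩ
  set T : ℕ → ℝ := fun n => (Λ n * wt g Q n) *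
    ∏ q ∈ P, (1 - ind (fun q n => n ≡ 1 [MOD q]) n q) with hT
  have hT0 : ∀ n, 0 ≤ T n := by
    intro n
    refine mul_nonneg (mul_nonneg ArithmeticFunction.vonMangoldt_nonneg (wt_nonneg hg Q n)) ?_
    exact Finset.prod_nonneg fun q _ => by linarith [(ind_mem (fun q n => n ≡ 1 [MOD q]) n q).2]
  have hT1 : ∀ n, T n ≤ Λ n * wt g Q n := by
    intro n
    refine mul_le_of_le_one_right
      (mul_nonneg ArithmeticFunction.vonMangoldt_nonneg (wt_nonneg hg Q n)) ?_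
    refine Finset.prod_le_one (fun q _ => ?_) (fun q _ => ?_)
    · linarith [(ind_mem (fun q n => n ≡ 1 [MOD q]) n q).2]
    · linarith [(ind_mem (fun q n => n ≡ 1 [MOD q]) n q).1]
  have h3 : ∑ n ∈ Ω, T n = ∑ n ∈ Ω, (if n.Prime then T n else 0) +
      ∑ n ∈ Ω.filter (fun n => ¬ n.Prime), T n := by
    have h3' := Finset.sum_filter_add_sum_filter_not Ω (fun n => n.Prime) T
    have h3'' : ∑ n ∈ Ω.filter (fun n => n.Prime), T n = ∑ n ∈ Ω, (if n.Prime then T n else 0) :=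
      Finset.sum_filter _ _
    rw [← h3', h3'']
  have h4 : ∑ n ∈ Ω.filter (fun n => ¬ n.Prime), T n ≤ Cn / Real.log Q ^ A := by
    calc ∑ n ∈ Ω.filter (fun n => ¬ n.Prime), T n
        ≤ ∑ n ∈ Ω.filter (fun n => ¬ n.Prime), Λ n * wt g Q n :=
          Finset.sum_le_sum fun n _ => hT1 n
      _ ≤ Cn * Q ^ (-(1 / 8) : ℝ) := hnp Q (hX1.trans hQ1) _ fun n hn => (Finset.mem_filter.1 hn).2
      _ ≤ Cn * (1 / Real.log Q ^ A) := mul_le_mul_of_nonneg_left (hpw Q hQ2) hCn.le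
      _ = _ := by ring
  have h5 : 0 ≤ ∑ n ∈ Ω.filter (fun n => ¬ n.Prime), T n := Finset.sum_nonneg fun n _ => hT0 n
  have h6 : |∑ n ∈ Ω, T n - (SL g Q / f.totient) *
      ∏ q ∈ P, (1 - (1 : ℝ) / ((q : ℝ) - 1))| ≤ C / Real.log Q ^ A := h1
  obtain ⟨h7, h8⟩ := abs_le.1 h6
  have h9 : (C + Cn) / Real.log Q ^ A = C / Real.log Q ^ A + Cn / Real.log Q ^ A := add_div _ _ _
  rw [h9, abs_le]
  have h10 : 0 ≤ Cn / Real.log Q ^ A := by positivity
  constructor <;> linarith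

theorem ps_of (hBV : BVav) (hMass : Mass) : PS := by
  intro g hg κ κ₂ A C₁ hκ hκ₂ h2 hA hC₁
  by_cases hgn : ∃ v, g v ≠ 0
  · obtain ⟨C, X1, hC, hX1, hcore⟩ := core2 hBV hMass g hg hgn κ κ₂ A C₁ hκ hκ₂ h2 hA hC₁
    obtain ⟨X3, hX3, hll⟩ := loglog_large 1
    refine ⟨2 * C, max X1 X3, by positivity, hX1.trans (le_max_left _ _), ?_⟩
    intro Q hQ f hf hfle hfp a haf
    have hQ1 : X1 ≤ Q := (le_max_left _ _).trans hQ
    obtain ⟨hll1, hl1⟩ := hll Q ((le_max_right _ _).trans hQ)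
    have hlog0 : 0 < Real.log Q := by linarith
    have h1 := hcore Q hQ1 f hf hfle hfp a haf
    have h3 := hcore Q hQ1 1 le_rfl (by
      rw [Nat.cast_one]
      exact Real.one_le_rpow hl1 hC₁.le) (fun q hq hd => absurd hd (by
        rw [Nat.dvd_one]; exact hq.ne_one)) 0 (by simp)
    have e1 : fa g Q (yy κ Q) (ww κ₂ Q) 1 0 = F0 g Q (yy κ Q) (ww κ₂ Q) := by
      unfold fa F0
      rw [Finset.filter_true_of_mem]
      intro l _
      exact Nat.modEq_one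
    rw [e1, Nat.totient_one, Nat.cast_one, div_one] at h3
    have hφ : (1 : ℝ) ≤ f.totient := by exact_mod_cast Nat.totient_pos.2 hf
    have hφ0 : (0 : ℝ) < f.totient := by linarith
    set V := ∏ q ∈ sp (yy κ Q) (ww κ₂ Q), (1 - (1 : ℝ) / ((q : ℝ) - 1)) with hV
    have h4 : |F0 g Q (yy κ Q) (ww κ₂ Q) / f.totient - SL g Q / f.totient * V| ≤
        C / Real.log Q ^ A := by
      have e2 : F0 g Q (yy κ Q) (ww κ₂ Q) / f.totient - SL g Q / f.totient * V =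
          (F0 g Q (yy κ Q) (ww κ₂ Q) - SL g Q * V) / f.totient := by ring
      rw [e2, abs_div, abs_of_pos hφ0]
      exact (div_le_self (abs_nonneg _) hφ).trans h3
    have e3 : 2 * C / Real.log Q ^ A = C / Real.log Q ^ A + C / Real.log Q ^ A := by ring
    rw [e3]
    have h5 := abs_sub_le (fa g Q (yy κ Q) (ww κ₂ Q) f a) (SL g Q / f.totient * V)
      (F0 g Q (yy κ Q) (ww κ₂ Q) / f.totient)
    rw [abs_sub_comm (SL g Q / f.totient * V)] at h5
    linarith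
  · push Not at hgn
    refine ⟨1, 3, one_pos, le_rfl, ?_⟩
    intro Q hQ f _ _ _ a _
    have e0 : ∀ l, sw g Q l = 0 := by
      intro l
      unfold sw wt
      rw [hgn, zero_div, mul_zero]
    have e1 : fa g Q (yy κ Q) (ww κ₂ Q) f a = 0 := by
      unfold fa
      exact Finset.sum_eq_zero fun l _ => e0 l
    have e2 : F0 g Q (yy κ Q) (ww κ₂ Q) = 0 := by
      unfold F0
      exact Finset.sum_eq_zero fun l _ => e0 l
    have hlog0 : 0 < Real.log Q := Real.log_pos (by linarith)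
    rw [e1, e2, zero_div, sub_zero, abs_zero]
    positivity

theorem lb_of (hBV : BVav) (hMass : Mass) : LB := by
  intro g hg hgn κ κ₂ hκ hκ₂ h2
  obtain ⟨C, X1, hC, hX1, hcore⟩ := core2 hBV hMass g hg hgn κ κ₂ 1 1 hκ hκ₂ h2 one_pos one_pos
  obtain ⟨cm, Cm, X2, hcm, hCm, hX2, hmass⟩ := hMass g hg hgn
  obtain ⟨c, X3, hc, hX3, hprod⟩ := sp_prod κ κ₂ hκ hκ₂
  have h1c : 0 < 1 - κ₂ := by linarith
  have hev : ∀ᶠ u : ℝ in atTop, 2 * C / (cm * c) ≤ Real.log u ∧ 1 ≤ Real.log u ∧ 1 ≤ u :=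
    (Real.tendsto_log_atTop.eventually_ge_atTop _).and
      ((Real.tendsto_log_atTop.eventually_ge_atTop _).and (eventually_ge_atTop 1))
  obtain ⟨X4, hX4⟩ := (Real.tendsto_log_atTop.eventually hev).exists_forall_of_atTop
  refine ⟨cm * c / 2, max (max X1 X2) (max X3 X4), by positivity,
    hX1.trans ((le_max_left _ _).trans (le_max_left _ _)), ?_⟩
  intro Q hQ
  have hQ1 : X1 ≤ Q := (le_max_left _ _).trans ((le_max_left _ _).trans hQ)
  have hQ2 : X2 ≤ Q := (le_max_right _ _).trans ((le_max_left _ _).trans hQ)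
  have hQ3 : X3 ≤ Q := (le_max_left _ _).trans ((le_max_right _ _).trans hQ)
  have hQ4 : X4 ≤ Q := (le_max_right _ _).trans ((le_max_right _ _).trans hQ)
  obtain ⟨hl0, hl2, hl1⟩ := hX4 Q hQ4
  have hlog0 : 0 < Real.log Q := by linarith
  have h3 := hcore Q hQ1 1 le_rfl (by
    rw [Nat.cast_one]
    exact Real.one_le_rpow hl1 zero_le_one) (fun q hq hd => absurd hd (by
      rw [Nat.dvd_one]; exact hq.ne_one)) 0 (by simp)
  have e1 : fa g Q (yy κ Q) (ww κ₂ Q) 1 0 = F0 g Q (yy κ Q) (ww κ₂ Q) := by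
    unfold fa F0
    rw [Finset.filter_true_of_mem]
    intro l _
    exact Nat.modEq_one
  rw [e1, Nat.totient_one, Nat.cast_one, div_one, Real.rpow_one] at h3
  have h4 := (hmass Q hQ2).1
  have h5 := hprod Q hQ3
  set V := ∏ q ∈ sp (yy κ Q) (ww κ₂ Q), (1 - (1 : ℝ) / ((q : ℝ) - 1)) with hV
  have h6 : cm * c * (Real.log Q ^ (1 - κ₂) * Real.log (Real.log Q)) ≤ SL g Q * V := by
    calc cm * c * (Real.log Q ^ (1 - κ₂) * Real.log (Real.log Q)) =
          (cm * Real.log Q) * (c * (Real.log Q ^ (-κ₂) * Real.log (Real.log Q))) := by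
          rw [show (1 : ℝ) - κ₂ = 1 + -κ₂ by ring, Real.rpow_add hlog0, Real.rpow_one]
          ring
      _ ≤ SL g Q * V := by
          refine mul_le_mul h4 h5 ?_ (le_trans (by positivity) h4)
          have : 0 < Real.log (Real.log Q) := by linarith
          positivity
  have h7 : C / Real.log Q ≤ cm * c / 2 * (Real.log Q ^ (1 - κ₂) * Real.log (Real.log Q)) := by
    have a1 : 1 ≤ Real.log Q ^ (1 - κ₂) := Real.one_le_rpow hl1 h1c.le
    have a2 : C ≤ cm * c / 2 * Real.log (Real.log Q) := by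
      rw [div_le_iff₀ (by positivity)] at hl0
      linarith
    calc C / Real.log Q ≤ C := div_le_self hC.le hl1
      _ ≤ cm * c / 2 * (1 * Real.log (Real.log Q)) := by rw [one_mul]; exact a2
      _ ≤ _ := by
        refine mul_le_mul_of_nonneg_left ?_ (by positivity)
        exact mul_le_mul_of_nonneg_right a1 (by linarith)
  have h8 := (abs_le.1 h3).1
  linarith

theorem pureSieve : PS := ps_of bv Pool.Agent.Helper44.BV.mass

theorem lb : LB := lb_of bv Pool.Agent.Helper44.BV.mass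

end Pool.Agent.Helper61.CA
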