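import Pool.Agent.Helper44.BrunHooley

/-!
# The pure sieve of Brun with weights
-/

set_option autoImplicit false

open Finset

namespace Pool.Agent.Helper61.CA

open Pool.Agent.Helper44

theorem pure_abs {α : Type*} (Ω : Finset α) (W : α → ℝ) (hW : ∀ ω ∈ Ω, 0 ≤ W ω)
    (occ : ℕ → α → Prop) (P : Finset ℕ) (x : ℕ → ℝ) (hx : ∀ q ∈ P, 0 ≤ x q ∧ x q ≤ 1) (X : ℝ)
    (hX : 0 ≤ X) (r : Finset ℕ → ℝ) (m : ℕ) (hm : Even m)
    (hA : ∀ I ∈ P.powerset, I.card ≤ m + 1 →
      |∑ ω ∈ Ω, W ω * ∏ q ∈ I, ind occ ω q - X * ∏ q ∈ I, x q| ≤ r I) :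
    |∑ ω ∈ Ω, W ω * ∏ q ∈ P, (1 - ind occ ω q) - X * ∏ q ∈ P, (1 - x q)| ≤
      2 * X * es P (m + 1) x + ∑ I ∈ P.powerset.filter (fun I => I.card ≤ m + 1), r I := by
  have hind : ∀ ω, ∀ q ∈ P, 0 ≤ ind occ ω q ∧ ind occ ω q ≤ 1 := fun ω q _ => ind_mem occ ω q
  -- the truncated sum
  have hT1 : ∑ ω ∈ Ω, W ω * ∏ q ∈ P, (1 - ind occ ω q) ≤ ∑ ω ∈ Ω, W ω * tr P m (ind occ ω) :=
    Finset.sum_le_sum fun ω hω =>
      mul_le_mul_of_nonneg_left (prod_le_tr_even P _ (hind ω) m hm) (hW ω hω)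
  have hT2 : ∑ ω ∈ Ω, W ω * tr P m (ind occ ω) ≤
      ∑ ω ∈ Ω, W ω * ∏ q ∈ P, (1 - ind occ ω q) + ∑ ω ∈ Ω, W ω * es P (m + 1) (ind occ ω) := by
    rw [← Finset.sum_add_distrib]
    refine Finset.sum_le_sum fun ω hω => ?_
    rw [← mul_add]
    exact mul_le_mul_of_nonneg_left (tr_even_le P _ (hind ω) m hm) (hW ω hω)
  have hT3 : |∑ ω ∈ Ω, W ω * tr P m (ind occ ω) - X * tr P m x| ≤
      ∑ I ∈ P.powerset.filter (fun I => I.card ≤ m), r I := by
    have e1 : ∑ ω ∈ Ω, W ω * tr P m (ind occ ω) =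
        ∑ I ∈ P.powerset.filter (fun I => I.card ≤ m),
          (-1 : ℝ) ^ I.card * ∑ ω ∈ Ω, W ω * ∏ q ∈ I, ind occ ω q := by
      have : ∀ ω, W ω * tr P m (ind occ ω) =
          ∑ I ∈ P.powerset.filter (fun I => I.card ≤ m),
            (-1 : ℝ) ^ I.card * (W ω * ∏ q ∈ I, ind occ ω q) := by
        intro ω
        rw [tr_eq_sum_filter, Finset.mul_sum]
        exact Finset.sum_congr rfl fun I _ => by ring
      rw [Finset.sum_congr rfl fun ω _ => this ω, Finset.sum_comm]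
      exact Finset.sum_congr rfl fun I _ => by rw [Finset.mul_sum]
    have e2 : X * tr P m x = ∑ I ∈ P.powerset.filter (fun I => I.card ≤ m),
        (-1 : ℝ) ^ I.card * (X * ∏ q ∈ I, x q) := by
      rw [tr_eq_sum_filter, Finset.mul_sum]
      exact Finset.sum_congr rfl fun I _ => by ring
    rw [e1, e2, ← Finset.sum_sub_distrib]
    refine (Finset.abs_sum_le_sum_abs _ _).trans (Finset.sum_le_sum fun I hI => ?_)
    rw [← mul_sub, abs_mul, abs_pow, abs_neg, abs_one, one_pow, one_mul]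
    have hI' := Finset.mem_filter.1 hI
    exact hA I hI'.1 (by omega)
  have hT4 : ∑ ω ∈ Ω, W ω * es P (m + 1) (ind occ ω) ≤ X * es P (m + 1) x +
      ∑ I ∈ P.powerset.filter (fun I => I.card = m + 1), r I := by
    have e1 : ∑ ω ∈ Ω, W ω * es P (m + 1) (ind occ ω) =
        ∑ I ∈ P.powerset.filter (fun I => I.card = m + 1),
          ∑ ω ∈ Ω, W ω * ∏ q ∈ I, ind occ ω q := by
      have : ∀ ω, W ω * es P (m + 1) (ind occ ω) =
          ∑ I ∈ P.powerset.filter (fun I => I.card = m + 1), W ω * ∏ q ∈ I, ind occ ω q := by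
        intro ω
        rw [es_eq_sum_filter, Finset.mul_sum]
        exact Finset.sum_congr rfl fun I _ => by ring
      rw [Finset.sum_congr rfl fun ω _ => this ω, Finset.sum_comm]
    have e2 : X * es P (m + 1) x = ∑ I ∈ P.powerset.filter (fun I => I.card = m + 1),
        X * ∏ q ∈ I, x q := by
      rw [es_eq_sum_filter, Finset.mul_sum]
      exact Finset.sum_congr rfl fun I _ => by ring
    rw [e1, e2, ← Finset.sum_add_distrib]
    refine Finset.sum_le_sum fun I hI => ?_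
    have hI' := Finset.mem_filter.1 hI
    have := (abs_le.1 (hA I hI'.1 (by omega))).2
    linarith
  have h5 := prod_le_tr_even P x hx m hm
  have h6 := tr_even_le P x hx m hm
  have h7 : ∑ I ∈ P.powerset.filter (fun I => I.card ≤ m + 1), r I =
      ∑ I ∈ P.powerset.filter (fun I => I.card ≤ m), r I +
      ∑ I ∈ P.powerset.filter (fun I => I.card = m + 1), r I := by
    rw [Finset.sum_filter, Finset.sum_filter, Finset.sum_filter, ← Finset.sum_add_distrib]
    refine Finset.sum_congr rfl fun I _ => ?_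
    rcases lt_trichotomy I.card (m + 1) with h | h | h
    · rw [if_pos (by omega), if_pos (by omega), if_neg (by omega), add_zero]
    · rw [if_pos (by omega), if_neg (by omega), if_pos h, zero_add]
    · rw [if_neg (by omega), if_neg (by omega), if_neg (by omega), add_zero]
  have h8 : 0 ≤ ∑ I ∈ P.powerset.filter (fun I => I.card = m + 1), r I := by
    refine Finset.sum_nonneg fun I hI => ?_
    have hI' := Finset.mem_filter.1 hI
    exact (abs_nonneg _).trans (hA I hI'.1 (by omega))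
  have h9 := mul_le_mul_of_nonneg_left h5 hX
  have h10 := mul_le_mul_of_nonneg_left h6 hX
  have h11 : 0 ≤ X * es P (m + 1) x := mul_nonneg hX (es_nonneg P _ x fun q hq => (hx q hq).1)
  obtain ⟨h12, h13⟩ := abs_le.1 hT3
  rw [h7, abs_le]
  constructor
  · nlinarith
  · nlinarith

/-- The elementary symmetric functions are small. -/
theorem es_le_exp (P : Finset ℕ) (x : ℕ → ℝ) (hx : ∀ q ∈ P, 0 ≤ x q) (n : ℕ) :
    es P n x ≤ Real.exp (Real.exp 1 * ∑ q ∈ P, x q - n) := by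
  have h1 := es_le_pow_div_factorial P x hx n
  have h0 : 0 ≤ ∑ q ∈ P, x q := Finset.sum_nonneg hx
  have h2 := Real.pow_div_factorial_le_exp (x := Real.exp 1 * ∑ q ∈ P, x q)
    (mul_nonneg (Real.exp_pos 1).le h0) n
  rw [mul_pow, mul_div_assoc] at h2
  have h3 : Real.exp 1 ^ n = Real.exp n := by
    rw [← Real.exp_nat_mul, mul_one]
  rw [h3] at h2
  rw [Real.exp_sub, le_div_iff₀ (Real.exp_pos _), mul_comm]
  exact (mul_le_mul_of_nonneg_left h1 (Real.exp_pos _).le).trans h2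

end Pool.Agent.Helper61.CA
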