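import Pool.Agent.Helper61.CA.St
import Pool.Agent.Helper61.CA.Pure
import Pool.Agent.Helper61.CA.NonPrime
import Pool.Agent.Helper44.MertensProd
import Pool.Agent.Helper18.BV.SpecialPrimes

/-!
# CA, step 2: the sifting primes
-/

set_option autoImplicit false

open Finset Filter Topology
open scoped ArithmeticFunction.vonMangoldt

namespace Pool.Agent.Helper61.CA

open Pool.Agent.Helper18.BV Pool.Agent.Helper44

/-- The sifting primes. -/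
noncomputable def sp (y w : ℝ) : Finset ℕ := (Ioc ⌊y⌋₊ ⌊w⌋₊).filter Nat.Prime

theorem mem_sp {y w : ℝ} (hy : 0 ≤ y) (hw : 0 ≤ w) {q : ℕ} :
    q ∈ sp y w ↔ q.Prime ∧ y < q ∧ (q : ℝ) ≤ w := by
  unfold sp
  rw [Finset.mem_filter, Finset.mem_Ioc, Nat.floor_lt hy, Nat.le_floor_iff hw]
  tauto

theorem yy_large {κ : ℝ} (hκ : 0 < κ) (K : ℝ) : ∃ X0 : ℝ, 3 ≤ X0 ∧ ∀ Q : ℝ, X0 ≤ Q →
    K ≤ yy κ Q := by
  have h1 : ∀ᶠ u : ℝ in atTop, K ≤ u ^ κ := (tendsto_rpow_atTop hκ).eventually_ge_atTop K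
  have h2 := Real.tendsto_log_atTop.eventually h1
  obtain ⟨X, hX⟩ := h2.exists_forall_of_atTop
  exact ⟨max X 3, le_max_right _ _, fun Q hQ => hX Q ((le_max_left _ _).trans hQ)⟩

theorem loglog_large (K : ℝ) : ∃ X0 : ℝ, 3 ≤ X0 ∧ ∀ Q : ℝ, X0 ≤ Q →
    K ≤ Real.log (Real.log Q) ∧ K ≤ Real.log Q := by
  have h1 : ∀ᶠ u : ℝ in atTop, K ≤ Real.log u ∧ K ≤ u :=
    (Real.tendsto_log_atTop.eventually_ge_atTop K).and (eventually_ge_atTop K)
  have h2 := Real.tendsto_log_atTop.eventually h1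
  obtain ⟨X, hX⟩ := h2.exists_forall_of_atTop
  exact ⟨max X 3, le_max_right _ _, fun Q hQ => hX Q ((le_max_left _ _).trans hQ)⟩

/-- Mertens for the sifting primes. -/
theorem sp_mertens (κ κ₂ : ℝ) (hκ : 0 < κ) (hκ₂ : κ < κ₂) :
    ∃ C X0 : ℝ, 0 < C ∧ 3 ≤ X0 ∧ ∀ Q : ℝ, X0 ≤ Q → 4 ≤ yy κ Q ∧ yy κ Q ≤ ww κ₂ Q ∧
      |∑ q ∈ sp (yy κ Q) (ww κ₂ Q), (1 : ℝ) / q -
        (κ₂ * Real.log (Real.log Q) - Real.log (κ * Real.log (Real.log Q)))| ≤ C := by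
  obtain ⟨C, hC, hM⟩ := mertens_interval
  obtain ⟨X1, hX1, h1⟩ := yy_large hκ 4
  obtain ⟨X2, hX2, h2⟩ := loglog_large 1
  refine ⟨C, max X1 X2, hC, hX1.trans (le_max_left _ _), ?_⟩
  intro Q hQ
  have hy4 := h1 Q ((le_max_left _ _).trans hQ)
  obtain ⟨hll, hl⟩ := h2 Q ((le_max_right _ _).trans hQ)
  have hlogy : Real.log (yy κ Q) = κ * Real.log (Real.log Q) := by
    unfold yy
    rw [Real.log_rpow (by linarith)]
  have hlogw : Real.log (ww κ₂ Q) = Real.log Q ^ κ₂ := by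
    unfold ww
    rw [Real.log_exp]
  have hyw : yy κ Q ≤ ww κ₂ Q := by
    unfold ww
    have a1 : yy κ Q ≤ Real.log Q ^ κ₂ := Real.rpow_le_rpow_of_exponent_le hl hκ₂.le
    have a2 := Real.add_one_le_exp (Real.log Q ^ κ₂)
    linarith
  refine ⟨hy4, hyw, ?_⟩
  have h3 := hM (yy κ Q) (ww κ₂ Q) (by linarith) hyw
  rw [hlogy, hlogw] at h3
  have hll0 : 0 < Real.log (Real.log Q) := by linarith
  have hk0 : 0 < κ * Real.log (Real.log Q) := by positivity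
  rw [Real.log_div (by positivity) hk0.ne', Real.log_rpow (by linarith)] at h3
  have h4 : C / (κ * Real.log (Real.log Q)) ≤ C := by
    have h5 : 1 ≤ Real.log (yy κ Q) := by
      rw [Real.le_log_iff_exp_le (by linarith)]
      have := Real.exp_one_lt_d9
      linarith
    rw [hlogy] at h5
    exact div_le_self hC.le h5
  exact h3.trans h4

theorem sp_sum (κ κ₂ : ℝ) (hκ : 0 < κ) (hκ₂ : κ < κ₂) (h2 : κ₂ < 1) :
    ∃ X0 : ℝ, 3 ≤ X0 ∧ ∀ Q : ℝ, X0 ≤ Q →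
      ∑ q ∈ sp (yy κ Q) (ww κ₂ Q), (1 : ℝ) / ((q : ℝ) - 1) ≤ 3 * Real.log (Real.log Q) := by
  obtain ⟨C, X1, hC, hX1, hM⟩ := sp_mertens κ κ₂ hκ hκ₂
  obtain ⟨X2, hX2, hl⟩ := loglog_large (2 * C + 1 / κ + 1)
  refine ⟨max X1 X2, hX1.trans (le_max_left _ _), ?_⟩
  intro Q hQ
  obtain ⟨hy4, hyw, h3⟩ := hM Q ((le_max_left _ _).trans hQ)
  obtain ⟨hll, hl1⟩ := hl Q ((le_max_right _ _).trans hQ)
  have hκi : 0 < 1 / κ := by positivity
  have hll0 : 0 < Real.log (Real.log Q) := by linarith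
  have h4 : 0 ≤ Real.log (κ * Real.log (Real.log Q)) := by
    refine Real.log_nonneg ?_
    have : κ * (1 / κ) ≤ κ * Real.log (Real.log Q) :=
      mul_le_mul_of_nonneg_left (by linarith) hκ.le
    rwa [mul_one_div_cancel hκ.ne'] at this
  have h5 : ∑ q ∈ sp (yy κ Q) (ww κ₂ Q), (1 : ℝ) / ((q : ℝ) - 1) ≤
      2 * ∑ q ∈ sp (yy κ Q) (ww κ₂ Q), (1 : ℝ) / q := by
    rw [Finset.mul_sum]
    refine Finset.sum_le_sum fun q hq => ?_
    have hq' := (mem_sp (by linarith) (by linarith)).1 hq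
    have hq2 : (2 : ℝ) ≤ q := by exact_mod_cast hq'.1.two_le
    rw [mul_one_div, div_le_div_iff₀ (by linarith) (by linarith)]
    linarith
  have h6 := (abs_le.1 h3).2
  have h7 : κ₂ * Real.log (Real.log Q) ≤ Real.log (Real.log Q) := by nlinarith
  have h8 : (2 * C + 1 / κ + 1) ≤ Real.log (Real.log Q) := hll
  nlinarith

theorem sp_prod (κ κ₂ : ℝ) (hκ : 0 < κ) (hκ₂ : κ < κ₂) :
    ∃ c X0 : ℝ, 0 < c ∧ 3 ≤ X0 ∧ ∀ Q : ℝ, X0 ≤ Q →
      c * (Real.log Q ^ (-κ₂) * Real.log (Real.log Q)) ≤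
        ∏ q ∈ sp (yy κ Q) (ww κ₂ Q), (1 - (1 : ℝ) / ((q : ℝ) - 1)) := by
  obtain ⟨C, X1, hC, hX1, hM⟩ := sp_mertens κ κ₂ hκ hκ₂
  obtain ⟨X2, hX2, hl⟩ := loglog_large 1
  obtain ⟨C2, hC2, hS⟩ := sum_inv_sq_le
  refine ⟨κ * Real.exp (-(C + 8 * C2)), max X1 X2, by positivity, hX1.trans (le_max_left _ _), ?_⟩
  intro Q hQ
  obtain ⟨hy4, hyw, h3⟩ := hM Q ((le_max_left _ _).trans hQ)
  obtain ⟨hll, hl1⟩ := hl Q ((le_max_right _ _).trans hQ)
  have hll0 : 0 < Real.log (Real.log Q) := by linarith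
  have h4 : ∀ q ∈ sp (yy κ Q) (ww κ₂ Q),
      Real.exp (-((1 : ℝ) / q + 8 * ((1 : ℝ) / q) ^ 2)) ≤ 1 - (1 : ℝ) / ((q : ℝ) - 1) := by
    intro q hq
    have hq' := (mem_sp (by linarith) (by linarith)).1 hq
    have hq4 : (4 : ℝ) < q := by linarith [hq'.2.1]
    have e1 : 1 - (1 : ℝ) / ((q : ℝ) - 1) = (1 + 1 / ((q : ℝ) - 2))⁻¹ := by
      have a1 : (q : ℝ) - 1 ≠ 0 := by linarith
      have a2 : (q : ℝ) - 2 ≠ 0 := by linarith
      have a3 : 1 + 1 / ((q : ℝ) - 2) = ((q : ℝ) - 1) / ((q : ℝ) - 2) := by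
        field_simp; ring
      rw [a3, inv_div]
      field_simp
      ring
    rw [e1, Real.exp_neg]
    have hpos : 0 < 1 + 1 / ((q : ℝ) - 2) := by
      have : 0 < 1 / ((q : ℝ) - 2) := by
        apply one_div_pos.2; linarith
      linarith
    refine inv_anti₀ hpos ?_
    have e2 : 1 / ((q : ℝ) - 2) ≤ (1 : ℝ) / q + 8 * ((1 : ℝ) / q) ^ 2 := by
      have hq0 : (0 : ℝ) < q := by linarith
      rw [div_le_iff₀ (by linarith)]
      have e3 : ((1 : ℝ) / q + 8 * ((1 : ℝ) / q) ^ 2) * ((q : ℝ) - 2) =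
          1 + (6 * q - 16) / (q : ℝ) ^ 2 := by
        field_simp; ring
      rw [e3]
      have : 0 ≤ (6 * (q : ℝ) - 16) / (q : ℝ) ^ 2 := by
        apply div_nonneg _ (by positivity)
        linarith
      linarith
    have e4 := Real.add_one_le_exp ((1 : ℝ) / q + 8 * ((1 : ℝ) / q) ^ 2)
    linarith
  have h5 : Real.exp (-(∑ q ∈ sp (yy κ Q) (ww κ₂ Q), ((1 : ℝ) / q + 8 * ((1 : ℝ) / q) ^ 2))) ≤
      ∏ q ∈ sp (yy κ Q) (ww κ₂ Q), (1 - (1 : ℝ) / ((q : ℝ) - 1)) := by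
    rw [← Finset.sum_neg_distrib, Real.exp_sum]
    exact Finset.prod_le_prod (fun q _ => (Real.exp_pos _).le) h4
  refine le_trans ?_ h5
  rw [Finset.sum_add_distrib, ← Finset.mul_sum]
  have h6 := (abs_le.1 h3).2
  have h7 := hS (sp (yy κ Q) (ww κ₂ Q))
  have h8 : κ * Real.exp (-(C + 8 * C2)) * (Real.log Q ^ (-κ₂) * Real.log (Real.log Q)) =
      Real.exp (-(κ₂ * Real.log (Real.log Q) - Real.log (κ * Real.log (Real.log Q)) + C +
        8 * C2)) := by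
    have hk0 : 0 < κ * Real.log (Real.log Q) := by positivity
    have e1 : -(κ₂ * Real.log (Real.log Q) - Real.log (κ * Real.log (Real.log Q)) + C + 8 * C2) =
        Real.log (κ * Real.log (Real.log Q)) + (-κ₂ * Real.log (Real.log Q)) + (-(C + 8 * C2)) := by
      ring
    rw [e1, Real.exp_add, Real.exp_add, Real.exp_log hk0]
    have e2 : Real.log Q ^ (-κ₂) = Real.exp (-κ₂ * Real.log (Real.log Q)) := by
      rw [Real.rpow_def_of_pos (by linarith), mul_comm]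
    rw [e2]
    ring
  rw [h8]
  apply Real.exp_le_exp.2
  linarith

end Pool.Agent.Helper61.CA
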