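import Pool.Agent.Helper61.CA.PSa

/-!
# CA, step 2: the pure sieve applied to primes in a residue class
-/

set_option autoImplicit false

open Finset Filter Topology
open scoped ArithmeticFunction.vonMangoldt

namespace Pool.Agent.Helper61.CA

open Pool.Agent.Helper18.BV Pool.Agent.Helper44

/-- The total mass of the von Mangoldt function. -/
noncomputable def SL (g : ℝ → ℝ) (Q : ℝ) : ℝ := ∑ n ∈ Icc 1 ⌊Q⌋₊, Λ n * wt g Q n

/-- the number of steps -/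
noncomputable def mm (A Q : ℝ) : ℕ := 2 * ⌈(5 + A) * Real.log (Real.log Q)⌉₊

theorem mm_bounds {A Q : ℝ} (hA : 0 < A) (h : 0 ≤ Real.log (Real.log Q)) :
    (10 + 2 * A) * Real.log (Real.log Q) ≤ mm A Q ∧
      (mm A Q : ℝ) ≤ (10 + 2 * A) * Real.log (Real.log Q) + 2 := by
  have h0 : 0 ≤ (5 + A) * Real.log (Real.log Q) := by positivity
  have h1 := Nat.le_ceil ((5 + A) * Real.log (Real.log Q))
  have h2 := Nat.ceil_lt_add_one h0
  unfold mm
  push_cast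
  constructor <;> linarith

/-- growth -/
theorem growth_ps (κ₂ A C₁ : ℝ) (h2 : κ₂ < 1) :
    ∃ X0 : ℝ, 3 ≤ X0 ∧ ∀ Q : ℝ, X0 ≤ Q →
      C₁ * Real.log (Real.log Q) + ((10 + 2 * A) * Real.log (Real.log Q) + 3) *
        Real.log Q ^ κ₂ ≤ Real.log Q / 40 := by
  have h1 : ∀ᶠ u : ℝ in atTop, C₁ * Real.log u + ((10 + 2 * A) * Real.log u + 3) * u ^ κ₂ ≤
      u / 40 := by
    have t1 : Tendsto (fun u : ℝ => C₁ * (Real.log u / u ^ (1 : ℝ)) +
        ((10 + 2 * A) * (Real.log u / u ^ (1 - κ₂)) + 3 * u ^ (-(1 - κ₂)))) atTop (𝓝 (C₁ * 0 +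
          ((10 + 2 * A) * 0 + 3 * 0))) := by
      refine Tendsto.add (Tendsto.const_mul _ ?_) (Tendsto.add (Tendsto.const_mul _ ?_)
        (Tendsto.const_mul _ ?_))
      · exact (isLittleO_log_rpow_atTop (by norm_num : (0 : ℝ) < 1)).tendsto_div_nhds_zero
      · exact (isLittleO_log_rpow_atTop (by linarith : (0 : ℝ) < 1 - κ₂)).tendsto_div_nhds_zero
      · exact tendsto_rpow_neg_atTop (by linarith)
    have e0 : C₁ * 0 + ((10 + 2 * A) * 0 + 3 * 0) = 0 := by ring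
    rw [e0] at t1
    filter_upwards [t1.eventually_le_const (show (0 : ℝ) < 1 / 40 by norm_num),
      eventually_gt_atTop 0] with u hu hu0
    have e1 : C₁ * Real.log u + ((10 + 2 * A) * Real.log u + 3) * u ^ κ₂ =
        u * (C₁ * (Real.log u / u ^ (1 : ℝ)) + ((10 + 2 * A) * (Real.log u / u ^ (1 - κ₂)) +
          3 * u ^ (-(1 - κ₂)))) := by
      have e2 : u ^ κ₂ = u / u ^ (1 - κ₂) := by
        rw [eq_div_iff (by positivity), ← Real.rpow_add hu0]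
        norm_num
      have e3 : u ^ (-(1 - κ₂)) = 1 / u ^ (1 - κ₂) := by
        rw [Real.rpow_neg hu0.le, one_div]
      rw [e2, e3, Real.rpow_one]
      field_simp
    rw [e1]
    calc u * _ ≤ u * (1 / 40) := mul_le_mul_of_nonneg_left hu hu0.le
      _ = u / 40 := by ring
  have h3 := Real.tendsto_log_atTop.eventually h1
  obtain ⟨X, hX⟩ := h3.exists_forall_of_atTop
  exact ⟨max X 3, le_max_right _ _, fun Q hQ => hX Q ((le_max_left _ _).trans hQ)⟩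

theorem primeFactors_prod_primes (I : Finset ℕ) (hI : ∀ q ∈ I, q.Prime) :
    (∏ q ∈ I, q).primeFactors = I := Nat.primeFactors_prod hI

theorem core (hBV : BVav) (hMass : Mass) (g : ℝ → ℝ) (hg : IsWt g) (hgn : ∃ v, g v ≠ 0)
    (κ κ₂ A C₁ : ℝ) (hκ : 0 < κ) (hκ₂ : κ < κ₂) (h2 : κ₂ < 1) (hA : 0 < A) (hC₁ : 0 < C₁) :
    ∃ C X0 : ℝ, 0 < C ∧ 3 ≤ X0 ∧ ∀ Q : ℝ, X0 ≤ Q → ∀ f : ℕ, 1 ≤ f →
      (f : ℝ) ≤ Real.log Q ^ C₁ → (∀ q : ℕ, q.Prime → q ∣ f → (q : ℝ) ≤ yy κ Q) →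
      ∀ a : ℕ, a.Coprime f →
      |∑ n ∈ (Icc 1 ⌊Q⌋₊).filter (fun n => n ≡ a [MOD f]), (Λ n * wt g Q n) *
          ∏ q ∈ sp (yy κ Q) (ww κ₂ Q), (1 - ind (fun q n => n ≡ 1 [MOD q]) n q) -
        (SL g Q / f.totient) * ∏ q ∈ sp (yy κ Q) (ww κ₂ Q), (1 - (1 : ℝ) / ((q : ℝ) - 1))| ≤
        C / Real.log Q ^ A := by
  classical
  obtain ⟨Cb, X1, hCb, hX1, hbv⟩ := hBV g hg A hA
  obtain ⟨cm, Cm, X2, hcm, hCm, hX2, hmass⟩ := hMass g hg hgn
  obtain ⟨X3, hX3, hsum⟩ := sp_sum κ κ₂ hκ hκ₂ h2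
  obtain ⟨X4, hX4, hgr⟩ := growth_ps κ₂ A C₁ h2
  obtain ⟨X5, hX5, hll⟩ := loglog_large 1
  obtain ⟨X6, hX6, hyl⟩ := yy_large hκ 4
  refine ⟨2 * Cm + Cb, max (max (max X1 X2) (max X3 X4)) (max X5 X6), by positivity,
    hX1.trans ((le_max_left _ _).trans ((le_max_left _ _).trans (le_max_left _ _))), ?_⟩
  intro Q hQ f hf hfle hfp a haf
  have hQ1 : X1 ≤ Q := (le_max_left X1 X2).trans ((le_max_left _ _).trans
    ((le_max_left _ _).trans hQ))
  have hQ2 : X2 ≤ Q := (le_max_right X1 X2).trans ((le_max_left _ _).trans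
    ((le_max_left _ _).trans hQ))
  have hQ3 : X3 ≤ Q := (le_max_left X3 X4).trans ((le_max_right _ _).trans
    ((le_max_left _ _).trans hQ))
  have hQ4 : X4 ≤ Q := (le_max_right X3 X4).trans ((le_max_right _ _).trans
    ((le_max_left _ _).trans hQ))
  have hQ5 : X5 ≤ Q := (le_max_left X5 X6).trans ((le_max_right _ _).trans hQ)
  have hQ6 : X6 ≤ Q := (le_max_right X5 X6).trans ((le_max_right _ _).trans hQ)
  have hQ0 : (3 : ℝ) ≤ Q := hX1.trans hQ1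
  obtain ⟨hll1, hl1⟩ := hll Q hQ5
  have hy4 := hyl Q hQ6
  have hlog0 : 0 < Real.log Q := by linarith
  have hw0 : 0 < ww κ₂ Q := Real.exp_pos _
  have hmem : ∀ q, q ∈ sp (yy κ Q) (ww κ₂ Q) → q.Prime ∧ yy κ Q < q ∧ (q : ℝ) ≤ ww κ₂ Q :=
    fun q hq => (mem_sp (by linarith) hw0.le).1 hq
  have hφ : (0 : ℝ) < f.totient := by exact_mod_cast Nat.totient_pos.2 hf
  obtain ⟨cf, hcf1, hcf2⟩ := exists_class haf
  set S : ℝ := SL g Q with hS
  have hSm := hmass Q hQ2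
  have hS0 : 0 ≤ S := by
    have h1 := hSm.1
    have h3 : 0 ≤ cm * Real.log Q := by positivity
    exact h3.trans h1
  have hSle : S ≤ Cm * Real.log Q := hSm.2
  set P := sp (yy κ Q) (ww κ₂ Q) with hP
  set Er : ℕ → ℝ := fun d => |∑ n ∈ (Icc 1 ⌊Q⌋₊).filter (fun n => n ≡ cf d [MOD d]),
    Λ n * wt g Q n - (1 / (d.totient : ℝ)) * ∑ n ∈ Icc 1 ⌊Q⌋₊, Λ n * wt g Q n| with hEr
  have hx : ∀ q ∈ P, 0 ≤ (1 : ℝ) / ((q : ℝ) - 1) ∧ (1 : ℝ) / ((q : ℝ) - 1) ≤ 1 := by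
    intro q hq
    have hq2 : (2 : ℝ) ≤ q := by exact_mod_cast (hmem q hq).1.two_le
    constructor
    · apply div_nonneg zero_le_one; linarith
    · rw [div_le_one (by linarith)]; linarith
  have hm : Even (mm A Q) := ⟨_, by unfold mm; ring⟩
  have hcop : ∀ I ∈ P.powerset, f.Coprime (∏ q ∈ I, q) := by
    intro I hI
    apply Nat.Coprime.prod_right
    intro q hq
    have hq' := hmem q (Finset.mem_powerset.1 hI hq)
    apply Nat.Coprime.symm
    exact (Nat.Prime.coprime_iff_not_dvd hq'.1).2 (fun hd => by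
      have := hfp q hq'.1 hd
      linarith [hq'.2.1])
  have hpr : ∀ I ∈ P.powerset, ∀ q ∈ I, q.Prime := fun I hI q hq =>
    (hmem q (Finset.mem_powerset.1 hI hq)).1
  have hA' : ∀ I ∈ P.powerset, I.card ≤ mm A Q + 1 →
      |∑ n ∈ (Icc 1 ⌊Q⌋₊).filter (fun n => n ≡ a [MOD f]), (Λ n * wt g Q n) *
          ∏ q ∈ I, ind (fun q n => n ≡ 1 [MOD q]) n q -
        (S / f.totient) * ∏ q ∈ I, ((1 : ℝ) / ((q : ℝ) - 1))| ≤ Er (f * ∏ q ∈ I, q) := by
    intro I hI _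
    apply le_of_eq
    rw [hEr]
    dsimp only
    congr 1
    have e1 : ∑ n ∈ (Icc 1 ⌊Q⌋₊).filter (fun n => n ≡ a [MOD f]), (Λ n * wt g Q n) *
          ∏ q ∈ I, ind (fun q n => n ≡ 1 [MOD q]) n q =
        ∑ n ∈ (Icc 1 ⌊Q⌋₊).filter (fun n => n ≡ cf (f * ∏ q ∈ I, q) [MOD f * ∏ q ∈ I, q]),
          Λ n * wt g Q n := by
      have e2 : ∀ n : ℕ, (Λ n * wt g Q n) * ∏ q ∈ I, ind (fun q n => n ≡ 1 [MOD q]) n q =
          if n ≡ 1 [MOD ∏ q ∈ I, q] then Λ n * wt g Q n else 0 := by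
        intro n
        rw [prod_ind]
        by_cases h : n ≡ 1 [MOD ∏ q ∈ I, q]
        · rw [if_pos h, if_pos ((modEq_one_prod I (hpr I hI) n).1 h), mul_one]
        · rw [if_neg h, if_neg (fun h' => h ((modEq_one_prod I (hpr I hI) n).2 h')), mul_zero]
      rw [Finset.sum_congr rfl fun n _ => e2 n, ← Finset.sum_filter, Finset.filter_filter]
      refine Finset.sum_congr ?_ fun _ _ => rfl
      ext n
      simp only [Finset.mem_filter]
      rw [hcf2 (∏ q ∈ I, q) (hcop I hI) n]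
    have e3 : (S / f.totient) * ∏ q ∈ I, ((1 : ℝ) / ((q : ℝ) - 1)) =
        (1 / ((f * ∏ q ∈ I, q : ℕ).totient : ℝ)) * ∑ n ∈ Icc 1 ⌊Q⌋₊, Λ n * wt g Q n := by
      rw [Nat.totient_mul (hcop I hI), totient_prod_primes I (hpr I hI)]
      have e4 : ∀ q ∈ I, ((q - 1 : ℕ) : ℝ) = (q : ℝ) - 1 := by
        intro q hq
        rw [Nat.cast_sub (hpr I hI q hq).one_le, Nat.cast_one]
      push_cast
      rw [Finset.prod_congr rfl e4, Finset.prod_div_distrib, Finset.prod_const_one]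
      have : S = ∑ n ∈ Icc 1 ⌊Q⌋₊, Λ n * wt g Q n := rfl
      rw [this]
      field_simp
    rw [e1, e3]
  have hmain := pure_abs ((Icc 1 ⌊Q⌋₊).filter (fun n => n ≡ a [MOD f])) (fun n => Λ n * wt g Q n)
    (fun n _ => mul_nonneg ArithmeticFunction.vonMangoldt_nonneg (wt_nonneg hg Q n))
    (fun q n => n ≡ 1 [MOD q]) P (fun q => (1 : ℝ) / ((q : ℝ) - 1)) hx (S / f.totient)
    (div_nonneg hS0 hφ.le) (fun I => Er (f * ∏ q ∈ I, q)) (mm A Q) hm hA'
  refine hmain.trans ?_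
  -- the two error terms
  obtain ⟨hm1, hm2⟩ := mm_bounds (Q := Q) hA (by linarith)
  have hb1 : 2 * (S / f.totient) * es P (mm A Q + 1) (fun q => (1 : ℝ) / ((q : ℝ) - 1)) ≤
      2 * Cm / Real.log Q ^ A := by
    have e1 := es_le_exp P (fun q => (1 : ℝ) / ((q : ℝ) - 1)) (fun q hq => (hx q hq).1)
      (mm A Q + 1)
    have e2 : Real.exp (Real.exp 1 * ∑ q ∈ P, (1 : ℝ) / ((q : ℝ) - 1) - ((mm A Q + 1 : ℕ) : ℝ)) ≤
        Real.log Q ^ (-(A + 1)) := by
      rw [Real.rpow_def_of_pos hlog0]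
      apply Real.exp_le_exp.2
      have h3 := hsum Q hQ3
      have h4 := Real.exp_one_lt_d9
      have h5 : 0 ≤ ∑ q ∈ P, (1 : ℝ) / ((q : ℝ) - 1) := Finset.sum_nonneg fun q hq => (hx q hq).1
      have h6 : Real.exp 1 * ∑ q ∈ P, (1 : ℝ) / ((q : ℝ) - 1) ≤
          (2.7182818286 : ℝ) * (3 * Real.log (Real.log Q)) :=
        mul_le_mul h4.le h3 h5 (by norm_num)
      push_cast
      nlinarith
    have e3 : 0 ≤ es P (mm A Q + 1) (fun q => (1 : ℝ) / ((q : ℝ) - 1)) :=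
      es_nonneg P _ _ fun q hq => (hx q hq).1
    have e4 : S / f.totient ≤ Cm * Real.log Q := by
      have : (1 : ℝ) ≤ f.totient := by exact_mod_cast Nat.totient_pos.2 hf
      exact (div_le_self hS0 this).trans hSle
    calc 2 * (S / f.totient) * es P (mm A Q + 1) (fun q => (1 : ℝ) / ((q : ℝ) - 1))
        ≤ 2 * (Cm * Real.log Q) * Real.log Q ^ (-(A + 1)) := by
          refine mul_le_mul (by linarith) (e1.trans e2) e3 (by positivity)
      _ = 2 * Cm / Real.log Q ^ A := by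
        rw [show -(A + 1) = -A + -1 by ring, Real.rpow_add hlog0, Real.rpow_neg_one,
          Real.rpow_neg hlog0.le]
        field_simp
  have hb2 : ∑ I ∈ P.powerset.filter (fun I => I.card ≤ mm A Q + 1), Er (f * ∏ q ∈ I, q) ≤
      Cb / Real.log Q ^ A := by
    refine le_trans ?_ (hbv Q hQ1 cf hcf1)
    have hinj : Set.InjOn (fun I : Finset ℕ => f * ∏ q ∈ I, q)
        (P.powerset.filter (fun I => I.card ≤ mm A Q + 1) : Finset (Finset ℕ)) := by
      intro I hI J hJ hIJ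
      have hI' := (Finset.mem_filter.1 hI).1
      have hJ' := (Finset.mem_filter.1 hJ).1
      have h1 : ∏ q ∈ I, q = ∏ q ∈ J, q := Nat.eq_of_mul_eq_mul_left hf hIJ
      rw [← primeFactors_prod_primes I (hpr I hI'), ← primeFactors_prod_primes J (hpr J hJ'), h1]
    rw [← Finset.sum_image (g := fun I : Finset ℕ => f * ∏ q ∈ I, q) (f := Er) hinj]
    refine Finset.sum_le_sum_of_subset_of_nonneg ?_ (fun _ _ _ => abs_nonneg _)
    intro d hd
    obtain ⟨I, hI, rfl⟩ := Finset.mem_image.1 hd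
    have hI' := Finset.mem_filter.1 hI
    have hprod1 : 1 ≤ ∏ q ∈ I, q := Finset.one_le_prod' fun q hq => (hpr I hI'.1 q hq).one_le
    refine Finset.mem_Icc.2 ⟨Nat.mul_pos hf hprod1, Nat.le_floor ?_⟩
    push_cast
    have h3 : (∏ q ∈ I, (q : ℝ)) ≤ ww κ₂ Q ^ (mm A Q + 1) := by
      calc (∏ q ∈ I, (q : ℝ)) ≤ ∏ q ∈ I, ww κ₂ Q :=
            Finset.prod_le_prod (fun q _ => Nat.cast_nonneg q)
              (fun q hq => (hmem q (Finset.mem_powerset.1 hI'.1 hq)).2.2)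
        _ = ww κ₂ Q ^ I.card := by rw [Finset.prod_const]
        _ ≤ ww κ₂ Q ^ (mm A Q + 1) := by
          refine pow_le_pow_right₀ ?_ hI'.2
          unfold ww
          exact Real.one_le_exp (by positivity)
    have h4 : ww κ₂ Q ^ (mm A Q + 1) = Real.exp (((mm A Q : ℝ) + 1) * Real.log Q ^ κ₂) := by
      unfold ww
      rw [← Real.exp_nat_mul]
      push_cast
      rfl
    have h5 : Real.log Q ^ C₁ = Real.exp (C₁ * Real.log (Real.log Q)) := by
      rw [Real.rpow_def_of_pos hlog0, mul_comm]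
    calc (f : ℝ) * ∏ q ∈ I, (q : ℝ) ≤ Real.log Q ^ C₁ * ww κ₂ Q ^ (mm A Q + 1) :=
          mul_le_mul hfle h3 (Finset.prod_nonneg fun q _ => Nat.cast_nonneg q) (by positivity)
      _ = Real.exp (C₁ * Real.log (Real.log Q) + ((mm A Q : ℝ) + 1) * Real.log Q ^ κ₂) := by
        rw [h4, h5, ← Real.exp_add]
      _ ≤ Real.exp (Real.log Q / 40) := by
        apply Real.exp_le_exp.2
        refine le_trans ?_ (hgr Q hQ4)
        have : 0 ≤ Real.log Q ^ κ₂ := by positivity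
        nlinarith
      _ = Q ^ (1 / 40 : ℝ) := by
        rw [Real.rpow_def_of_pos (by linarith)]
        congr 1; ring
  calc 2 * (S / f.totient) * es P (mm A Q + 1) (fun q => (1 : ℝ) / ((q : ℝ) - 1)) +
        ∑ I ∈ P.powerset.filter (fun I => I.card ≤ mm A Q + 1), Er (f * ∏ q ∈ I, q)
      ≤ 2 * Cm / Real.log Q ^ A + Cb / Real.log Q ^ A := add_le_add hb1 hb2
    _ = (2 * Cm + Cb) / Real.log Q ^ A := by rw [add_div]

end Pool.Agent.Helper61.CA
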