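import Pool.Agent.Helper18.BV.St

/-!
# Project CA (MP_87fff7_nt), step 2: the correcting primes. Definitions and statements.

`u = log Q`, `y = u ^ κ`, `w = exp (u ^ κ₂)`, `κ < κ₂ < 1`. The semi-nice primes `l` are those for
which `l - 1` has no prime factor in `(y, w]`. The modulus `modl y Z R` is the product of the powers
`q ^ (log_q Z)` over the primes `q ≤ y` outside the finite set `R`.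
-/

set_option autoImplicit false

open Finset
open scoped ArithmeticFunction.vonMangoldt

namespace Pool.Agent.Helper61.CA

open Pool.Agent.Helper18.BV

/-- The small bound `y`. -/
noncomputable def yy (κ Q : ℝ) : ℝ := Real.log Q ^ κ

/-- The sieve bound `w`. -/
noncomputable def ww (κ₂ Q : ℝ) : ℝ := Real.exp (Real.log Q ^ κ₂)

/-- The bound for prime powers in the modulus. -/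
noncomputable def ZZ (E Q : ℝ) : ℕ := ⌊Real.log Q ^ E⌋₊

/-- The modulus: powers of the primes `q ≤ y` outside `R`. -/
noncomputable def modl (y : ℝ) (Z : ℕ) (R : Finset ℕ) : ℕ := by
  classical
  exact ∏ q ∈ (Icc 1 ⌊y⌋₊).filter (fun q => q.Prime ∧ q ∉ R), q ^ Nat.log q Z

/-- The primes `l ≤ Q` such that `l - 1` has no prime factor in `(y, w]`. -/
noncomputable def semi (Q y w : ℝ) : Finset ℕ := by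
  classical
  exact (Icc 1 ⌊Q⌋₊).filter (fun l => l.Prime ∧
    ∀ q : ℕ, q.Prime → y < (q : ℝ) → (q : ℝ) ≤ w → ¬ q ∣ l - 1)

theorem mem_semi {Q y w : ℝ} {l : ℕ} : l ∈ semi Q y w ↔ (1 ≤ l ∧ l ≤ ⌊Q⌋₊) ∧ l.Prime ∧
    ∀ q : ℕ, q.Prime → y < (q : ℝ) → (q : ℝ) ≤ w → ¬ q ∣ l - 1 := by
  classical
  unfold semi
  rw [Finset.mem_filter, Finset.mem_Icc]

/-- The weight of a prime. -/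
noncomputable def sw (g : ℝ → ℝ) (Q : ℝ) (l : ℕ) : ℝ := Real.log l * wt g Q l

/-- The mass of the semi-nice primes in the class `a` modulo `D`. -/
noncomputable def fa (g : ℝ → ℝ) (Q y w : ℝ) (D a : ℕ) : ℝ :=
  ∑ l ∈ (semi Q y w).filter (fun l => l ≡ a [MOD D]), sw g Q l

/-- The total mass. -/
noncomputable def F0 (g : ℝ → ℝ) (Q y w : ℝ) : ℝ := ∑ l ∈ semi Q y w, sw g Q l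

/-- S2a: equidistribution of the semi-nice primes modulo small moduli. -/
def PS : Prop :=
  ∀ g : ℝ → ℝ, IsWt g → ∀ κ κ₂ A C₁ : ℝ, 0 < κ → κ < κ₂ → κ₂ < 1 → 0 < A → 0 < C₁ →
    ∃ C X0 : ℝ, 0 < C ∧ 3 ≤ X0 ∧ ∀ Q : ℝ, X0 ≤ Q → ∀ f : ℕ, 1 ≤ f → (f : ℝ) ≤ Real.log Q ^ C₁ →
      (∀ q : ℕ, q.Prime → q ∣ f → (q : ℝ) ≤ yy κ Q) → ∀ a : ℕ, a.Coprime f →
      |fa g Q (yy κ Q) (ww κ₂ Q) f a - F0 g Q (yy κ Q) (ww κ₂ Q) / f.totient| ≤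
        C / Real.log Q ^ A

/-- S2b: the total mass. -/
def LB : Prop :=
  ∀ g : ℝ → ℝ, IsWt g → (∃ v, g v ≠ 0) → ∀ κ κ₂ : ℝ, 0 < κ → κ < κ₂ → κ₂ < 1 →
    ∃ c X0 : ℝ, 0 < c ∧ 3 ≤ X0 ∧ ∀ Q : ℝ, X0 ≤ Q →
      c * (Real.log Q ^ (1 - κ₂) * Real.log (Real.log Q)) ≤ F0 g Q (yy κ Q) (ww κ₂ Q)

/-- S2c: sharp upper bound in every class of a large modulus. -/
def UB : Prop :=
  ∀ g : ℝ → ℝ, IsWt g → ∀ κ κ₂ : ℝ, 0 < κ → κ < κ₂ → κ₂ < 1 →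
    ∃ C X0 : ℝ, 0 < C ∧ 3 ≤ X0 ∧ ∀ Q : ℝ, X0 ≤ Q → ∀ M : ℕ, 0 < M →
      (M : ℝ) ≤ Q ^ (1 / 16 : ℝ) → (∀ q : ℕ, q.Prime → (q ∣ M ↔ (q : ℝ) ≤ yy κ Q)) →
      ∀ a : ℕ, a.Coprime M →
      fa g Q (yy κ Q) (ww κ₂ Q) M a ≤
        C * (Real.log Q ^ (1 - κ₂) * Real.log (Real.log Q)) / M.totient

/-- The twisted mass. -/
noncomputable def fh (g : ℝ → ℝ) (Q y w : ℝ) {M : ℕ} (χ : DirichletCharacter ℂ M) : ℂ :=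
  ∑ l ∈ semi Q y w, (sw g Q l : ℂ) * χ (l : ZMod M)

/-- S2d: after removal of boundedly many primes from the modulus all the twisted masses are
small. -/
def Drop : Prop :=
  ∀ g : ℝ → ℝ, IsWt g → (∃ v, g v ≠ 0) → ∀ κ κ₂ E : ℝ, 0 < κ → κ < κ₂ → κ₂ < 1 → 1 ≤ E →
    ∀ c₀ : ℝ, 0 < c₀ → ∃ B : ℕ, ∀ q₀ : ℕ, ∃ X0 : ℝ, 3 ≤ X0 ∧ ∀ Q : ℝ, X0 ≤ Q →
      ∃ R : Finset ℕ, R.card ≤ B ∧ (∀ q ∈ R, q.Prime ∧ q₀ ≤ q ∧ (q : ℝ) ≤ yy κ Q) ∧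
        ∀ χ : DirichletCharacter ℂ (modl (yy κ Q) (ZZ E Q) R), χ ≠ 1 →
          ‖fh g Q (yy κ Q) (ww κ₂ Q) χ‖ ≤ c₀ * F0 g Q (yy κ Q) (ww κ₂ Q)

/-- `l - 1` is the product of a divisor of `M` and a number without prime factors up to `w`. -/
def Nice (M : ℕ) (w : ℝ) (l : ℕ) : Prop :=
  ∃ G D : ℕ, l - 1 = G * D ∧ G ∣ M ∧ ∀ q : ℕ, q.Prime → q ∣ D → w < (q : ℝ)

/-- S2e: three-fold convolution, abstract form. -/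
def Conv : Prop :=
  ∀ (M : ℕ), 0 < M → ∀ (S : Finset ℕ) (v : ℕ → ℝ) (K δ : ℝ), (∀ l ∈ S, l.Coprime M) →
    (∀ l ∈ S, 0 ≤ v l) → 0 ≤ δ →
    (∀ a : ℕ, a.Coprime M → ∑ l ∈ S.filter (fun l => l ≡ a [MOD M]), v l ≤ K / M.totient) →
    (∀ χ : DirichletCharacter ℂ M, χ ≠ 1 → ‖∑ l ∈ S, (v l : ℂ) * χ (l : ZMod M)‖ ≤ δ) →
    ∀ r : ℕ, r.Coprime M →
      ((∑ l ∈ S, v l) ^ 3 - δ * K * ∑ l ∈ S, v l) / M.totient ≤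
        ∑ t ∈ (S ×ˢ (S ×ˢ S)).filter (fun t => t.1 * t.2.1 * t.2.2 * r ≡ 1 [MOD M]),
          v t.1 * v t.2.1 * v t.2.2

/-- S2f: the semi-nice primes which are not nice have small mass: `Σ_{q ∈ R} C F / q` and a
power of `log Q`. -/
def NotNice : Prop :=
  ∀ g : ℝ → ℝ, IsWt g → (∃ v, g v ≠ 0) → ∀ κ κ₂ E : ℝ, 1 / 2 ≤ κ → κ < κ₂ → κ₂ < 1 → 8 ≤ E →
    ∃ C : ℝ, 0 < C ∧ ∀ (B : ℕ) (c₁ : ℝ), 0 < c₁ → ∃ X0 : ℝ, 3 ≤ X0 ∧ ∀ Q : ℝ, X0 ≤ Q →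
      ∀ (R : Finset ℕ) (q₀ : ℕ), 2 ≤ q₀ → R.card ≤ B →
      (∀ q ∈ R, q.Prime ∧ q₀ ≤ q ∧ (q : ℝ) ≤ yy κ Q) →
      ∀ S : Finset ℕ, (∀ l ∈ S, l ∈ semi Q (yy κ Q) (ww κ₂ Q) ∧
        ¬ Nice (modl (yy κ Q) (ZZ E Q) R) (ww κ₂ Q) l) →
      ∑ l ∈ S, sw g Q l ≤ (C * B / q₀ + c₁) * F0 g Q (yy κ Q) (ww κ₂ Q)

/-- A triple of correcting primes. -/
structure Good (Q w : ℝ) (M r : ℕ) (t : ℕ × ℕ × ℕ) : Prop where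
  prime : t.1.Prime ∧ t.2.1.Prime ∧ t.2.2.Prime
  low : Real.sqrt Q < t.1 ∧ Real.sqrt Q < t.2.1 ∧ Real.sqrt Q < t.2.2
  high : (t.1 : ℝ) ≤ Q ∧ (t.2.1 : ℝ) ≤ Q ∧ (t.2.2 : ℝ) ≤ Q
  ne : t.1 ≠ t.2.1 ∧ t.1 ≠ t.2.2 ∧ t.2.1 ≠ t.2.2
  nice : Nice M w t.1 ∧ Nice M w t.2.1 ∧ Nice M w t.2.2
  ndvd : ¬ t.1 ∣ t.2.1 - 1 ∧ ¬ t.1 ∣ t.2.2 - 1 ∧ ¬ t.2.1 ∣ t.1 - 1 ∧ ¬ t.2.1 ∣ t.2.2 - 1 ∧
    ¬ t.2.2 ∣ t.1 - 1 ∧ ¬ t.2.2 ∣ t.2.1 - 1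
  coprime : ∀ q : ℕ, q.Prime → w < (q : ℝ) → ¬ (q ∣ t.1 - 1 ∧ q ∣ t.2.1 - 1) ∧
    ¬ (q ∣ t.1 - 1 ∧ q ∣ t.2.2 - 1) ∧ ¬ (q ∣ t.2.1 - 1 ∧ q ∣ t.2.2 - 1)
  class' : t.1 * t.2.1 * t.2.2 * r ≡ 1 [MOD M]

/-- S2g: the degenerate triples have small mass. -/
def Degen : Prop :=
  ∀ g : ℝ → ℝ, IsWt g → ∀ κ₂ : ℝ, 0 < κ₂ → κ₂ < 1 → ∃ X0 : ℝ, 3 ≤ X0 ∧ ∀ Q : ℝ, X0 ≤ Q →
    ∀ M r : ℕ, 0 < M → (M : ℝ) ≤ Q ^ (1 / 16 : ℝ) → r.Coprime M →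
    ∀ S : Finset ℕ, (∀ l ∈ S, l.Prime ∧ l ≤ ⌊Q⌋₊ ∧ l.Coprime M) →
    ∀ T : Finset (ℕ × ℕ × ℕ), (∀ t ∈ T, t.1 ∈ S ∧ t.2.1 ∈ S ∧ t.2.2 ∈ S ∧
      t.1 * t.2.1 * t.2.2 * r ≡ 1 [MOD M] ∧
      (t.1 = t.2.1 ∨ t.1 = t.2.2 ∨ t.2.1 = t.2.2 ∨
        t.1 ∣ t.2.1 - 1 ∨ t.1 ∣ t.2.2 - 1 ∨ t.2.1 ∣ t.1 - 1 ∨ t.2.1 ∣ t.2.2 - 1 ∨
        t.2.2 ∣ t.1 - 1 ∨ t.2.2 ∣ t.2.1 - 1 ∨
        ∃ q : ℕ, q.Prime ∧ ww κ₂ Q < (q : ℝ) ∧ ((q ∣ t.1 - 1 ∧ q ∣ t.2.1 - 1) ∨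
          (q ∣ t.1 - 1 ∧ q ∣ t.2.2 - 1) ∨ (q ∣ t.2.1 - 1 ∧ q ∣ t.2.2 - 1)))) →
    ∑ t ∈ T, sw g Q t.1 * sw g Q t.2.1 * sw g Q t.2.2 ≤ 1 / M * (1 / Real.log Q)

/-- Step 2: many triples of correcting primes in every invertible class. -/
def Step2 : Prop :=
  ∀ κ κ₂ E : ℝ, 1 / 2 ≤ κ → κ < κ₂ → κ₂ < 1 → 8 ≤ E → ∃ B q₁ : ℕ, ∀ q₀ : ℕ, q₁ ≤ q₀ →
    ∃ X0 : ℝ, 3 ≤ X0 ∧ ∀ Q : ℝ, X0 ≤ Q →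
      ∃ R : Finset ℕ, R.card ≤ B ∧ (∀ q ∈ R, q.Prime ∧ q₀ ≤ q ∧ (q : ℝ) ≤ yy κ Q) ∧
        ∀ r : ℕ, r.Coprime (modl (yy κ Q) (ZZ E Q) R) →
          ∃ T : Finset (ℕ × ℕ × ℕ),
            (∀ t ∈ T, Good Q (ww κ₂ Q) (modl (yy κ Q) (ZZ E Q) R) r t) ∧
            1 / ((modl (yy κ Q) (ZZ E Q) R : ℝ) * Real.log Q ^ 4) ≤
              ∑ t ∈ T, 1 / ((t.1 : ℝ) * t.2.1 * t.2.2)

end Pool.Agent.Helper61.CA
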