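import Pool.Agent.Helper61.CA.St
import Pool.Agent.Helper18.BV.WtLemmas
import Pool.Agent.Helper79.QRH.FL

/-!
# CA-S2c: sharp upper bound for the semi-nice primes in one class of a large modulus

Proof. `u = log Q`, `y = u^κ`, `w = exp (u^κ₂)`, `K` the constant of
`Pool.Agent.Helper79.QRH.sieveFL 2 1`, `w' = Q^(1/(16 K))` (so `w ≤ w'` for large `Q`). Every prime
dividing `M` is `≤ y`. `sw g Q l = 0` unless `√Q < l ≤ Q` (`IsWt.supp`), and
`sw g Q l ≤ G * u / l` (`G` a bound of `g`, `IsWt` functions are continuous with compact support).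
Cover `(√Q, Q]` by the intervals `(R, 2 R]`, `R = √Q * 2^i`, `i ≤ 2 log Q + 1`. In one interval the
semi-nice primes `l ≡ a [MOD M]` are among the integers `n ≡ a [MOD M]` in it such that for all
primes `q ∈ (y, w']`: `¬ q ∣ n`, and `¬ q ∣ n - 1` if `q ≤ w`. Apply `sieveFL` (upper bound only)
with `k = 2`, `P q := q.Prime ∧ y < q` (`4 ≤ q` for large `Q`), `ν q = 2` if `q ≤ w`, else `1`,
`w := w'`, `X = R / M`, `E = 1` or `2`: for a finite set `I` of such primes the integers `n` with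
`∀ q ∈ I, occ q n` form exactly `∏ ν q` classes modulo `∏ q`, prime to `M`, so by the Chinese
remainder theorem their number is `X ∏ (ν q / q) + O(∏ ν q)`, `∏ ν q ≤ 2^|I| ≤ 3^|I|`.
Result: at most `e X ∏_{y<q≤w} (1 - 2/q) ∏_{w<q≤w'} (1 - 1/q) + 2 Q^(1/16)`. By Mertens (for the
products over primes see e.g. `mertens_prod`, `Helper79/QRH`, `Helper18/MT`, `Helper1/MT`,
`Helper28/BV/SieveW`: grep `primesUpTo`) this is
`≤ C (R/M) (log y)^2 / (log w * log w')`, `log y = κ log u`, `log w = u^κ₂`, `log w' = u/(16K)`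
(the term `2 Q^(1/16)` is smaller than `(R/M)/ u^3` since `R ≥ √Q`, `M ≤ Q^(1/16)`). Multiplying by
`G u / R` and by the number `O(u)` of intervals gives `fa ≤ C u^(1-κ₂) (log u)^2 / M`, and
`M.totient / M = ∏_{q ≤ y} (1 - 1/q) ≤ C / log y`, so `(log u) / M ≤ C' / M.totient`.
-/

set_option autoImplicit false

open Finset

namespace Pool.Agent.Helper61.CA

open Pool.Agent.Helper18.BV Pool.Agent.Helper44 Pool.Agent.Helper96.CPAP

private theorem ub_class (A B m a : ℕ) (hm : 0 < m) (hAB : A ≤ B) :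
    |(((Ioc A B).filter (fun n => n ≡ a [MOD m])).card : ℝ) - ((B : ℝ) - A) / m| ≤ 1 := by
  have h1 := Nat.Ioc_filter_modEq_card A B hm a
  have hm' : (0 : ℚ) < m := by exact_mod_cast hm
  have hAB' : (A : ℚ) ≤ B := by exact_mod_cast hAB
  have h2 : ⌊((A : ℚ) - a) / m⌋ ≤ ⌊((B : ℚ) - a) / m⌋ := by
    apply Int.floor_le_floor
    apply div_le_div_of_nonneg_right _ hm'.le
    linarith
  rw [max_eq_left (by linarith)] at h1
  have h3 : ((((Ioc A B).filter (fun n => n ≡ a [MOD m])).card : ℤ) : ℚ) =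
      (⌊((B : ℚ) - a) / m⌋ : ℚ) - (⌊((A : ℚ) - a) / m⌋ : ℚ) := by
    rw [h1]; push_cast; ring
  have h4 := Int.floor_le (((A : ℚ) - a) / m)
  have h5 := Int.lt_floor_add_one (((A : ℚ) - a) / m)
  have h6 := Int.floor_le (((B : ℚ) - a) / m)
  have h7 := Int.lt_floor_add_one (((B : ℚ) - a) / m)
  have h8 : ((B : ℚ) - A) / m = ((B : ℚ) - a) / m - ((A : ℚ) - a) / m := by
    rw [← sub_div]; congr 1; ring
  have h9 : |(((Ioc A B).filter (fun n => n ≡ a [MOD m])).card : ℚ) - ((B : ℚ) - A) / m| ≤ 1 := by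
    have h10 : (((Ioc A B).filter (fun n => n ≡ a [MOD m])).card : ℚ) =
      (⌊((B : ℚ) - a) / m⌋ : ℚ) - (⌊((A : ℚ) - a) / m⌋ : ℚ) := by
      rw [← h3]; push_cast; rfl
    rw [h10, h8, abs_le]
    constructor <;> linarith
  have h11 : ((|(((Ioc A B).filter (fun n => n ≡ a [MOD m])).card : ℚ) -
      ((B : ℚ) - A) / m| : ℚ) : ℝ) ≤ ((1 : ℚ) : ℝ) := by exact_mod_cast h9
  push_cast at h11
  exact h11

/-- the event at the prime `q` -/
private def ub_occ (w : ℝ) (q n : ℕ) : Prop := q ∣ n ∨ ((q : ℝ) ≤ w ∧ q ∣ n - 1)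

private noncomputable def ub_nu (w : ℝ) (q : ℕ) : ℝ := by
  classical exact if (q : ℝ) ≤ w then 2 else 1

private noncomputable def ub_S (w : ℝ) (A B m a : ℕ) (I : Finset ℕ) : Finset ℕ := by
  classical exact (Ioc A B).filter (fun n => n ≡ a [MOD m] ∧ ∀ q ∈ I, ub_occ w q n)

private theorem mem_ub_S {w : ℝ} {A B m a : ℕ} {I : Finset ℕ} {n : ℕ} :
    n ∈ ub_S w A B m a I ↔ (A < n ∧ n ≤ B) ∧ n ≡ a [MOD m] ∧ ∀ q ∈ I, ub_occ w q n := by
  classical
  unfold ub_S
  rw [Finset.mem_filter, Finset.mem_Ioc]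

private theorem ub_crt {m q : ℕ} (h : m.Coprime q) (a b : ℕ) : ∃ c : ℕ, ∀ n : ℕ,
    n ≡ c [MOD (m * q)] ↔ (n ≡ a [MOD m] ∧ n ≡ b [MOD q]) := by
  obtain ⟨c, hc1, hc2⟩ := Nat.chineseRemainder h a b
  refine ⟨c, fun n => ?_⟩
  rw [← Nat.modEq_and_modEq_iff_modEq_mul h]
  constructor
  · rintro ⟨h1, h2⟩
    exact ⟨h1.trans hc1, h2.trans hc2⟩
  · rintro ⟨h1, h2⟩
    exact ⟨h1.trans hc1.symm, h2.trans hc2.symm⟩

private theorem ub_one {q n : ℕ} (hn : 1 ≤ n) : q ∣ n - 1 ↔ n ≡ 1 [MOD q] := by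
  constructor
  · intro h
    exact ((Nat.modEq_iff_dvd' hn).2 h).symm
  · intro h
    exact (Nat.modEq_iff_dvd' hn).1 h.symm

private theorem ub_count (w : ℝ) (A B : ℕ) (hAB : A ≤ B) (I : Finset ℕ) :
    (∀ q ∈ I, q.Prime) → ∀ m : ℕ, 0 < m → (∀ q ∈ I, ¬ q ∣ m) → ∀ a : ℕ,
    |((ub_S w A B m a I).card : ℝ) - ((B : ℝ) - A) / m * ∏ q ∈ I, (ub_nu w q / q)| ≤
      2 ^ I.card := by
  classical
  induction I using Finset.induction_on with
  | empty =>
    intro _ m hm _ a
    have h1 : ub_S w A B m a ∅ = (Ioc A B).filter (fun n => n ≡ a [MOD m]) := by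
      ext n
      rw [mem_ub_S, Finset.mem_filter, Finset.mem_Ioc]
      simp
    rw [h1, Finset.prod_empty, mul_one, Finset.card_empty, pow_zero]
    exact ub_class A B m a hm hAB
  | insert q I hq ih =>
    intro hpr m hm hnd a
    have hqp : q.Prime := hpr q (Finset.mem_insert_self q I)
    have hpr' : ∀ r ∈ I, r.Prime := fun r hr => hpr r (Finset.mem_insert_of_mem hr)
    have hcop : m.Coprime q :=
      ((Nat.Prime.coprime_iff_not_dvd hqp).2 (hnd q (Finset.mem_insert_self q I))).symm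
    have hmq : 0 < m * q := Nat.mul_pos hm hqp.pos
    have hnd' : ∀ r ∈ I, ¬ r ∣ m * q := by
      intro r hr hd
      rcases (Nat.Prime.dvd_mul (hpr' r hr)).1 hd with h | h
      · exact hnd r (Finset.mem_insert_of_mem hr) h
      · have := (Nat.prime_dvd_prime_iff_eq (hpr' r hr) hqp).1 h
        rw [this] at hr
        exact hq hr
    obtain ⟨a0, ha0⟩ := ub_crt hcop a 0
    obtain ⟨a1, ha1⟩ := ub_crt hcop a 1
    have e0 := ih hpr' (m * q) hmq hnd' a0
    have e1 := ih hpr' (m * q) hmq hnd' a1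
    have hm0 : (m : ℝ) ≠ 0 := by exact_mod_cast hm.ne'
    have hq0 : (q : ℝ) ≠ 0 := by exact_mod_cast hqp.ne_zero
    rw [Finset.prod_insert hq, Finset.card_insert_of_notMem hq, pow_succ]
    rw [Nat.cast_mul] at e0 e1
    by_cases hw : (q : ℝ) ≤ w
    · have hS : ub_S w A B m a (insert q I) = ub_S w A B (m * q) a0 I ∪
          ub_S w A B (m * q) a1 I := by
        ext n
        rw [Finset.mem_union, mem_ub_S, mem_ub_S, mem_ub_S, ha0, ha1, Finset.forall_mem_insert]
        constructor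
        · rintro ⟨h1, h2, h3, h4⟩
          rcases h3 with h3 | ⟨_, h3⟩
          · left
            exact ⟨h1, ⟨h2, (Nat.modEq_zero_iff_dvd).2 h3⟩, h4⟩
          · right
            exact ⟨h1, ⟨h2, (ub_one (by omega)).1 h3⟩, h4⟩
        · rintro (⟨h1, ⟨h2, h3⟩, h4⟩ | ⟨h1, ⟨h2, h3⟩, h4⟩)
          · exact ⟨h1, h2, Or.inl ((Nat.modEq_zero_iff_dvd).1 h3), h4⟩
          · exact ⟨h1, h2, Or.inr ⟨hw, (ub_one (by omega)).2 h3⟩, h4⟩
      have hdisj : Disjoint (ub_S w A B (m * q) a0 I) (ub_S w A B (m * q) a1 I) := by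
        rw [Finset.disjoint_left]
        intro n h1 h2
        rw [mem_ub_S, ha0] at h1
        rw [mem_ub_S, ha1] at h2
        have h3 : 0 ≡ 1 [MOD q] := h1.2.1.2.symm.trans h2.2.1.2
        have h4 : q ∣ 1 := (Nat.modEq_zero_iff_dvd).1 h3.symm
        exact hqp.one_lt.ne' (Nat.dvd_one.1 h4)
      rw [hS, Finset.card_union_of_disjoint hdisj]
      have hnu : ub_nu w q = 2 := by
        unfold ub_nu
        rw [if_pos hw]
      rw [hnu]
      push_cast
      have e : ((B : ℝ) - A) / m * (2 / q * ∏ r ∈ I, (ub_nu w r / r)) =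
          ((B : ℝ) - A) / (m * q) * ∏ r ∈ I, (ub_nu w r / r) +
          ((B : ℝ) - A) / (m * q) * ∏ r ∈ I, (ub_nu w r / r) := by
        field_simp
        ring
      rw [e]
      rw [abs_le] at e0 e1 ⊢
      constructor <;> linarith [e0.1, e0.2, e1.1, e1.2]
    · have hS : ub_S w A B m a (insert q I) = ub_S w A B (m * q) a0 I := by
        ext n
        rw [mem_ub_S, mem_ub_S, ha0, Finset.forall_mem_insert]
        constructor
        · rintro ⟨h1, h2, h3, h4⟩
          rcases h3 with h3 | ⟨h3, _⟩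
          · exact ⟨h1, ⟨h2, (Nat.modEq_zero_iff_dvd).2 h3⟩, h4⟩
          · exact absurd h3 hw
        · rintro ⟨h1, ⟨h2, h3⟩, h4⟩
          exact ⟨h1, h2, Or.inl ((Nat.modEq_zero_iff_dvd).1 h3), h4⟩
      rw [hS]
      have hnu : ub_nu w q = 1 := by
        unfold ub_nu
        rw [if_neg hw]
      rw [hnu]
      have e : ((B : ℝ) - A) / m * (1 / q * ∏ r ∈ I, (ub_nu w r / r)) =
          ((B : ℝ) - A) / (m * q) * ∏ r ∈ I, (ub_nu w r / r) := by
        field_simp
      rw [e]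
      have hp : (0 : ℝ) ≤ 2 ^ I.card := by positivity
      linarith

/-- `V(x)` -/
private noncomputable def ub_V (x : ℝ) : ℝ := ∏ q ∈ primesUpTo x, (1 - (1 : ℝ) / q)

private theorem ub_fac_pos {q : ℕ} (hq : q.Prime) : (0 : ℝ) < 1 - 1 / (q : ℝ) := by
  have h2 : (2 : ℝ) ≤ q := by exact_mod_cast hq.two_le
  have h3 : (1 : ℝ) / q ≤ 1 / 2 := one_div_le_one_div_of_le (by norm_num) h2
  linarith

private theorem ub_V_pos {x : ℝ} (hx : 0 ≤ x) : 0 < ub_V x := by
  apply Finset.prod_pos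
  intro q hq
  rw [mem_primesUpTo hx] at hq
  exact ub_fac_pos hq.1

private theorem ub_sub {y x : ℝ} (hy : 0 ≤ y) (hyx : y ≤ x) : primesUpTo y ⊆ primesUpTo x := by
  intro q hq
  rw [mem_primesUpTo hy] at hq
  rw [mem_primesUpTo (hy.trans hyx)]
  exact ⟨hq.1, hq.2.trans hyx⟩

private theorem ub_sdiff {y x : ℝ} (hy : 0 ≤ y) (hyx : y ≤ x) :
    ∏ q ∈ primesUpTo x \ primesUpTo y, (1 - (1 : ℝ) / q) = ub_V x / ub_V y := by
  rw [eq_div_iff (ub_V_pos hy).ne']
  exact Finset.prod_sdiff (ub_sub hy hyx)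

private theorem ub_prod : ∃ C : ℝ, 0 < C ∧ ∀ y w w' : ℝ, 4 ≤ y → y ≤ w → w ≤ w' →
    ∏ q ∈ pU (fun q : ℕ => q.Prime ∧ y < (q : ℝ)) w', (1 - ub_nu w q / q) ≤
      C * (Real.log y) ^ 2 / (Real.log w * Real.log w') := by
  classical
  obtain ⟨c, C, hc, hC, hM⟩ := mertens_prod
  refine ⟨(C / c) ^ 2, by positivity, ?_⟩
  intro y w w' hy hyw hww
  have hy0 : (0 : ℝ) ≤ y := by linarith
  have hw0 : (0 : ℝ) ≤ w := by linarith
  have hw'0 : (0 : ℝ) ≤ w' := by linarith
  have hP : ∀ q : ℕ, (fun q : ℕ => q.Prime ∧ y < (q : ℝ)) q → q.Prime := fun q h => h.1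
  have hU : pU (fun q : ℕ => q.Prime ∧ y < (q : ℝ)) w' = primesUpTo w' \ primesUpTo y := by
    ext q
    rw [mem_pU hP hw'0, Finset.mem_sdiff, mem_primesUpTo hw'0, mem_primesUpTo hy0]
    constructor
    · rintro ⟨⟨h1, h2⟩, h3⟩
      exact ⟨⟨h1, h3⟩, fun h => absurd h.2 (not_le.2 h2)⟩
    · rintro ⟨⟨h1, h2⟩, h3⟩
      exact ⟨⟨h1, not_le.1 (fun h => h3 ⟨h1, h⟩)⟩, h2⟩
  have hF : (primesUpTo w' \ primesUpTo y).filter (fun q : ℕ => (q : ℝ) ≤ w) =
      primesUpTo w \ primesUpTo y := by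
    ext q
    rw [Finset.mem_filter, Finset.mem_sdiff, Finset.mem_sdiff, mem_primesUpTo hw'0,
      mem_primesUpTo hy0, mem_primesUpTo hw0]
    constructor
    · rintro ⟨⟨h1, h2⟩, h3⟩
      exact ⟨⟨h1.1, h3⟩, h2⟩
    · rintro ⟨⟨h1, h2⟩, h3⟩
      exact ⟨⟨⟨h1, h2.trans hww⟩, h3⟩, h2⟩
  have h1 : ∏ q ∈ pU (fun q : ℕ => q.Prime ∧ y < (q : ℝ)) w', (1 - ub_nu w q / q) ≤
      (ub_V w' / ub_V y) * (ub_V w / ub_V y) := by
    rw [hU, ← ub_sdiff hy0 (hyw.trans hww), ← ub_sdiff hy0 hyw, ← hF, Finset.prod_filter,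
      ← Finset.prod_mul_distrib]
    apply Finset.prod_le_prod
    · intro q hq
      rw [Finset.mem_sdiff, mem_primesUpTo hw'0, mem_primesUpTo hy0] at hq
      have hq4 : (4 : ℝ) ≤ q := by
        by_contra h
        exact hq.2 ⟨hq.1.1, by linarith⟩
      have h2 : ub_nu w q ≤ 2 := by
        unfold ub_nu
        split_ifs <;> norm_num
      have h3 : ub_nu w q / q ≤ 2 / 4 := by
        apply div_le_div₀ (by norm_num) h2 (by norm_num) hq4
      linarith
    · intro q hq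
      unfold ub_nu
      split_ifs with h
      · have h5 : (1 - (1 : ℝ) / q) * (1 - 1 / q) = 1 - 2 / q + (1 / q) ^ 2 := by ring
        rw [h5]
        have : (0 : ℝ) ≤ (1 / (q : ℝ)) ^ 2 := by positivity
        linarith
      · rw [mul_one]
  refine h1.trans ?_
  have hly : 0 < Real.log y := Real.log_pos (by linarith)
  have hlw : 0 < Real.log w := Real.log_pos (by linarith)
  have hlw' : 0 < Real.log w' := Real.log_pos (by linarith)
  have hVy : c / Real.log y ≤ ub_V y := (hM y (by linarith)).1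
  have hVw : ub_V w ≤ C / Real.log w := (hM w (by linarith)).2
  have hVw' : ub_V w' ≤ C / Real.log w' := (hM w' (by linarith)).2
  have hcy : 0 < c / Real.log y := by positivity
  have h6 : ub_V w' / ub_V y ≤ (C / Real.log w') / (c / Real.log y) :=
    div_le_div₀ (by positivity) hVw' hcy hVy
  have h7 : ub_V w / ub_V y ≤ (C / Real.log w) / (c / Real.log y) :=
    div_le_div₀ (by positivity) hVw hcy hVy
  calc (ub_V w' / ub_V y) * (ub_V w / ub_V y) ≤
      ((C / Real.log w') / (c / Real.log y)) * ((C / Real.log w) / (c / Real.log y)) :=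
        mul_le_mul h6 h7 (div_nonneg (ub_V_pos hw0).le (ub_V_pos hy0).le) (by positivity)
    _ = (C / c) ^ 2 * (Real.log y) ^ 2 / (Real.log w * Real.log w') := by
        field_simp

private theorem ub_interval : ∃ K C : ℝ, 1 ≤ K ∧ 0 < C ∧ ∀ y w w' : ℝ, 4 ≤ y → y ≤ w → w ≤ w' →
    ∀ R : ℝ, 1 ≤ R → ∀ M : ℕ, 0 < M → (∀ q : ℕ, q.Prime → q ∣ M → (q : ℝ) ≤ y) → ∀ a : ℕ,
    evCount ((Ioc ⌊R⌋₊ ⌊2 * R⌋₊).filter (fun n => n ≡ a [MOD M]))
      (fun n => ∀ q : ℕ, (q.Prime ∧ y < (q : ℝ)) → (q : ℝ) ≤ w' → ¬ ub_occ w q n) ≤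
      C * (R / M) * ((Real.log y) ^ 2 / (Real.log w * Real.log w')) + w' ^ K := by
  classical
  obtain ⟨C1, hC1, hprod⟩ := ub_prod
  obtain ⟨K, hK, hS⟩ := Pool.Agent.Helper79.QRH.sieveFL 2 1 one_pos le_rfl
  refine ⟨K, Real.exp 1 * 2 * C1, hK, by positivity, ?_⟩
  intro y w w' hy hyw hww R hR M hM hMq a
  have hM0 : (0 : ℝ) < M := by exact_mod_cast hM
  have hR0 : (0 : ℝ) ≤ R := by linarith
  have hAB : ⌊R⌋₊ ≤ ⌊2 * R⌋₊ := Nat.floor_le_floor (by linarith)
  have hAB' : (⌊R⌋₊ : ℝ) ≤ (⌊2 * R⌋₊ : ℝ) := by exact_mod_cast hAB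
  set A := ⌊R⌋₊ with hA
  set B := ⌊2 * R⌋₊ with hB
  set X : ℝ := ((B : ℝ) - A) / M with hX
  have hX0 : 0 ≤ X := div_nonneg (by linarith) hM0.le
  have hXR : X ≤ 2 * (R / M) := by
    have h1 : (B : ℝ) ≤ 2 * R := Nat.floor_le (by linarith)
    have h2 : R < (A : ℝ) + 1 := Nat.lt_floor_add_one R
    rw [hX, ← mul_div_assoc]
    apply div_le_div_of_nonneg_right _ hM0.le
    linarith
  have h := hS ℕ (fun q : ℕ => q.Prime ∧ y < (q : ℝ)) (by
    rintro q ⟨h1, h2⟩
    refine ⟨h1, ?_⟩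
    have : (4 : ℝ) < q := by linarith
    have : 4 < q := by exact_mod_cast this
    omega) (ub_nu w) (by
    intro q _
    unfold ub_nu
    split_ifs <;> norm_num) w' (by linarith)
    ((Ioc A B).filter (fun n => n ≡ a [MOD M])) (fun q n => ub_occ w q n) X 1 hX0 zero_le_one (by
    intro I hI
    have h1 := ub_count w A B hAB I (fun q hq => (hI q hq).1.1) M hM (by
      intro q hq hd
      have := hMq q (hI q hq).1.1 hd
      linarith [(hI q hq).1.2]) a
    have h2 : evCount ((Ioc A B).filter (fun n => n ≡ a [MOD M]))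
        (fun n => ∀ q ∈ I, ub_occ w q n) = ((ub_S w A B M a I).card : ℝ) := by
      rw [evCount_eq]
      congr 2
      ext n
      rw [mem_ub_S, Finset.mem_filter, Finset.mem_filter, Finset.mem_Ioc, and_assoc]
    rw [h2]
    refine h1.trans ?_
    rw [one_mul]
    apply pow_le_pow_left₀ (by norm_num)
    norm_num)
  refine h.1.trans ?_
  rw [one_mul]
  have h3 := hprod y w w' hy hyw hww
  have h4 : 0 ≤ (Real.log y) ^ 2 / (Real.log w * Real.log w') := by
    apply div_nonneg (sq_nonneg _)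
    exact mul_nonneg (Real.log_nonneg (by linarith)) (Real.log_nonneg (by linarith))
  have h5 : Real.exp 1 * X * ∏ q ∈ pU (fun q : ℕ => q.Prime ∧ y < (q : ℝ)) w',
      (1 - ub_nu w q / q) ≤ Real.exp 1 * 2 * C1 * (R / M) *
        ((Real.log y) ^ 2 / (Real.log w * Real.log w')) := by
    calc Real.exp 1 * X * ∏ q ∈ pU (fun q : ℕ => q.Prime ∧ y < (q : ℝ)) w',
      (1 - ub_nu w q / q) ≤ Real.exp 1 * X *
          (C1 * (Real.log y) ^ 2 / (Real.log w * Real.log w')) :=
          mul_le_mul_of_nonneg_left h3 (by positivity)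
      _ ≤ Real.exp 1 * (2 * (R / M)) *
          (C1 * (Real.log y) ^ 2 / (Real.log w * Real.log w')) := by
          apply mul_le_mul_of_nonneg_right
          · exact mul_le_mul_of_nonneg_left hXR (Real.exp_pos _).le
          · rw [mul_div_assoc]
            exact mul_nonneg hC1.le h4
      _ = _ := by ring
  linarith

private theorem ub_tot {M : ℕ} (hM : 0 < M) {y : ℝ} (hy : 0 ≤ y)
    (h : ∀ q : ℕ, q.Prime → (q ∣ M ↔ (q : ℝ) ≤ y)) : (M.totient : ℝ) = M * ub_V y := by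
  have h1 := Nat.totient_eq_mul_prod_factors M
  have h2 : M.primeFactors = primesUpTo y := by
    ext q
    rw [mem_primesUpTo hy, Nat.mem_primeFactors]
    constructor
    · rintro ⟨h3, h4, _⟩
      exact ⟨h3, (h q h3).1 h4⟩
    · rintro ⟨h3, h4⟩
      exact ⟨h3, (h q h3).2 h4, hM.ne'⟩
  rw [h2] at h1
  have h3 : ((M.totient : ℚ) : ℝ) =
      (((M : ℚ) * ∏ p ∈ primesUpTo y, (1 - (p : ℚ)⁻¹) : ℚ) : ℝ) := by rw [h1]
  push_cast at h3
  rw [h3]
  unfold ub_V
  congr 1
  apply Finset.prod_congr rfl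
  intro q _
  rw [one_div]

private theorem ub_find {s : ℝ} (N : ℕ) {l : ℝ} (h1 : s < l) (h2 : l ≤ s * 2 ^ N) :
    ∃ i ∈ Finset.range N, s * 2 ^ i < l ∧ l ≤ 2 * (s * 2 ^ i) := by
  classical
  have hex : ∃ j : ℕ, l ≤ s * 2 ^ j := ⟨N, h2⟩
  set j := Nat.find hex with hj
  have hj1 : l ≤ s * 2 ^ j := Nat.find_spec hex
  have hjN : j ≤ N := Nat.find_min' hex h2
  have hj0 : j ≠ 0 := by
    intro h0
    rw [h0, pow_zero, mul_one] at hj1
    linarith
  obtain ⟨i, hi⟩ := Nat.exists_eq_succ_of_ne_zero hj0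
  refine ⟨i, Finset.mem_range.2 (by omega), ?_, ?_⟩
  · have := Nat.find_min hex (m := i) (by omega)
    exact not_le.1 this
  · rw [hi, pow_succ] at hj1
    linarith

private theorem ub_ev (κ κ₂ K : ℝ) (hκ0 : 0 < κ) (hκ2 : κ₂ < 1) : ∃ U0 : ℝ, 3 ≤ U0 ∧
    ∀ u : ℝ, U0 ≤ u → 4 ≤ u ^ κ ∧ 16 * K ≤ u ^ (1 - κ₂) ∧ u ^ 2 ≤ Real.exp (3 / 8 * u) := by
  have h1 := (tendsto_rpow_atTop hκ0).eventually_ge_atTop 4
  have h2 := (tendsto_rpow_atTop (show 0 < 1 - κ₂ by linarith)).eventually_ge_atTop (16 * K)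
  have h3 : ∀ᶠ u : ℝ in Filter.atTop, u ^ 2 ≤ Real.exp (3 / 8 * u) := by
    have h4 := (isLittleO_pow_exp_pos_mul_atTop 2 (show (0 : ℝ) < 3 / 8 by norm_num)).bound
      (show (0 : ℝ) < 1 by norm_num)
    filter_upwards [h4, Filter.eventually_ge_atTop 0] with u hu hu0
    rw [Real.norm_eq_abs, Real.norm_eq_abs, one_mul, abs_of_nonneg (by positivity),
      abs_of_pos (Real.exp_pos _)] at hu
    exact hu
  obtain ⟨U, hU⟩ := Filter.eventually_atTop.1 (h1.and (h2.and h3))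
  exact ⟨max U 3, le_max_right _ _, fun u hu => hU u ((le_max_left _ _).trans hu)⟩

private theorem ub_alg (u a b K κ l : ℝ) (ha : 0 < a) (hb : 0 < b) (hK : 0 < K)
    (h : b * a = u) :
    u * (u * ((κ * l) ^ 2 / (a * (u / (16 * K))))) = 16 * K * κ ^ 2 * (b * l ^ 2) := by
  rw [← h]
  field_simp

theorem ub : UB := by
  classical
  intro g hg κ κ₂ hκ0 hκ hκ2
  obtain ⟨G, hG, hgG⟩ := hg.exists_bound
  obtain ⟨K, C1, hK, hC1, hI⟩ := ub_interval
  obtain ⟨c, CM, hc, hCM, hMer⟩ := mertens_prod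
  obtain ⟨U0, hU3, hU0⟩ := ub_ev κ κ₂ K hκ0 hκ2
  refine ⟨(32 * G * C1 * K * κ ^ 2 + 2 * G) * (CM / κ), Real.exp U0, by positivity, ?_, ?_⟩
  · have := Real.add_one_le_exp U0
    linarith
  intro Q hQ M hM hMQ hMq a ha
  have hQ0 : 0 < Q := (Real.exp_pos _).trans_le hQ
  set u := Real.log Q with hu
  have huU : U0 ≤ u := by
    rw [hu, Real.le_log_iff_exp_le hQ0]
    exact hQ
  have hu3 : 3 ≤ u := hU3.trans huU
  have hu0 : 0 < u := by linarith
  obtain ⟨hy4, hK16, hexp⟩ := hU0 u huU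
  have hQu : Q = Real.exp u := by rw [hu, Real.exp_log hQ0]
  have hQ1 : 1 < Q := by
    rw [hQu]
    exact Real.one_lt_exp_iff.2 hu0
  have hM0 : (0 : ℝ) < M := by exact_mod_cast hM
  have hK0 : (0 : ℝ) < K := by linarith
  have hloguge : 1 ≤ Real.log u := by
    rw [Real.le_log_iff_exp_le hu0]
    have := Real.exp_one_lt_d9
    linarith
  -- parameters
  set y := yy κ Q with hy
  set w := ww κ₂ Q with hw
  have hyu : y = u ^ κ := rfl
  have hwu : w = Real.exp (u ^ κ₂) := rfl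
  set w' := Real.exp (u / (16 * K)) with hw'
  have hy4' : 4 ≤ y := by rw [hyu]; exact hy4
  have hyw : y ≤ w := by
    rw [hyu, hwu]
    have h1 : u ^ κ ≤ u ^ κ₂ := Real.rpow_le_rpow_of_exponent_le (by linarith) hκ.le
    have h2 := Real.add_one_le_exp (u ^ κ₂)
    linarith
  have hww : w ≤ w' := by
    rw [hwu, hw']
    apply Real.exp_le_exp.2
    rw [le_div_iff₀ (by positivity)]
    have h1 : u ^ κ₂ * u ^ (1 - κ₂) = u := by
      rw [← Real.rpow_add hu0]
      simp
    have h2 : 0 < u ^ κ₂ := Real.rpow_pos_of_pos hu0 _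
    nlinarith
  have hlogy : Real.log y = κ * Real.log u := by rw [hyu, Real.log_rpow hu0]
  have hlogw : Real.log w = u ^ κ₂ := by rw [hwu, Real.log_exp]
  have hlogw' : Real.log w' = u / (16 * K) := by rw [hw', Real.log_exp]
  have hwK : w' ^ K = Real.exp (u / 16) := by
    rw [hw', ← Real.exp_mul]
    congr 1
    field_simp
  set s := Real.exp (u / 2) with hs
  have hs1 : 1 ≤ s := Real.one_le_exp (by positivity)
  have hw's : w' < s := by
    apply Real.exp_lt_exp.2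
    apply div_lt_div_of_pos_left hu0 (by norm_num)
    linarith
  set L : ℝ := (Real.log y) ^ 2 / (Real.log w * Real.log w') with hL
  have hL0 : 0 ≤ L := by
    rw [hL, hlogw, hlogw']
    have : 0 < u ^ κ₂ := Real.rpow_pos_of_pos hu0 _
    positivity
  set N : ℕ := ⌊u⌋₊ + 1 with hN
  have hN1 : u < (N : ℝ) := by
    rw [hN]
    push_cast
    exact Nat.lt_floor_add_one u
  have hN2 : (N : ℝ) ≤ 2 * u := by
    rw [hN]
    push_cast
    have := Nat.floor_le hu0.le
    linarith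
  have hsN : Q ≤ s * 2 ^ N := by
    have h1 : Real.exp (u / 2) ≤ (2 : ℝ) ^ N := by
      have h2 : ((2 : ℝ)) ^ N = Real.exp (Real.log 2 * N) := by
        rw [← Real.rpow_natCast, Real.rpow_def_of_pos (by norm_num)]
      rw [h2]
      apply Real.exp_le_exp.2
      have := Real.log_two_gt_d9
      nlinarith
    calc Q = s * Real.exp (u / 2) := by
          rw [hQu, hs, ← Real.exp_add]
          congr 1
          ring
      _ ≤ s * 2 ^ N := mul_le_mul_of_nonneg_left h1 (Real.exp_pos _).le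
  set R : ℕ → ℝ := fun i => s * 2 ^ i with hR
  have hRs : ∀ i, s ≤ R i := by
    intro i
    have h1 : (1 : ℝ) ≤ 2 ^ i := one_le_pow₀ (by norm_num)
    simp only [hR]
    nlinarith
  have hR0 : ∀ i, 0 < R i := fun i => by linarith [hRs i]
  set T := (semi Q y w).filter (fun l : ℕ => l ≡ a [MOD M]) with hT
  have hterm : ∀ l ∈ T, sw g Q l ≤ ∑ i ∈ Finset.range N,
      (if R i < (l : ℝ) ∧ (l : ℝ) ≤ 2 * R i then G * u / R i else 0) := by
    intro l hl
    have hnn : ∀ i ∈ Finset.range N,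
        0 ≤ (if R i < (l : ℝ) ∧ (l : ℝ) ≤ 2 * R i then G * u / R i else 0) := by
      intro i _
      split_ifs
      · have := hR0 i
        positivity
      · exact le_rfl
    rw [hT, Finset.mem_filter, mem_semi] at hl
    have hlQ : (l : ℝ) ≤ Q := by
      have h1 : (l : ℝ) ≤ (⌊Q⌋₊ : ℝ) := by exact_mod_cast hl.1.1.2
      exact h1.trans (Nat.floor_le hQ0.le)
    by_cases hls : (l : ℝ) ≤ s
    · have h0 : sw g Q l = 0 := by
        unfold sw
        rw [wt_zero hg hQ1, mul_zero]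
        refine hls.trans ?_
        rw [hQu, ← Real.exp_mul, hs]
        apply Real.exp_le_exp.2
        linarith
      rw [h0]
      exact Finset.sum_nonneg hnn
    · rw [not_le] at hls
      obtain ⟨i, hi, hi1, hi2⟩ := ub_find N hls (hlQ.trans hsN)
      refine le_trans ?_ (Finset.single_le_sum hnn hi)
      rw [if_pos ⟨hi1, hi2⟩]
      have hl0 : (0 : ℝ) < l := by linarith
      have hlogl : Real.log l ≤ u := Real.log_le_log hl0 hlQ
      have hlogl0 : 0 ≤ Real.log l := Real.log_nonneg (by linarith)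
      have h3 : g (Real.log l / Real.log Q) ≤ G := hgG _
      have h4 : 0 ≤ g (Real.log l / Real.log Q) := hg.nonneg _
      unfold sw wt
      rw [← mul_div_assoc]
      apply div_le_div₀ (by positivity) _ (hR0 i) hi1.le
      rw [mul_comm]
      exact mul_le_mul h3 hlogl hlogl0 hG.le
  have hcard : ∀ i ∈ Finset.range N,
      ((T.filter (fun l : ℕ => R i < (l : ℝ) ∧ (l : ℝ) ≤ 2 * R i)).card : ℝ) ≤
        C1 * (R i / M) * L + w' ^ K := by
    intro i _
    refine le_trans ?_ (hI y w w' hy4' hyw hww (R i) (hs1.trans (hRs i)) M hM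
      (fun q hq hd => (hMq q hq).1 hd) a)
    rw [evCount_eq]
    have hsub : T.filter (fun l : ℕ => R i < (l : ℝ) ∧ (l : ℝ) ≤ 2 * R i) ⊆
        ((Ioc ⌊R i⌋₊ ⌊2 * R i⌋₊).filter (fun n => n ≡ a [MOD M])).filter
          (fun n => ∀ q : ℕ, (q.Prime ∧ y < (q : ℝ)) → (q : ℝ) ≤ w' → ¬ ub_occ w q n) := by
      intro l hl
      rw [Finset.mem_filter, hT, Finset.mem_filter, mem_semi] at hl
      obtain ⟨⟨⟨_, hlp, hlq⟩, hla⟩, hl1, hl2⟩ := hl
      rw [Finset.mem_filter, Finset.mem_filter, Finset.mem_Ioc]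
      refine ⟨⟨⟨(Nat.floor_lt (hR0 i).le).2 hl1, Nat.le_floor hl2⟩, hla⟩, ?_⟩
      rintro q ⟨hq1, hq2⟩ hq3 hocc
      rcases hocc with hocc | ⟨hocc, hocc'⟩
      · have h1 := (Nat.prime_dvd_prime_iff_eq hq1 hlp).1 hocc
        rw [h1] at hq3
        linarith [hRs i]
      · exact hlq q hq1 hq2 hocc hocc'
    exact_mod_cast Finset.card_le_card hsub
  have hbig : fa g Q y w M a ≤ N * (G * u * C1 * L / M + G * u * w' ^ K / s) := by
    calc fa g Q y w M a = ∑ l ∈ T, sw g Q l := rfl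
      _ ≤ ∑ l ∈ T, ∑ i ∈ Finset.range N,
          (if R i < (l : ℝ) ∧ (l : ℝ) ≤ 2 * R i then G * u / R i else 0) :=
          Finset.sum_le_sum hterm
      _ = ∑ i ∈ Finset.range N,
          ((T.filter (fun l : ℕ => R i < (l : ℝ) ∧ (l : ℝ) ≤ 2 * R i)).card : ℝ) *
            (G * u / R i) := by
          rw [Finset.sum_comm]
          apply Finset.sum_congr rfl
          intro i _
          rw [← Finset.sum_filter, Finset.sum_const, nsmul_eq_mul]
      _ ≤ ∑ i ∈ Finset.range N, (G * u * C1 * L / M + G * u * w' ^ K / s) := by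
          apply Finset.sum_le_sum
          intro i hi
          have h1 := hR0 i
          have h2 := hcard i hi
          have h3 : 0 < w' ^ K := Real.rpow_pos_of_pos (Real.exp_pos _) _
          have h4 : 0 < s := by linarith
          calc ((T.filter (fun l : ℕ => R i < (l : ℝ) ∧ (l : ℝ) ≤ 2 * R i)).card : ℝ) *
            (G * u / R i) ≤ (C1 * (R i / M) * L + w' ^ K) * (G * u / R i) :=
                mul_le_mul_of_nonneg_right h2 (by positivity)
            _ = G * u * C1 * L / M + G * u * w' ^ K / R i := by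
                field_simp
            _ ≤ G * u * C1 * L / M + G * u * w' ^ K / s := by
                have := div_le_div_of_nonneg_left (a := G * u * w' ^ K) (by positivity) h4 (hRs i)
                linarith
      _ = _ := by
          rw [Finset.sum_const, Finset.card_range, nsmul_eq_mul]
  -- the two terms
  set E : ℝ := u ^ (1 - κ₂) * (Real.log u) ^ 2 with hE
  have hE1 : 1 ≤ E := by
    have h1 : 1 ≤ u ^ (1 - κ₂) := by linarith
    have h2 : 1 ≤ (Real.log u) ^ 2 := one_le_pow₀ hloguge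
    rw [hE]
    nlinarith
  have ht1 : N * (G * u * C1 * L / M) ≤ 32 * G * C1 * K * κ ^ 2 * (E / M) := by
    have h1 : u * (u * L) = 16 * K * κ ^ 2 * E := by
      rw [hL, hlogy, hlogw, hlogw', hE]
      have h2 : u ^ (1 - κ₂) * u ^ κ₂ = u := by
        rw [← Real.rpow_add hu0]
        simp
      exact ub_alg u (u ^ κ₂) (u ^ (1 - κ₂)) K κ (Real.log u) (Real.rpow_pos_of_pos hu0 _)
        (Real.rpow_pos_of_pos hu0 _) hK0 h2
    calc (N : ℝ) * (G * u * C1 * L / M) ≤ (2 * u) * (G * u * C1 * L / M) :=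
          mul_le_mul_of_nonneg_right hN2 (by positivity)
      _ = 2 * G * C1 * (u * (u * L)) / M := by ring
      _ = _ := by rw [h1]; ring
  have ht2 : N * (G * u * w' ^ K / s) ≤ 2 * G * (E / M) := by
    have h1 : w' ^ K / s = Real.exp (u / 16 - u / 2) := by
      rw [hwK, hs, ← Real.exp_sub]
    have h2 : Real.exp (-(u / 16)) ≤ 1 / M := by
      rw [Real.exp_neg, ← one_div]
      apply one_div_le_one_div_of_le hM0
      refine hMQ.trans ?_
      rw [hQu, ← Real.exp_mul]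
      apply Real.exp_le_exp.2
      linarith
    calc (N : ℝ) * (G * u * w' ^ K / s) = N * (G * u * (w' ^ K / s)) := by ring
      _ ≤ (2 * u) * (G * u * (w' ^ K / s)) := by
          apply mul_le_mul_of_nonneg_right hN2
          rw [h1]
          positivity
      _ = 2 * G * (u ^ 2 * Real.exp (u / 16 - u / 2)) := by rw [h1]; ring
      _ ≤ 2 * G * (Real.exp (3 / 8 * u) * Real.exp (u / 16 - u / 2)) := by
          apply mul_le_mul_of_nonneg_left _ (by positivity)
          exact mul_le_mul_of_nonneg_right hexp (Real.exp_pos _).le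
      _ = 2 * G * Real.exp (-(u / 16)) := by
          rw [← Real.exp_add]
          congr 2
          ring
      _ ≤ 2 * G * (1 / M) := mul_le_mul_of_nonneg_left h2 (by positivity)
      _ ≤ 2 * G * (E / M) := by
          apply mul_le_mul_of_nonneg_left _ (by positivity)
          exact div_le_div_of_nonneg_right hE1 hM0.le
  have hfa : fa g Q y w M a ≤ (32 * G * C1 * K * κ ^ 2 + 2 * G) * (E / M) := by
    refine hbig.trans ?_
    rw [mul_add, add_mul]
    exact add_le_add ht1 ht2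
  -- totient
  have htot := ub_tot hM (by linarith : (0 : ℝ) ≤ y) hMq
  have hV : ub_V y ≤ CM / Real.log y := (hMer y (by linarith)).2
  have hV0 : 0 < ub_V y := ub_V_pos (by linarith)
  have hφ0 : (0 : ℝ) < M.totient := by exact_mod_cast Nat.totient_pos.2 hM
  have hlu : 0 < Real.log u := by linarith
  have hinv : (1 : ℝ) / M ≤ CM / (κ * Real.log u) / M.totient := by
    rw [div_le_div_iff₀ hM0 hφ0, one_mul, htot, mul_comm]
    rw [hlogy] at hV
    exact mul_le_mul_of_nonneg_right hV hM0.le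
  refine hfa.trans ?_
  have h5 : E / M = E * (1 / M) := by ring
  rw [h5]
  calc (32 * G * C1 * K * κ ^ 2 + 2 * G) * (E * (1 / M)) ≤
      (32 * G * C1 * K * κ ^ 2 + 2 * G) * (E * (CM / (κ * Real.log u) / M.totient)) := by
        apply mul_le_mul_of_nonneg_left _ (by positivity)
        exact mul_le_mul_of_nonneg_left hinv (by linarith)
    _ = (32 * G * C1 * K * κ ^ 2 + 2 * G) * (CM / κ) *
        (u ^ (1 - κ₂) * Real.log u) / M.totient := by
        rw [hE]
        field_simp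

end Pool.Agent.Helper61.CA
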