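import Pool.Agent.Helper61.CA.PS
import Pool.Agent.Helper61.CA.UB
import Pool.Agent.Helper61.CA.NotNice
import Pool.Agent.Helper61.CA.Drop
import Pool.Agent.Helper61.CA.Conv
import Pool.Agent.Helper61.CA.Degen

/-! # CA-S2: assembly of step 2 -/

set_option autoImplicit false

open Finset Filter Topology

namespace Pool.Agent.Helper61.CA

open Pool.Agent.Helper18.BV

theorem s2_sw_nonneg {g : ℝ → ℝ} (hg : IsWt g) (Q : ℝ) (l : ℕ) : 0 ≤ sw g Q l :=
  mul_nonneg (Real.log_natCast_nonneg l) (wt_nonneg hg Q l)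

/-- `y < √Q` -/
theorem s2_y_lt (κ : ℝ) (hκ : κ < 1) : ∃ X0 : ℝ, 3 ≤ X0 ∧ ∀ Q : ℝ, X0 ≤ Q →
    yy κ Q < Q ^ (1 / 2 : ℝ) ∧ 1 ≤ Real.log Q := by
  have h := (isLittleO_log_rpow_rpow_atTop 1 (show (0 : ℝ) < 1 / 2 by norm_num)).bound
    (show (0 : ℝ) < 1 / 2 by norm_num)
  obtain ⟨X, hX⟩ := h.exists_forall_of_atTop
  obtain ⟨X1, hX1⟩ := (Real.tendsto_log_atTop.eventually_ge_atTop 1).exists_forall_of_atTop
  refine ⟨max (max X X1) 3, le_max_right _ _, fun Q hQ => ?_⟩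
  have hQX : X ≤ Q := (le_max_left X X1).trans ((le_max_left _ _).trans hQ)
  have hQX1 : X1 ≤ Q := (le_max_right X X1).trans ((le_max_left _ _).trans hQ)
  have hQ3 : (3 : ℝ) ≤ Q := (le_max_right _ _).trans hQ
  have hlog := hX1 Q hQX1
  have h1 := hX Q hQX
  rw [Real.rpow_one, Real.norm_of_nonneg (by linarith), Real.norm_of_nonneg (by positivity)] at h1
  refine ⟨?_, hlog⟩
  have h2 : yy κ Q ≤ Real.log Q := by
    unfold yy
    calc Real.log Q ^ κ ≤ Real.log Q ^ (1 : ℝ) := Real.rpow_le_rpow_of_exponent_le hlog hκ.le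
      _ = Real.log Q := Real.rpow_one _
  have h3 : 0 < Q ^ (1 / 2 : ℝ) := by positivity
  linarith

theorem step2_of (hUB : UB) (hNN : NotNice) : Step2 := by
  classical
  intro κ κ₂ E hκ hκ₂ h2 hE
  have hκ0 : 0 < κ := by linarith
  have hE1 : 1 ≤ E := by linarith
  obtain ⟨g, hg, hgn, -⟩ := exists_wt (τ := 1 / 4) (by norm_num) (by norm_num)
  obtain ⟨c, X1, hc, hX1, hlb⟩ := lb g hg hgn κ κ₂ hκ0 hκ₂ h2
  obtain ⟨C, X2, hC, hX2, hubd⟩ := ubd hUB g hg κ κ₂ E hκ0 hκ₂ h2 hE1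
  obtain ⟨Cn, hCn, hnn⟩ := hNN g hg hgn κ κ₂ E hκ hκ₂ h2 hE
  obtain ⟨G, hG, hgG⟩ := hg.exists_bound
  -- the small constant
  set ε : ℝ := min (1 / 2) (c / (16 * C)) with hε
  have hε0 : 0 < ε := lt_min (by norm_num) (by positivity)
  have hε1 : ε ≤ 1 / 2 := min_le_left _ _
  have hε2 : ε * C / c ≤ 1 / 16 := by
    have : ε ≤ c / (16 * C) := min_le_right _ _
    rw [div_le_iff₀ hc]
    calc ε * C ≤ c / (16 * C) * C := mul_le_mul_of_nonneg_right this hC.le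
      _ = 1 / 16 * c := by field_simp
  obtain ⟨B, hB⟩ := drop pureSieve lb hUB g hg hgn κ κ₂ E hκ0 hκ₂ h2 hE1 (ε / 3) (by positivity)
  refine ⟨B, max 2 (⌈3 * Cn * B / ε⌉₊ + 1), ?_⟩
  intro q₀ hq₀
  have hq2 : 2 ≤ q₀ := (le_max_left _ _).trans hq₀
  have hqB : Cn * B / q₀ ≤ ε / 3 := by
    have h1 : (⌈3 * Cn * B / ε⌉₊ : ℝ) + 1 ≤ q₀ := by
      have := (le_max_right 2 (⌈3 * Cn * B / ε⌉₊ + 1)).trans hq₀
      exact_mod_cast this
    have h3 := Nat.le_ceil (3 * Cn * B / ε)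
    have h4 : 3 * Cn * B / ε ≤ q₀ := by linarith
    rw [div_le_iff₀ hε0] at h4
    have h5 : (0 : ℝ) < q₀ := by
      have : (2 : ℝ) ≤ q₀ := by exact_mod_cast hq2
      linarith
    rw [div_le_iff₀ h5]
    linarith
  obtain ⟨X3, hX3, hdrop⟩ := hB q₀
  obtain ⟨X4, hX4, hnn2⟩ := hnn B (ε / 3) (by positivity)
  obtain ⟨X5, hX5, hdeg⟩ := degen g hg κ₂ (by linarith) h2
  obtain ⟨X6, hX6, hmod⟩ := modl_le κ E hκ0 (by linarith) hE1
  obtain ⟨X7, hX7, hylt⟩ := s2_y_lt κ (by linarith)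
  have hev : ∀ᶠ u : ℝ in atTop, 1 ≤ c * (u ^ (1 - κ₂) * Real.log u) ∧ 32 * G ^ 3 ≤ u ∧ 32 ≤ u := by
    have h1 : Tendsto (fun u : ℝ => c * (u ^ (1 - κ₂) * Real.log u)) atTop atTop :=
      ((tendsto_rpow_atTop (by linarith : (0 : ℝ) < 1 - κ₂)).atTop_mul_atTop₀
        Real.tendsto_log_atTop).const_mul_atTop hc
    exact (h1.eventually_ge_atTop 1).and ((eventually_ge_atTop _).and (eventually_ge_atTop _))
  obtain ⟨X8, hX8⟩ := (Real.tendsto_log_atTop.eventually hev).exists_forall_of_atTop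
  refine ⟨max (max (max X1 X2) (max X3 X4)) (max (max X5 X6) (max X7 X8)),
    hX1.trans ((le_max_left _ _).trans ((le_max_left _ _).trans (le_max_left _ _))), ?_⟩
  intro Q hQ
  have hQ1 : X1 ≤ Q := (le_max_left X1 X2).trans ((le_max_left _ _).trans
    ((le_max_left _ _).trans hQ))
  have hQ2 : X2 ≤ Q := (le_max_right X1 X2).trans ((le_max_left _ _).trans
    ((le_max_left _ _).trans hQ))
  have hQ3 : X3 ≤ Q := (le_max_left X3 X4).trans ((le_max_right _ _).trans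
    ((le_max_left _ _).trans hQ))
  have hQ4 : X4 ≤ Q := (le_max_right X3 X4).trans ((le_max_right _ _).trans
    ((le_max_left _ _).trans hQ))
  have hQ5 : X5 ≤ Q := (le_max_left X5 X6).trans ((le_max_left _ _).trans
    ((le_max_right _ _).trans hQ))
  have hQ6 : X6 ≤ Q := (le_max_right X5 X6).trans ((le_max_left _ _).trans
    ((le_max_right _ _).trans hQ))
  have hQ7 : X7 ≤ Q := (le_max_left X7 X8).trans ((le_max_right _ _).trans
    ((le_max_right _ _).trans hQ))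
  have hQ8 : X8 ≤ Q := (le_max_right X7 X8).trans ((le_max_right _ _).trans
    ((le_max_right _ _).trans hQ))
  have hQ0 : (3 : ℝ) ≤ Q := hX1.trans hQ1
  obtain ⟨hu1, hu2, hu3⟩ := hX8 Q hQ8
  obtain ⟨hylt1, hlog1⟩ := hylt Q hQ7
  have hlog0 : 0 < Real.log Q := by linarith
  obtain ⟨R, hRc, hRq, hRχ⟩ := hdrop Q hQ3
  refine ⟨R, hRc, hRq, ?_⟩
  intro r hr
  obtain ⟨hM0, hMd, hMQ, hMp⟩ := hmod Q hQ6 R
  set M : ℕ := modl (yy κ Q) (ZZ E Q) R with hM
  set F : ℝ := F0 g Q (yy κ Q) (ww κ₂ Q) with hF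
  set L : ℝ := Real.log Q ^ (1 - κ₂) * Real.log (Real.log Q) with hL
  have hFL : c * L ≤ F := hlb Q hQ1
  have hF1 : 1 ≤ F := hu1.trans hFL
  -- the nice primes
  set S : Finset ℕ := (semi Q (yy κ Q) (ww κ₂ Q)).filter
    (fun l => Nice M (ww κ₂ Q) l ∧ Q ^ (1 / 2 : ℝ) < (l : ℝ)) with hS
  set S' : Finset ℕ := (semi Q (yy κ Q) (ww κ₂ Q)).filter
    (fun l => ¬ Nice M (ww κ₂ Q) l) with hS'
  have hnnS : ∑ l ∈ S', sw g Q l ≤ (2 * ε / 3) * F := by
    have h1 := hnn2 Q hQ4 R q₀ hq2 hRc hRq S' (fun l hl => Finset.mem_filter.1 hl)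
    refine h1.trans ?_
    refine mul_le_mul_of_nonneg_right ?_ (by linarith)
    linarith
  have hswQ : ∀ l : ℕ, ¬ Q ^ (1 / 2 : ℝ) < (l : ℝ) → sw g Q l = 0 := by
    intro l hl
    push Not at hl
    unfold sw
    rw [wt_zero hg (by linarith) hl, mul_zero]
  have hsplit : ∀ h : ℕ → ℂ, ∑ l ∈ semi Q (yy κ Q) (ww κ₂ Q), (sw g Q l : ℂ) * h l =
      ∑ l ∈ S, (sw g Q l : ℂ) * h l + ∑ l ∈ S', (sw g Q l : ℂ) * h l := by
    intro h
    rw [hS, hS', Finset.sum_filter, Finset.sum_filter, ← Finset.sum_add_distrib]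
    refine Finset.sum_congr rfl fun l _ => ?_
    by_cases h1 : Nice M (ww κ₂ Q) l
    · by_cases h3 : Q ^ (1 / 2 : ℝ) < (l : ℝ)
      · rw [if_pos ⟨h1, h3⟩, if_neg (not_not.2 h1), add_zero]
      · rw [if_neg (fun h => h3 h.2), if_neg (not_not.2 h1), hswQ l h3]
        simp
    · rw [if_neg (fun h => h1 h.1), if_pos h1, zero_add]
  have hsplitR : F = ∑ l ∈ S, sw g Q l + ∑ l ∈ S', sw g Q l := by
    have h1 := hsplit (fun _ => 1)
    simp only [mul_one] at h1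
    have : ((F : ℝ) : ℂ) = ((∑ l ∈ S, sw g Q l + ∑ l ∈ S', sw g Q l : ℝ) : ℂ) := by
      push_cast
      rw [← h1, hF]
      unfold F0
      push_cast
      rfl
    exact_mod_cast this
  have hsw0 := s2_sw_nonneg hg Q
  have hS'0 : 0 ≤ ∑ l ∈ S', sw g Q l := Finset.sum_nonneg fun l _ => hsw0 l
  have hSle : ∑ l ∈ S, sw g Q l ≤ F := by linarith
  have hSge : F / 2 ≤ ∑ l ∈ S, sw g Q l := by
    have : (2 * ε / 3) * F ≤ F / 2 := by nlinarith
    linarith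
  -- the convolution
  have hyw : Real.log Q ^ κ₂ < ww κ₂ Q := by
    unfold ww
    have := Real.add_one_le_exp (Real.log Q ^ κ₂)
    linarith
  have hScop : ∀ l ∈ S, l.Coprime M := by
    intro l hl
    have h1 := Finset.mem_filter.1 hl
    have hlp := (mem_semi.1 h1.1).2.1
    rw [Nat.Prime.coprime_iff_not_dvd hlp]
    intro hd
    have h3 := ((hMp l hlp).1 hd).1
    have h4 := h1.2.2
    linarith
  have hconv := conv M hM0 S (sw g Q) (C * L) (ε * F) hScop (fun l _ => hsw0 l) (by positivity)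
    (by
      intro a ha
      have h1 := hubd Q hQ2 M hMd a ha
      refine le_trans ?_ h1
      unfold fa
      refine Finset.sum_le_sum_of_subset_of_nonneg ?_ (fun l _ _ => hsw0 l)
      intro l hl
      have h3 := Finset.mem_filter.1 hl
      exact Finset.mem_filter.2 ⟨(Finset.mem_filter.1 h3.1).1, h3.2⟩)
    (by
      intro χ hχ
      have h1 := hRχ χ hχ
      have h3 : ∑ l ∈ S, (sw g Q l : ℂ) * χ (l : ZMod M) = fh g Q (yy κ Q) (ww κ₂ Q) χ -
          ∑ l ∈ S', (sw g Q l : ℂ) * χ (l : ZMod M) := by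
        unfold fh
        rw [hsplit (fun l => χ (l : ZMod M))]
        ring
      rw [h3]
      have h4 : ‖∑ l ∈ S', (sw g Q l : ℂ) * χ (l : ZMod M)‖ ≤ ∑ l ∈ S', sw g Q l := by
        refine (norm_sum_le _ _).trans (Finset.sum_le_sum fun l _ => ?_)
        rw [norm_mul, Complex.norm_real, Real.norm_of_nonneg (hsw0 l)]
        exact mul_le_of_le_one_right (hsw0 l) (χ.norm_le_one _)
      calc _ ≤ ‖fh g Q (yy κ Q) (ww κ₂ Q) χ‖ + ‖∑ l ∈ S', (sw g Q l : ℂ) * χ (l : ZMod M)‖ :=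
            norm_sub_le _ _
        _ ≤ ε / 3 * F + (2 * ε / 3) * F := add_le_add h1 (h4.trans hnnS)
        _ = ε * F := by ring)
    r hr
  set Sg : ℝ := ∑ l ∈ S, sw g Q l with hSg
  have hMt : (0 : ℝ) < M.totient := by exact_mod_cast Nat.totient_pos.2 hM0
  have hMr : (0 : ℝ) < M := by exact_mod_cast hM0
  have hlow : 1 / (16 * M) ≤ (Sg ^ 3 - ε * F * (C * L) * Sg) / M.totient := by
    have a1 : F ^ 3 / 8 ≤ Sg ^ 3 := by
      have := pow_le_pow_left₀ (by linarith : (0 : ℝ) ≤ F / 2) hSge 3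
      calc F ^ 3 / 8 = (F / 2) ^ 3 := by ring
        _ ≤ _ := this
    have a2 : ε * F * (C * L) * Sg ≤ F ^ 3 / 16 := by
      have b1 : C * L ≤ C / c * F := by
        calc C * L = C / c * (c * L) := by field_simp
          _ ≤ C / c * F := mul_le_mul_of_nonneg_left hFL (by positivity)
      have hFpos : 0 < F := by linarith
      calc ε * F * (C * L) * Sg ≤ ε * F * (C / c * F) * F := by
            refine mul_le_mul (mul_le_mul_of_nonneg_left b1 (by positivity)) hSle ?_ (by positivity)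
            linarith
        _ = (ε * C / c) * F ^ 3 := by ring
        _ ≤ 1 / 16 * F ^ 3 := mul_le_mul_of_nonneg_right hε2 (by positivity)
        _ = F ^ 3 / 16 := by ring
    have a3 : 1 / 16 ≤ Sg ^ 3 - ε * F * (C * L) * Sg := by
      have : 1 ≤ F ^ 3 := one_le_pow₀ hF1
      linarith
    have a4 : (M.totient : ℝ) ≤ M := by exact_mod_cast Nat.totient_le M
    calc 1 / (16 * (M : ℝ)) = (1 / 16) / M := by rw [div_div]
      _ ≤ (1 / 16) / M.totient := div_le_div_of_nonneg_left (by norm_num) hMt a4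
      _ ≤ _ := div_le_div_of_nonneg_right a3 hMt.le
  -- good and degenerate triples
  set U : Finset (ℕ × ℕ × ℕ) :=
    (S ×ˢ (S ×ˢ S)).filter (fun t => t.1 * t.2.1 * t.2.2 * r ≡ 1 [MOD M]) with hU
  set T : Finset (ℕ × ℕ × ℕ) := U.filter (fun t => Good Q (ww κ₂ Q) M r t) with hT
  set T' : Finset (ℕ × ℕ × ℕ) := U.filter (fun t => ¬ Good Q (ww κ₂ Q) M r t) with hT'
  have hSmem : ∀ l ∈ S, l.Prime ∧ l ≤ ⌊Q⌋₊ ∧ l.Coprime M := by
    intro l hl
    have h1 := mem_semi.1 (Finset.mem_filter.1 hl).1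
    exact ⟨h1.2.1, h1.1.2, hScop l hl⟩
  have hsqrt : Real.sqrt Q = Q ^ (1 / 2 : ℝ) := Real.sqrt_eq_rpow Q
  have hle : ∀ l ∈ S, (l : ℝ) ≤ Q := fun l hl =>
    (Nat.le_floor_iff (by linarith)).1 (hSmem l hl).2.1
  have hT'deg := hdeg Q hQ5 M r hM0 hMQ hr S hSmem T' (by
    intro t ht
    obtain ⟨htU, hbad⟩ := Finset.mem_filter.1 ht
    obtain ⟨htS, hcl⟩ := Finset.mem_filter.1 htU
    rw [Finset.mem_product, Finset.mem_product] at htS
    obtain ⟨s1, s2, s3⟩ := htS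
    refine ⟨s1, s2, s3, hcl, ?_⟩
    by_contra hcon
    push Not at hcon
    obtain ⟨n1, n2, n3, n4, n5, n6, n7, n8, n9, n10⟩ := hcon
    have m1 := Finset.mem_filter.1 s1
    have m2 := Finset.mem_filter.1 s2
    have m3 := Finset.mem_filter.1 s3
    apply hbad
    refine ⟨⟨(hSmem _ s1).1, (hSmem _ s2).1, (hSmem _ s3).1⟩, ?_, ⟨hle _ s1, hle _ s2, hle _ s3⟩,
      ⟨n1, n2, n3⟩, ⟨m1.2.1, m2.2.1, m3.2.1⟩, ⟨n4, n5, n6, n7, n8, n9⟩, ?_, hcl⟩
    · rw [hsqrt]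
      exact ⟨m1.2.2, m2.2.2, m3.2.2⟩
    · intro q hq hwq
      obtain ⟨k1, k2, k3⟩ := n10 q hq hwq
      exact ⟨fun h => k1 h.1 h.2, fun h => k2 h.1 h.2, fun h => k3 h.1 h.2⟩)
  have hsum : ∑ t ∈ U, sw g Q t.1 * sw g Q t.2.1 * sw g Q t.2.2 =
      ∑ t ∈ T, sw g Q t.1 * sw g Q t.2.1 * sw g Q t.2.2 +
      ∑ t ∈ T', sw g Q t.1 * sw g Q t.2.1 * sw g Q t.2.2 :=
    (Finset.sum_filter_add_sum_filter_not U (fun t => Good Q (ww κ₂ Q) M r t) _).symm
  have hTlow : 1 / (32 * M) ≤ ∑ t ∈ T, sw g Q t.1 * sw g Q t.2.1 * sw g Q t.2.2 := by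
    have a1 : 1 / (M : ℝ) * (1 / Real.log Q) ≤ 1 / (M : ℝ) * (1 / 32) :=
      mul_le_mul_of_nonneg_left (one_div_le_one_div_of_le (by norm_num) hu3) (by positivity)
    have a2 : 1 / (16 * (M : ℝ)) = 1 / (32 * M) + 1 / (M : ℝ) * (1 / 32) := by
      field_simp; ring
    linarith [hlow.trans hconv]
  refine ⟨T, fun t ht => (Finset.mem_filter.1 ht).2, ?_⟩
  -- comparison of the weights
  have hsw : ∀ l ∈ S, sw g Q l ≤ (G * Real.log Q) * (1 / l) := by
    intro l hl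
    have hl0 : (0 : ℝ) < l := by exact_mod_cast (hSmem l hl).1.pos
    have h1 : Real.log l ≤ Real.log Q := Real.log_le_log hl0 (hle l hl)
    have h3 : 0 ≤ Real.log l := Real.log_natCast_nonneg l
    unfold sw wt
    calc Real.log l * (g (Real.log l / Real.log Q) / l)
        ≤ Real.log Q * (G / l) := by
          refine mul_le_mul h1 (div_le_div_of_nonneg_right (hgG _) hl0.le) ?_ hlog0.le
          exact div_nonneg (hg.nonneg _) hl0.le
      _ = _ := by ring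
  have hTU : ∀ t ∈ T, t.1 ∈ S ∧ t.2.1 ∈ S ∧ t.2.2 ∈ S := by
    intro t ht
    have h1 := (Finset.mem_filter.1 (Finset.mem_filter.1 ht).1).1
    rw [Finset.mem_product, Finset.mem_product] at h1
    exact h1
  have hup : ∑ t ∈ T, sw g Q t.1 * sw g Q t.2.1 * sw g Q t.2.2 ≤
      (G * Real.log Q) ^ 3 * ∑ t ∈ T, 1 / ((t.1 : ℝ) * t.2.1 * t.2.2) := by
    rw [Finset.mul_sum]
    refine Finset.sum_le_sum fun t ht => ?_
    obtain ⟨s1, s2, s3⟩ := hTU t ht
    have p1 : (0 : ℝ) < t.1 := by exact_mod_cast (hSmem _ s1).1.pos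
    have p2 : (0 : ℝ) < t.2.1 := by exact_mod_cast (hSmem _ s2).1.pos
    have p3 : (0 : ℝ) < t.2.2 := by exact_mod_cast (hSmem _ s3).1.pos
    calc sw g Q t.1 * sw g Q t.2.1 * sw g Q t.2.2
        ≤ ((G * Real.log Q) * (1 / t.1)) * ((G * Real.log Q) * (1 / t.2.1)) *
          ((G * Real.log Q) * (1 / t.2.2)) := by
          refine mul_le_mul (mul_le_mul (hsw _ s1) (hsw _ s2) (hsw0 _) (by positivity))
            (hsw _ s3) (hsw0 _) (by positivity)
      _ = (G * Real.log Q) ^ 3 * (1 / ((t.1 : ℝ) * t.2.1 * t.2.2)) := by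
        field_simp
  have hGQ : 0 < (G * Real.log Q) ^ 3 := by positivity
  have h1 := hTlow.trans hup
  have h3 : 1 / (32 * M) / (G * Real.log Q) ^ 3 ≤ ∑ t ∈ T, 1 / ((t.1 : ℝ) * t.2.1 * t.2.2) := by
    rw [div_le_iff₀ hGQ]
    linarith
  refine le_trans ?_ h3
  rw [div_div]
  refine one_div_le_one_div_of_le (by positivity) ?_
  calc 32 * (M : ℝ) * (G * Real.log Q) ^ 3 = (M : ℝ) * Real.log Q ^ 3 * (32 * G ^ 3) := by ring
    _ ≤ (M : ℝ) * Real.log Q ^ 3 * Real.log Q := mul_le_mul_of_nonneg_left hu2 (by positivity)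
    _ = (M : ℝ) * Real.log Q ^ 4 := by ring

theorem step2 : Step2 := step2_of ub (notNice ub lb)

end Pool.Agent.Helper61.CA
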