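import Pool.Agent.Helper61.CA.St

/-!
# CA-S2c': the sharp upper bound modulo divisors of the full modulus

`modl y Z ∅` (all primes `q ≤ y`) satisfies the hypotheses of `UB`: a prime `q` divides it iff
`q ≤ y` (for `q ≤ y = u^κ ≤ Z = ⌊u^E⌋` one has `Nat.log q Z ≥ 1`; `κ < 1 ≤ E`, `Q` large), and
`modl y Z ∅ ≤ Z^(number of primes ≤ y) ≤ exp (E u^κ log u) ≤ Q^(1/16)` for large `Q`.

Let `D ∣ M := modl y Z ∅` and `a` coprime to `D`. All `l ∈ semi Q y w` with `sw g Q l ≠ 0` are primes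
`> √Q > y`, hence coprime to `M`. So `fa g Q y w D a` is the sum of `fa g Q y w M b` over the classes
`b` modulo `M`, coprime to `M`, `b ≡ a [MOD D]`; there are exactly `M.totient / D.totient` of them
(`ZMod.unitsMap` is onto, its fibres have equal cardinality), and each term is
`≤ C L / M.totient` by `UB`.
-/

set_option autoImplicit false

open Finset

namespace Pool.Agent.Helper61.CA

open Pool.Agent.Helper18.BV

private theorem ubd_growth (κ E : ℝ) (hκ : κ < 1) (hE : 1 ≤ E) : ∃ X0 : ℝ, 3 ≤ X0 ∧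
    ∀ Q : ℝ, X0 ≤ Q → 1 ≤ Real.log Q ∧
      E * (Real.log Q ^ κ * Real.log (Real.log Q)) ≤ Real.log Q / 16 := by
  have hr : 0 < 1 - κ := by linarith
  have h1 := (isLittleO_log_rpow_atTop hr).bound (show (0 : ℝ) < 1 / (16 * E) by positivity)
  have h2 : ∀ᶠ u : ℝ in Filter.atTop, 1 ≤ u ∧
      E * (u ^ κ * Real.log u) ≤ u / 16 := by
    filter_upwards [h1, Filter.eventually_ge_atTop (1 : ℝ)] with u hu hu1
    refine ⟨hu1, ?_⟩
    have hu0 : 0 < u := by linarith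
    have hlog : 0 ≤ Real.log u := Real.log_nonneg hu1
    rw [Real.norm_of_nonneg hlog, Real.norm_of_nonneg (Real.rpow_nonneg hu0.le _)] at hu
    have h3 : u ^ κ * Real.log u ≤ u ^ κ * (1 / (16 * E) * u ^ (1 - κ)) :=
      mul_le_mul_of_nonneg_left hu (Real.rpow_nonneg hu0.le _)
    have h4 : u ^ κ * u ^ (1 - κ) = u := by
      rw [← Real.rpow_add hu0]
      simp
    have h5 : u ^ κ * (1 / (16 * E) * u ^ (1 - κ)) = u / (16 * E) := by
      rw [show u ^ κ * (1 / (16 * E) * u ^ (1 - κ)) = (u ^ κ * u ^ (1 - κ)) * (1 / (16 * E)) by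
        ring, h4]
      ring
    rw [h5] at h3
    calc E * (u ^ κ * Real.log u) ≤ E * (u / (16 * E)) :=
          mul_le_mul_of_nonneg_left h3 (by linarith)
      _ = u / 16 := by
          field_simp
  have h6 := Real.tendsto_log_atTop.eventually h2
  obtain ⟨a, ha⟩ := Filter.eventually_atTop.mp h6
  exact ⟨max 3 a, le_max_left _ _, fun Q hQ => ha Q ((le_max_right _ _).trans hQ)⟩

/-- The size of the full modulus. -/
theorem modl_le (κ E : ℝ) (hκ0 : 0 < κ) (hκ : κ < 1) (hE : 1 ≤ E) : ∃ X0 : ℝ, 3 ≤ X0 ∧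
    ∀ Q : ℝ, X0 ≤ Q → ∀ R : Finset ℕ, 0 < modl (yy κ Q) (ZZ E Q) R ∧
      modl (yy κ Q) (ZZ E Q) R ∣ modl (yy κ Q) (ZZ E Q) ∅ ∧
      (modl (yy κ Q) (ZZ E Q) R : ℝ) ≤ Q ^ (1 / 16 : ℝ) ∧
      ∀ q : ℕ, q.Prime → (q ∣ modl (yy κ Q) (ZZ E Q) R ↔ (q : ℝ) ≤ yy κ Q ∧ q ∉ R) := by
  classical
  obtain ⟨X0, hX0, hgr⟩ := ubd_growth κ E hκ hE
  refine ⟨X0, hX0, fun Q hQ R => ?_⟩
  obtain ⟨hu1, hgrow⟩ := hgr Q hQ
  have hQ0 : 0 < Q := by linarith
  set u := Real.log Q with hu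
  have hu0 : 0 < u := by linarith
  have hy0 : 0 ≤ yy κ Q := Real.rpow_nonneg hu0.le _
  have hyu : yy κ Q ≤ u ^ E :=
    Real.rpow_le_rpow_of_exponent_le hu1 (by linarith)
  have hE1 : 1 ≤ u ^ E := Real.one_le_rpow hu1 (by linarith)
  have hZ1 : 1 ≤ ZZ E Q := by
    unfold ZZ
    rw [Nat.one_le_floor_iff]
    exact hE1
  have hprime : ∀ q : ℕ, q.Prime → (q : ℝ) ≤ yy κ Q → 0 < Nat.log q (ZZ E Q) := by
    intro q hq hqy
    refine Nat.log_pos hq.one_lt ?_
    unfold ZZ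
    exact Nat.le_floor (hqy.trans hyu)
  refine ⟨?_, ?_, ?_, ?_⟩
  · unfold modl
    refine Finset.prod_pos fun q hq => ?_
    rw [Finset.mem_filter] at hq
    exact pow_pos hq.2.1.pos _
  · unfold modl
    refine Finset.prod_dvd_prod_of_subset _ _ _ ?_
    intro q hq
    rw [Finset.mem_filter] at hq ⊢
    exact ⟨hq.1, hq.2.1, by simp⟩
  · have h1 : modl (yy κ Q) (ZZ E Q) R ≤ ZZ E Q ^ ⌊yy κ Q⌋₊ := by
      unfold modl
      calc ∏ q ∈ (Icc 1 ⌊yy κ Q⌋₊).filter (fun q => q.Prime ∧ q ∉ R), q ^ Nat.log q (ZZ E Q)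
          ≤ ∏ _q ∈ (Icc 1 ⌊yy κ Q⌋₊).filter (fun q => q.Prime ∧ q ∉ R), ZZ E Q :=
            Finset.prod_le_prod' fun q _ => Nat.pow_log_le_self q (by omega)
        _ = ZZ E Q ^ ((Icc 1 ⌊yy κ Q⌋₊).filter (fun q => q.Prime ∧ q ∉ R)).card := by
            rw [Finset.prod_const]
        _ ≤ ZZ E Q ^ ⌊yy κ Q⌋₊ := by
            refine Nat.pow_le_pow_right hZ1 ?_
            calc ((Icc 1 ⌊yy κ Q⌋₊).filter (fun q => q.Prime ∧ q ∉ R)).card
                ≤ (Icc 1 ⌊yy κ Q⌋₊).card := Finset.card_filter_le _ _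
              _ = ⌊yy κ Q⌋₊ := by simp
    have h2 : (modl (yy κ Q) (ZZ E Q) R : ℝ) ≤ (ZZ E Q : ℝ) ^ ⌊yy κ Q⌋₊ := by
      exact_mod_cast h1
    have hZle : (ZZ E Q : ℝ) ≤ u ^ E := Nat.floor_le (Real.rpow_nonneg hu0.le _)
    have h3 : (ZZ E Q : ℝ) ^ ⌊yy κ Q⌋₊ ≤ (u ^ E) ^ ⌊yy κ Q⌋₊ :=
      pow_le_pow_left₀ (by positivity) hZle _
    have h4 : (u ^ E) ^ ⌊yy κ Q⌋₊ ≤ (u ^ E) ^ (yy κ Q) := by
      rw [← Real.rpow_natCast]
      exact Real.rpow_le_rpow_of_exponent_le hE1 (Nat.floor_le hy0)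
    have h5 : (u ^ E) ^ (yy κ Q) = Real.exp (E * (u ^ κ * Real.log u)) := by
      rw [← Real.rpow_mul hu0.le, Real.rpow_def_of_pos hu0]
      congr 1
      unfold yy
      ring
    have h6 : Q ^ (1 / 16 : ℝ) = Real.exp (u / 16) := by
      rw [Real.rpow_def_of_pos hQ0]
      congr 1
      ring
    rw [h6]
    refine h2.trans (h3.trans (h4.trans ?_))
    rw [h5]
    exact Real.exp_le_exp.mpr hgrow
  · intro q hq
    unfold modl
    rw [Prime.dvd_finsetProd_iff hq.prime]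
    constructor
    · rintro ⟨p, hp, hqp⟩
      rw [Finset.mem_filter, Finset.mem_Icc] at hp
      have h1 : q ∣ p := hq.dvd_of_dvd_pow hqp
      have h2 : q = p := (Nat.prime_dvd_prime_iff_eq hq hp.2.1).mp h1
      subst h2
      refine ⟨?_, hp.2.2⟩
      exact (Nat.le_floor_iff hy0).mp hp.1.2
    · rintro ⟨hqy, hqR⟩
      refine ⟨q, ?_, ?_⟩
      · rw [Finset.mem_filter, Finset.mem_Icc]
        exact ⟨⟨hq.one_le, Nat.le_floor hqy⟩, hq, hqR⟩
      · exact dvd_pow_self q (hprime q hq hqy).ne'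

/-- Few classes modulo `M` lie over a given class modulo a divisor `D`. -/
private theorem ubd_card (M D : ℕ) (hM : 0 < M) (hD : D ∣ M) (a : ℕ) :
    ((range M).filter (fun b => b.Coprime M ∧ b ≡ a [MOD D])).card * D.totient ≤ M.totient := by
  classical
  have : NeZero M := ⟨hM.ne'⟩
  have hD0 : 0 < D := Nat.pos_of_dvd_of_pos hD hM
  have : NeZero D := ⟨hD0.ne'⟩
  by_cases hne : ((range M).filter (fun b => b.Coprime M ∧ b ≡ a [MOD D])).Nonempty
  swap
  · rw [Finset.not_nonempty_iff_eq_empty] at hne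
    rw [hne]
    simp
  obtain ⟨b0, hb0⟩ := hne
  rw [Finset.mem_filter] at hb0
  have hb0D : b0.Coprime D := Nat.Coprime.coprime_dvd_right hD hb0.2.1
  set f := ZMod.unitsMap hD with hf
  set U : (ZMod D)ˣ := ZMod.unitOfCoprime b0 hb0D with hU
  have hfib : ∀ x : (ZMod D)ˣ, (univ.filter (fun g => f g = x)).card =
      (univ.filter (fun g => f g = U)).card := fun x =>
    MonoidHom.card_fiber_eq_of_mem_range f (ZMod.unitsMap_surjective hD x)
      (ZMod.unitsMap_surjective hD U)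
  have htot : (univ : Finset (ZMod M)ˣ).card =
      ∑ x ∈ (univ : Finset (ZMod D)ˣ), (univ.filter (fun g => f g = x)).card :=
    Finset.card_eq_sum_card_fiberwise (fun _ _ => Finset.mem_coe.mpr (Finset.mem_univ _))
  have h1 : M.totient = D.totient * (univ.filter (fun g => f g = U)).card := by
    rw [← ZMod.card_units_eq_totient M, ← ZMod.card_units_eq_totient D]
    rw [← Finset.card_univ, htot, Finset.sum_congr rfl (fun x _ => hfib x), Finset.sum_const,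
      smul_eq_mul, Finset.card_univ]
  have h2 : ((range M).filter (fun b => b.Coprime M ∧ b ≡ a [MOD D])).card ≤
      (univ.filter (fun g => f g = U)).card := by
    set F : ℕ → (ZMod M)ˣ := fun b => if h : b.Coprime M then ZMod.unitOfCoprime b h else 1
      with hFdef
    have hF : ∀ (b : ℕ) (h : b.Coprime M), F b = ZMod.unitOfCoprime b h := fun b h => dif_pos h
    refine Finset.card_le_card_of_injOn F ?_ ?_
    · intro b hb
      rw [Finset.mem_coe, Finset.mem_filter] at hb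
      rw [Finset.mem_coe, Finset.mem_filter]
      refine ⟨Finset.mem_univ _, ?_⟩
      ext
      rw [hf, ZMod.unitsMap_val, hF b hb.2.1, ZMod.coe_unitOfCoprime, hU, ZMod.coe_unitOfCoprime]
      rw [ZMod.cast_natCast hD, ZMod.natCast_eq_natCast_iff]
      exact hb.2.2.trans hb0.2.2.symm
    · intro b hb c hc hbc
      rw [Finset.mem_coe, Finset.mem_filter, Finset.mem_range] at hb hc
      rw [hF b hb.2.1, hF c hc.2.1] at hbc
      have h3 := congrArg (fun v : (ZMod M)ˣ => (v : ZMod M)) hbc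
      simp only [ZMod.coe_unitOfCoprime] at h3
      rw [ZMod.natCast_eq_natCast_iff] at h3
      exact Nat.ModEq.eq_of_lt_of_lt h3 hb.1 hc.1
  rw [h1, mul_comm]
  exact Nat.mul_le_mul_left _ h2

theorem ubd (hUB : UB) : ∀ g : ℝ → ℝ, IsWt g → ∀ κ κ₂ E : ℝ, 0 < κ → κ < κ₂ → κ₂ < 1 → 1 ≤ E →
    ∃ C X0 : ℝ, 0 < C ∧ 3 ≤ X0 ∧ ∀ Q : ℝ, X0 ≤ Q → ∀ D : ℕ, D ∣ modl (yy κ Q) (ZZ E Q) ∅ →
      ∀ a : ℕ, a.Coprime D →
      fa g Q (yy κ Q) (ww κ₂ Q) D a ≤
        C * (Real.log Q ^ (1 - κ₂) * Real.log (Real.log Q)) / D.totient := by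
  classical
  intro g hg κ κ₂ E hκ0 hκ hκ₂ hE
  obtain ⟨C, X1, hC, hX1, hub⟩ := hUB g hg κ κ₂ hκ0 hκ hκ₂
  obtain ⟨X2, hX2, hmod⟩ := modl_le κ E hκ0 (hκ.trans hκ₂) hE
  obtain ⟨X3, hX3, hgr⟩ := ubd_growth κ E (hκ.trans hκ₂) hE
  refine ⟨C, max X1 (max X2 X3), hC, hX1.trans (le_max_left _ _), fun Q hQ D hD a _ => ?_⟩
  have hQ1 : X1 ≤ Q := (le_max_left _ _).trans hQ
  have hQ2 : X2 ≤ Q := (le_max_left _ _).trans ((le_max_right _ _).trans hQ)
  have hQ3 : X3 ≤ Q := (le_max_right _ _).trans ((le_max_right _ _).trans hQ)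
  have hQ0 : 0 < Q := by linarith
  obtain ⟨hM0, -, hMQ, hMp⟩ := hmod Q hQ2 ∅
  obtain ⟨hu1, -⟩ := hgr Q hQ3
  set M := modl (yy κ Q) (ZZ E Q) ∅ with hM
  have hD0 : 0 < D := Nat.pos_of_dvd_of_pos hD hM0
  have hMp' : ∀ q : ℕ, q.Prime → (q ∣ M ↔ (q : ℝ) ≤ yy κ Q) := fun q hq =>
    (hMp q hq).trans ⟨fun h => h.1, fun h => ⟨h, by simp⟩⟩
  set L := Real.log Q ^ (1 - κ₂) * Real.log (Real.log Q) with hL
  have hL0 : 0 ≤ L :=
    mul_nonneg (Real.rpow_nonneg (by linarith) _) (Real.log_nonneg hu1)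
  have hsw0 : ∀ l : ℕ, 0 ≤ sw g Q l := by
    intro l
    unfold sw wt
    exact mul_nonneg (Real.log_natCast_nonneg l) (div_nonneg (hg.nonneg _) (Nat.cast_nonneg _))
  -- nonzero weights live on primes coprime to `M`
  have hcop : ∀ l ∈ semi Q (yy κ Q) (ww κ₂ Q), sw g Q l ≠ 0 → l.Coprime M := by
    intro l hl hne
    rw [mem_semi] at hl
    obtain ⟨⟨hl1, -⟩, hlp, -⟩ := hl
    rw [Nat.Prime.coprime_iff_not_dvd hlp, hMp' l hlp]
    intro hly
    apply hne
    have hg0 : g (Real.log l / Real.log Q) = 0 := by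
      by_contra hgn
      have h1 : Real.log l / Real.log Q ∈ Set.Ioo (1 / 2 : ℝ) 1 :=
        hg.supp (subset_tsupport _ hgn)
      have h2 : 1 / 2 * Real.log Q < Real.log l := by
        have := h1.1
        rwa [lt_div_iff₀ (by linarith)] at this
      have hl0 : (0 : ℝ) < l := by exact_mod_cast hlp.pos
      have h3 : Real.exp (1 / 2 * Real.log Q) < l := by
        rwa [← Real.lt_log_iff_exp_lt hl0]
      have h4 := Real.quadratic_le_exp_of_nonneg
        (show (0 : ℝ) ≤ 1 / 2 * Real.log Q by linarith)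
      have h5 : yy κ Q ≤ Real.log Q := by
        unfold yy
        calc Real.log Q ^ κ ≤ Real.log Q ^ (1 : ℝ) :=
              Real.rpow_le_rpow_of_exponent_le hu1 (by linarith)
          _ = Real.log Q := Real.rpow_one _
      nlinarith [sq_nonneg (Real.log Q - 2)]
    unfold sw wt
    rw [hg0]
    simp
  set Bs := (range M).filter (fun b => b.Coprime M ∧ b ≡ a [MOD D]) with hBs
  have h1 : fa g Q (yy κ Q) (ww κ₂ Q) D a ≤ ∑ b ∈ Bs, fa g Q (yy κ Q) (ww κ₂ Q) M b := by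
    unfold fa
    have h2 : ∑ l ∈ (semi Q (yy κ Q) (ww κ₂ Q)).filter (fun l => l ≡ a [MOD D]), sw g Q l =
        ∑ l ∈ ((semi Q (yy κ Q) (ww κ₂ Q)).filter (fun l => l ≡ a [MOD D])).filter
          (fun l => l.Coprime M), sw g Q l := by
      refine (Finset.sum_subset (Finset.filter_subset _ _) ?_).symm
      intro l hl hl'
      by_contra hne
      exact hl' (Finset.mem_filter.mpr ⟨hl, hcop l (Finset.mem_filter.mp hl).1 hne⟩)
    rw [h2]
    rw [← Finset.sum_fiberwise_of_maps_to (t := Bs) (g := fun l => l % M)]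
    · refine Finset.sum_le_sum fun b hb => ?_
      refine Finset.sum_le_sum_of_subset_of_nonneg ?_ (fun l _ _ => hsw0 l)
      intro l hl
      simp only [Finset.mem_filter] at hl ⊢
      refine ⟨hl.1.1.1, ?_⟩
      unfold Nat.ModEq
      rw [hl.2]
      exact (Nat.mod_eq_of_lt (by
        rw [hBs, Finset.mem_filter, Finset.mem_range] at hb
        exact hb.1)).symm
    · intro l hl
      rw [Finset.mem_filter, Finset.mem_filter] at hl
      rw [hBs, Finset.mem_filter, Finset.mem_range]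
      refine ⟨Nat.mod_lt _ hM0, ?_, ?_⟩
      · have h3 := hl.2
        unfold Nat.Coprime at h3 ⊢
        rw [← h3, Nat.gcd_comm l M, ← Nat.gcd_rec, Nat.gcd_comm]
      · exact ((Nat.mod_modEq l M).of_dvd hD).trans hl.1.2
  have h2 : ∑ b ∈ Bs, fa g Q (yy κ Q) (ww κ₂ Q) M b ≤ ∑ _b ∈ Bs, C * L / M.totient := by
    refine Finset.sum_le_sum fun b hb => ?_
    rw [hBs, Finset.mem_filter] at hb
    exact hub Q hQ1 M hM0 hMQ hMp' b hb.2.1
  have h3 : (Bs.card : ℝ) * D.totient ≤ M.totient := by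
    exact_mod_cast ubd_card M D hM0 hD a
  have hφD : (0 : ℝ) < D.totient := by exact_mod_cast Nat.totient_pos.mpr hD0
  have hφM : (0 : ℝ) < M.totient := by exact_mod_cast Nat.totient_pos.mpr hM0
  refine (h1.trans h2).trans ?_
  rw [Finset.sum_const, nsmul_eq_mul]
  rw [mul_div_assoc', div_le_div_iff₀ hφM hφD]
  have hCL : 0 ≤ C * L := mul_nonneg hC.le hL0
  nlinarith [mul_le_mul_of_nonneg_left h3 hCL]

end Pool.Agent.Helper61.CA
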